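import Mathlib
import Pool.Agent.Q106.PK.Stm

namespace Pool.Agent.Q106.PK

private def dec2_cl (n i : ℕ) : ℤ × ℤ := (((i / n : ℕ) : ℤ), ((i % n : ℕ) : ℤ))

private theorem dec2_inj {n i j : ℕ} (h : dec2_cl n i = dec2_cl n j) : i = j := by
  unfold dec2_cl at h
  rw [Prod.mk.injEq] at h
  obtain ⟨h1, h2⟩ := h
  have h3 : i / n = j / n := by exact_mod_cast h1
  have h4 : i % n = j % n := by exact_mod_cast h2
  rw [← Nat.div_add_mod i n, ← Nat.div_add_mod j n, h3, h4]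

private theorem dec2_adj (n i j : ℕ) : nadj n i j ↔ CAdj (dec2_cl n i) (dec2_cl n j) := by
  unfold nadj CAdj dec2_cl
  generalize i / n = a
  generalize i % n = b
  generalize j / n = c
  generalize j % n = d
  simp only
  omega

private theorem dec2_mem {n w : ℕ} {p : ℤ × ℤ} :
    p ∈ dec n w ↔ ∃ i, i < n * n ∧ bt w i ∧ dec2_cl n i = p := by
  unfold dec
  rw [Finset.mem_image]
  constructor
  · rintro ⟨i, hi, hp⟩
    rw [Finset.mem_filter, Finset.mem_range] at hi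
    exact ⟨i, hi.1, hi.2, hp⟩
  · rintro ⟨i, hi, hb, hp⟩
    exact ⟨i, by rw [Finset.mem_filter, Finset.mem_range]; exact ⟨hi, hb⟩, hp⟩

private theorem dec2_mem_cl {n w i : ℕ} : dec2_cl n i ∈ dec n w ↔ i < n * n ∧ bt w i := by
  rw [dec2_mem]
  constructor
  · rintro ⟨j, hj, hb, he⟩
    have := dec2_inj he
    subst this
    exact ⟨hj, hb⟩
  · rintro ⟨hj, hb⟩
    exact ⟨i, hj, hb, rfl⟩

private theorem dec2_card (n w : ℕ) :
    (dec n w).card = ((List.range (n * n)).filter (fun i => bt w i)).length := by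
  unfold dec
  rw [Finset.card_image_of_injOn]
  · rfl
  · intro i _ j _ h
    exact dec2_inj h

private theorem dec2_conn (h1 : S_CUT) (h2 : S_DEC1) {n w : ℕ} (hne : (dec n w).Nonempty) :
    Conn (dec n w) ↔ ∀ s < 2 ^ (n * n), Sub n w s := by
  rw [h1 _ hne]
  constructor
  · intro H s _ hsub hsne hspr
    have hS : dec n s ⊆ dec n w := by
      intro p hp
      rw [dec2_mem] at hp ⊢
      obtain ⟨i, hi, hb, he⟩ := hp
      exact ⟨i, hi, hsub i hi hb, he⟩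
    have hS1 : (dec n s).Nonempty := by
      obtain ⟨i, hi, hb⟩ := hsne
      exact ⟨dec2_cl n i, dec2_mem_cl.2 ⟨hi, hb⟩⟩
    have hS2 : dec n s ≠ dec n w := by
      intro he
      obtain ⟨i, hi, hb, hnb⟩ := hspr
      have : dec2_cl n i ∈ dec n s := by rw [he]; exact dec2_mem_cl.2 ⟨hi, hb⟩
      exact hnb (dec2_mem_cl.1 this).2
    obtain ⟨a, ha, b, hb, hbs, hab⟩ := H (dec n s) hS hS1 hS2
    rw [dec2_mem] at ha hb
    obtain ⟨i, hi, hbi, rfl⟩ := ha
    obtain ⟨j, hj, hbj, rfl⟩ := hb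
    refine ⟨i, hi, j, hj, hbi, hbj, ?_, (dec2_adj n i j).2 hab⟩
    intro hjs
    exact hbs (dec2_mem_cl.2 ⟨hj, hjs⟩)
  · intro H S hS hS1 hS2
    obtain ⟨s, ⟨hs, hds⟩, -⟩ := h2 n S (by
      intro p hp
      obtain ⟨i, hi, hb, he⟩ := dec2_mem.1 (hS hp)
      have hn : 0 < n := by
        rcases Nat.eq_zero_or_pos n with h0 | h0
        · subst h0; simp at hi
        · exact h0
      rw [← he]
      unfold dec2_cl
      have a1 : i / n < n := Nat.div_lt_of_lt_mul hi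
      have a2 : i % n < n := Nat.mod_lt _ hn
      refine ⟨?_, ?_, ?_, ?_⟩
      · exact Int.natCast_nonneg _
      · exact Int.ofNat_lt.2 a1
      · exact Int.natCast_nonneg _
      · exact Int.ofNat_lt.2 a2)
    subst hds
    obtain ⟨i, hi, j, hj, hbi, hbj, hnj, hadj⟩ := H s hs
      (by
        intro i hi hb
        exact (dec2_mem_cl.1 (hS (dec2_mem_cl.2 ⟨hi, hb⟩))).2)
      (by
        obtain ⟨p, hp⟩ := hS1
        obtain ⟨i, hi, hb, -⟩ := dec2_mem.1 hp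
        exact ⟨i, hi, hb⟩)
      (by
        by_contra hcon
        apply hS2
        apply Finset.Subset.antisymm hS
        intro p hp
        obtain ⟨i, hi, hb, he⟩ := dec2_mem.1 hp
        rw [← he]
        refine dec2_mem_cl.2 ⟨hi, ?_⟩
        by_contra hnb
        exact hcon ⟨i, hi, hb, hnb⟩)
    refine ⟨dec2_cl n i, dec2_mem_cl.2 ⟨hi, hbi⟩, dec2_cl n j, dec2_mem_cl.2 ⟨hj, hbj⟩, ?_,
      (dec2_adj n i j).1 hadj⟩
    intro h
    exact hnj (dec2_mem_cl.1 h).2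

theorem t_DEC2 (h1 : S_CUT) (h2 : S_DEC1) : S_DEC2 := by
  intro n w _
  have hfst : (∃ i < n, bt w i) ↔ ∃ p ∈ dec n w, p.1 = 0 := by
    constructor
    · rintro ⟨i, hi, hb⟩
      refine ⟨dec2_cl n i, dec2_mem_cl.2 ⟨?_, hb⟩, ?_⟩
      · exact lt_of_lt_of_le hi (Nat.le_mul_of_pos_left n (by omega))
      · unfold dec2_cl
        simp [Nat.div_eq_of_lt hi]
    · rintro ⟨p, hp, hp0⟩
      obtain ⟨i, hi, hb, rfl⟩ := dec2_mem.1 hp
      refine ⟨i, ?_, hb⟩
      have hn : 0 < n := by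
        rcases Nat.eq_zero_or_pos n with h0 | h0
        · subst h0; simp at hi
        · exact h0
      have : i / n = 0 := by
        exact Int.ofNat_eq_zero.1 hp0
      rw [Nat.div_eq_zero_iff] at this
      omega
  have hsnd : (∃ x < n, bt w (x * n)) ↔ ∃ p ∈ dec n w, p.2 = 0 := by
    constructor
    · rintro ⟨x, hx, hb⟩
      refine ⟨dec2_cl n (x * n), dec2_mem_cl.2 ⟨?_, hb⟩, ?_⟩
      · exact Nat.mul_lt_mul_of_pos_right hx (by omega)
      · unfold dec2_cl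
        simp
    · rintro ⟨p, hp, hp0⟩
      obtain ⟨i, hi, hb, rfl⟩ := dec2_mem.1 hp
      have h0 : i % n = 0 := by
        exact Int.ofNat_eq_zero.1 hp0
      refine ⟨i / n, Nat.div_lt_of_lt_mul hi, ?_⟩
      rwa [Nat.div_mul_cancel (Nat.dvd_of_mod_eq_zero h0)]
  have hpos : ∀ p ∈ dec n w, 0 ≤ p.1 ∧ 0 ≤ p.2 := by
    intro p hp
    obtain ⟨i, hi, hb, rfl⟩ := dec2_mem.1 hp
    exact ⟨Int.natCast_nonneg _, Int.natCast_nonneg _⟩
  unfold Good IsOmino BoxA
  rw [dec2_card, hfst, hsnd]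
  constructor
  · rintro ⟨hc, hf, hs, hS⟩
    have hne : (dec n w).Nonempty := by
      obtain ⟨p, hp, -⟩ := hf
      exact ⟨p, hp⟩
    exact ⟨⟨hc, (dec2_conn h1 h2 hne).2 hS⟩, hpos, hf, hs⟩
  · rintro ⟨⟨hc, hC⟩, -, hf, hs⟩
    exact ⟨hc, hf, hs, (dec2_conn h1 h2 hC.1).1 hC⟩

end Pool.Agent.Q106.PK
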