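import Mathlib

/-!
The infinite word over `{0,1,2,3,4}` fixed by the substitution
`0 ↦ 01, 1 ↦ 23, 2 ↦ 4, 3 ↦ 21, 4 ↦ 0`, and the square-free ternary word coded by it which
avoids the factors `121` and `212`.
-/

namespace Q135.B5

/-- The substitution. -/
def f : ℕ → List ℕ
  | 0 => [0, 1]
  | 1 => [2, 3]
  | 2 => [4]
  | 3 => [2, 1]
  | _ => [0]

/-- The iterates on the word `0`. -/
def W : ℕ → List ℕ
  | 0 => [0]
  | n + 1 => (W n).flatMap f

/-- The powers of the substitution. -/
def fk : ℕ → ℕ → List ℕ
  | 0, a => [a]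
  | k + 1, a => (fk k a).flatMap f

theorem f_len_pos (a : ℕ) : 1 ≤ (f a).length := by
  unfold f; split <;> simp

theorem W_fk (n k : ℕ) : W (n + k) = (W n).flatMap (fk k) := by
  induction k with
  | zero =>
    have : fk 0 = fun a => [a] := by funext a; rfl
    rw [add_zero, this, List.flatMap_singleton']
  | succ k ih =>
    have h1 : W (n + (k + 1)) = (W (n + k)).flatMap f := rfl
    rw [h1, ih, List.flatMap_assoc]
    rfl

theorem len_flatMap_ge (F : ℕ → List ℕ) (hF : ∀ a, 1 ≤ (F a).length) (l : List ℕ) :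
    l.length ≤ (l.flatMap F).length := by
  induction l with
  | nil => simp
  | cons a l ih =>
    rw [List.flatMap_cons, List.length_append, List.length_cons]
    have := hF a
    omega

theorem W_head (n : ℕ) : ∃ t, W n = 0 :: t := by
  induction n with
  | zero => exact ⟨[], rfl⟩
  | succ n ih =>
    obtain ⟨t, ht⟩ := ih
    refine ⟨1 :: t.flatMap f, ?_⟩
    show (W n).flatMap f = _
    rw [ht]
    rfl

theorem W_len (n : ℕ) : n + 1 ≤ (W n).length := by
  induction n with
  | zero => simp [W]
  | succ n ih =>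
    obtain ⟨t, ht⟩ := W_head n
    have e : W (n + 1) = 0 :: 1 :: t.flatMap f := by
      show (W n).flatMap f = _
      rw [ht]
      rfl
    have h1 := len_flatMap_ge f f_len_pos t
    rw [ht] at ih
    rw [e]
    simp only [List.length_cons] at ih ⊢
    omega

theorem W_prefix_succ (n : ℕ) : ∃ t, W (n + 1) = W n ++ t := by
  induction n with
  | zero => exact ⟨[1], rfl⟩
  | succ n ih =>
    obtain ⟨t, ht⟩ := ih
    refine ⟨t.flatMap f, ?_⟩
    show (W (n + 1)).flatMap f = (W n).flatMap f ++ _
    rw [ht, List.flatMap_append]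

theorem W_prefix (n k : ℕ) : ∃ t, W (n + k) = W n ++ t := by
  induction k with
  | zero => exact ⟨[], by simp⟩
  | succ k ih =>
    obtain ⟨t, ht⟩ := ih
    obtain ⟨s, hs⟩ := W_prefix_succ (n + k)
    exact ⟨t ++ s, by rw [← add_assoc, hs, ht, List.append_assoc]⟩

/-- The fixed word. -/
def b (i : ℕ) : ℕ := (W i).getD i 0

theorem W_getD_le {n m i : ℕ} (h : n ≤ m) (hi : i < (W n).length) :
    (W m).getD i 0 = (W n).getD i 0 := by
  obtain ⟨k, rfl⟩ := Nat.exists_eq_add_of_le h
  obtain ⟨t, ht⟩ := W_prefix n k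
  rw [ht, List.getD_append _ _ _ _ hi]

theorem W_getD {n i : ℕ} (hi : i < (W n).length) : (W n).getD i 0 = b i := by
  unfold b
  have h1 : i < (W i).length := by have := W_len i; omega
  rcases le_total n i with h | h
  · exact (W_getD_le h hi).symm
  · exact W_getD_le h h1

/-- The position of the `k`-th block of the word coded by `F`. -/
def pos (F : ℕ → List ℕ) (k : ℕ) : ℕ := ∑ t ∈ Finset.range k, (F (b t)).length

theorem pos_succ (F : ℕ → List ℕ) (k : ℕ) : pos F (k + 1) = pos F k + (F (b k)).length := by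
  unfold pos; rw [Finset.sum_range_succ]

theorem pos_zero (F : ℕ → List ℕ) : pos F 0 = 0 := by simp [pos]

theorem pos_mono (F : ℕ → List ℕ) {i j : ℕ} (h : i ≤ j) : pos F i ≤ pos F j := by
  induction j with
  | zero => rw [Nat.le_zero.1 h]
  | succ j ih =>
    rcases Nat.le_succ_iff.1 h with h' | h'
    · exact (ih h').trans (by rw [pos_succ]; omega)
    · rw [h']

/-- The word `c` is coded by `F`. -/
def Coded (c : ℕ → ℕ) (F : ℕ → List ℕ) : Prop :=
  ∀ k r, r < (F (b k)).length → c (pos F k + r) = (F (b k)).getD r 0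

theorem take_pos (F : ℕ → List ℕ) (n k : ℕ) (hk : k ≤ (W n).length) :
    (((W n).take k).flatMap F).length = pos F k := by
  induction k with
  | zero => simp [pos_zero]
  | succ k ih =>
    have hk' : k < (W n).length := by omega
    rw [List.take_succ_eq_append_getElem hk', List.flatMap_append, List.length_append,
      ih (by omega), pos_succ]
    simp only [List.flatMap_cons, List.flatMap_nil, List.append_nil]
    rw [← W_getD hk', List.getD_eq_getElem _ _ hk']

theorem flat_get (F : ℕ → List ℕ) (n k r : ℕ) (hk : k < (W n).length)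
    (hr : r < (F (b k)).length) :
    ((W n).flatMap F).getD (pos F k + r) 0 = (F (b k)).getD r 0 := by
  have e : W n = (W n).take k ++ ((W n)[k] :: (W n).drop (k + 1)) := by
    rw [← List.drop_eq_getElem_cons hk, List.take_append_drop]
  have hb : (W n)[k] = b k := by rw [← W_getD hk, List.getD_eq_getElem _ _ hk]
  conv_lhs => rw [e]
  rw [List.flatMap_append, List.flatMap_cons, hb]
  rw [List.getD_append_right _ _ _ _ (by rw [take_pos F n k hk.le]; omega), take_pos F n k hk.le,
    Nat.add_sub_cancel_left, List.getD_append _ _ _ _ hr]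

theorem flat_len (F : ℕ → List ℕ) (n k : ℕ) (hk : k < (W n).length) :
    pos F (k + 1) ≤ ((W n).flatMap F).length := by
  rw [← take_pos F n (k + 1) (by omega)]
  conv_rhs => rw [← List.take_append_drop (k + 1) (W n)]
  rw [List.flatMap_append, List.length_append]
  omega

theorem coded_b (k : ℕ) : Coded b (fk k) := by
  intro j r hr
  have hj : j < (W j).length := by have := W_len j; omega
  have h1 := flat_get (fk k) j j r hj hr
  rw [← W_fk] at h1
  rw [← h1]
  symm
  apply W_getD
  have h2 := flat_len (fk k) j j hj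
  rw [← W_fk, pos_succ] at h2
  omega

theorem fk_one (a : ℕ) : fk 1 a = f a := by
  show (fk 0 a).flatMap f = f a
  simp [fk]

theorem coded_f : Coded b f := by
  have : fk 1 = f := funext fk_one
  rw [← this]
  exact coded_b 1

theorem pos_ge (F : ℕ → List ℕ) (hF : ∀ t, 1 ≤ (F (b t)).length) (k : ℕ) : k ≤ pos F k := by
  induction k with
  | zero => omega
  | succ k ih => rw [pos_succ]; have := hF k; omega

theorem pos_strict (F : ℕ → List ℕ) (hF : ∀ t, 1 ≤ (F (b t)).length) (k n : ℕ) :
    pos F k + n ≤ pos F (k + n) := by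
  induction n with
  | zero => simp
  | succ n ih =>
    rw [show k + (n + 1) = (k + n) + 1 by omega, pos_succ]
    have := hF (k + n)
    omega

/-- Every position lies in a block. -/
theorem exists_block (F : ℕ → List ℕ) (n : ℕ) (hub : ∃ k, n < pos F k) :
    ∃ k r, n = pos F k + r ∧ r < (F (b k)).length := by
  obtain ⟨k, hk⟩ := hub
  induction k with
  | zero => rw [pos_zero] at hk; omega
  | succ k ih =>
    by_cases h : n < pos F k
    · exact ih h
    · rw [pos_succ] at hk
      exact ⟨k, n - pos F k, by omega, by omega⟩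

/-- The factors of length three. -/
def T3 : List (ℕ × ℕ × ℕ) :=
  [(0, 1, 0), (0, 1, 2), (0, 4, 2), (1, 0, 1), (1, 0, 4), (1, 2, 3), (2, 1, 0), (2, 3, 0),
   (2, 3, 4), (3, 0, 1), (3, 4, 2), (4, 2, 1), (4, 2, 3)]

theorem T3_closed : ∀ x ∈ T3, ∀ r < (f x.1).length,
    ((f x.1 ++ f x.2.1 ++ f x.2.2).getD r 0, (f x.1 ++ f x.2.1 ++ f x.2.2).getD (r + 1) 0,
      (f x.1 ++ f x.2.1 ++ f x.2.2).getD (r + 2) 0) ∈ T3 := by decide

theorem T3_len : ∀ x ∈ T3, 1 ≤ (f x.1).length ∧ 1 ≤ (f x.2.1).length ∧ 1 ≤ (f x.2.2).length := by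
  decide

/-- The letters of a window of the coded word. -/
theorem window (c : ℕ → ℕ) (F : ℕ → List ℕ) (hc : Coded c F) (k r t : ℕ)
    (ht : r + t < (F (b k)).length + (F (b (k + 1))).length + (F (b (k + 2))).length) :
    c (pos F k + r + t) = (F (b k) ++ F (b (k + 1)) ++ F (b (k + 2))).getD (r + t) 0 := by
  by_cases h1 : r + t < (F (b k)).length
  · rw [add_assoc, hc k (r + t) h1, List.append_assoc, List.getD_append _ _ _ _ h1]
  · by_cases h2 : r + t < (F (b k)).length + (F (b (k + 1))).length
    · have e : pos F k + r + t = pos F (k + 1) + (r + t - (F (b k)).length) := by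
        rw [pos_succ]; omega
      rw [e, hc (k + 1) _ (by omega), List.append_assoc,
        List.getD_append_right _ _ _ _ (by omega), List.getD_append _ _ _ _ (by omega)]
    · have e : pos F k + r + t = pos F (k + 2) +
          (r + t - ((F (b k)).length + (F (b (k + 1))).length)) := by
        rw [show k + 2 = (k + 1) + 1 by omega, pos_succ, pos_succ]; omega
      rw [e, hc (k + 2) _ (by omega),
        List.getD_append_right _ _ _ _ (by rw [List.length_append]; omega),
        List.length_append]

theorem mem_T3 (j : ℕ) : (b j, b (j + 1), b (j + 2)) ∈ T3 := by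
  induction j using Nat.strong_induction_on with
  | _ j ih =>
    rcases Nat.eq_zero_or_pos j with h0 | h0
    · subst h0; decide
    · obtain ⟨k, r, hkr, hr⟩ := exists_block f j ⟨j + 1, by
        have := pos_ge f (fun t => f_len_pos _) (j + 1); omega⟩
      have hk : k < j := by
        rcases Nat.eq_zero_or_pos k with hk0 | hk0
        · omega
        · have h1 : pos f 1 = 2 := by decide
          have h2 := pos_strict f (fun t => f_len_pos _) 1 (k - 1)
          rw [show 1 + (k - 1) = k by omega] at h2
          omega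
      have hT := ih k hk
      have hl := T3_len _ hT
      simp only at hl
      have hcl := T3_closed _ hT r hr
      have w0 := window b f coded_f k r 0 (by omega)
      have w1 := window b f coded_f k r 1 (by omega)
      have w2 := window b f coded_f k r 2 (by omega)
      rw [← hkr] at w0 w1 w2
      rw [add_zero, add_zero] at w0
      rw [w0, w1, w2]
      exact hcl

/-! ### Finite checks -/

/-- The first `m` letters of the two lists agree. -/
def agree : List ℕ → List ℕ → ℕ → Bool
  | _, _, 0 => true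
  | a :: l, a' :: l', (m + 1) => (a == a') && agree l l' m
  | _, _, (_ + 1) => false

theorem agree_of (m : ℕ) : ∀ l l' : List ℕ, m ≤ l.length → m ≤ l'.length →
    (∀ t < m, l.getD t 0 = l'.getD t 0) → agree l l' m = true := by
  induction m with
  | zero => intro l l' _ _ _; cases l <;> cases l' <;> rfl
  | succ m ih =>
    intro l l' h1 h2 h
    cases l with
    | nil => simp at h1
    | cons a l =>
      cases l' with
      | nil => simp at h2
      | cons a' l' =>
        unfold agree
        rw [Bool.and_eq_true]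
        constructor
        · have := h 0 (by omega)
          simpa using this
        · apply ih
          · simpa using h1
          · simpa using h2
          · intro t ht
            have := h (t + 1) (by omega)
            simpa using this

/-- For each of the `n` periods `p, p + 1, …` the lists `l` and `l'` (which is `l` without its first
`p` letters) do not agree on the first `p - s` letters. -/
def chk (l : List ℕ) : List ℕ → ℕ → ℕ → ℕ → Bool
  | _, _, _, 0 => true
  | l', p, s, (n + 1) => !agree l l' (p - s) && chk l l'.tail (p + 1) s n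

theorem chk_spec (l : List ℕ) (s n : ℕ) : ∀ (l' : List ℕ) (p : ℕ), l' = l.drop p →
    chk l l' p s n = true → ∀ q, p ≤ q → q < p + n → 2 * q ≤ l.length →
    ¬ ∀ t < q - s, l.getD t 0 = l.getD (q + t) 0 := by
  induction n with
  | zero => intro l' p _ _ q h1 h2; omega
  | succ n ih =>
    intro l' p hl' h q hq1 hq2 hlen hall
    unfold chk at h
    rw [Bool.and_eq_true, Bool.not_eq_true'] at h
    rcases Nat.eq_or_lt_of_le hq1 with he | hlt
    · subst he
      have : agree l l' (p - s) = true := by
        apply agree_of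
        · omega
        · rw [hl', List.length_drop]; omega
        · intro t ht
          rw [hall t ht, hl', List.getD_eq_getElem?_getD, List.getD_eq_getElem?_getD,
            List.getElem?_drop]
      rw [this] at h
      exact absurd h.1 (by simp)
    · refine ih l'.tail (p + 1) ?_ h.2 q (by omega) (by omega) hlen hall
      rw [hl', List.tail_drop]

/-- The full check for a coding `F`. -/
def chkAll (F : ℕ → List ℕ) (p s n : ℕ) : Bool :=
  T3.all (fun x => (List.range (F x.1).length).all (fun r =>
    chk ((F x.1 ++ F x.2.1 ++ F x.2.2).drop r) ((F x.1 ++ F x.2.1 ++ F x.2.2).drop (r + p)) p s n))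

theorem finite_check (c : ℕ → ℕ) (F : ℕ → List ℕ) (hc : Coded c F) (p s n : ℕ)
    (hchk : chkAll F p s n = true)
    (hlen : ∀ x ∈ T3, 1 ≤ (F x.1).length ∧ 2 * (p + n) ≤ (F x.2.1).length + (F x.2.2).length + 1) :
    ∀ q, p ≤ q → q < p + n → ∀ i, ¬ ∀ t < q - s, c (i + t) = c (i + q + t) := by
  intro q hq1 hq2 i hall
  have hpos : ∀ t, 1 ≤ (F (b t)).length := fun t => (hlen _ (mem_T3 t)).1
  obtain ⟨k, r, hkr, hr⟩ := exists_block F i ⟨i + 1, by
    have := pos_ge F hpos (i + 1); omega⟩
  have hT := mem_T3 k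
  have hl := (hlen _ hT).2
  simp only at hl
  unfold chkAll at hchk
  rw [List.all_eq_true] at hchk
  have h1 := hchk _ hT
  rw [List.all_eq_true] at h1
  have h2 := h1 r (List.mem_range.2 hr)
  simp only at h2
  set L := F (b k) ++ F (b (k + 1)) ++ F (b (k + 2)) with hL
  have hLlen : L.length = (F (b k)).length + (F (b (k + 1))).length + (F (b (k + 2))).length := by
    rw [hL, List.length_append, List.length_append]
  have h3 := chk_spec (L.drop r) s n _ p (by rw [List.drop_drop]) h2 q hq1 hq2 (by
    rw [List.length_drop, hLlen]; omega)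
  apply h3
  intro t ht
  have hget : ∀ u, u < 2 * q → (L.drop r).getD u 0 = c (i + u) := by
    intro u hu
    rw [List.getD_eq_getElem?_getD, List.getElem?_drop, ← List.getD_eq_getElem?_getD, hkr,
      window c F hc k r u (by omega)]
  rw [hget t (by omega), hget (q + t) (by omega), hall t ht, add_assoc]

/-! ### The word `b` -/

theorem sum_len : ∀ i, 7 ≤ (f (b i)).length + (f (b (i + 1))).length + (f (b (i + 2))).length +
    (f (b (i + 3))).length + (f (b (i + 4))).length := by
  have hchk : ∀ x ∈ T3, (5 ≤ (fk 4 x.2.1).length + (fk 4 x.2.2).length ∧ 1 ≤ (fk 4 x.1).length) ∧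
      ∀ r < (fk 4 x.1).length,
      7 ≤ (f ((fk 4 x.1 ++ fk 4 x.2.1 ++ fk 4 x.2.2).getD (r + 0) 0)).length +
        (f ((fk 4 x.1 ++ fk 4 x.2.1 ++ fk 4 x.2.2).getD (r + 1) 0)).length +
        (f ((fk 4 x.1 ++ fk 4 x.2.1 ++ fk 4 x.2.2).getD (r + 2) 0)).length +
        (f ((fk 4 x.1 ++ fk 4 x.2.1 ++ fk 4 x.2.2).getD (r + 3) 0)).length +
        (f ((fk 4 x.1 ++ fk 4 x.2.1 ++ fk 4 x.2.2).getD (r + 4) 0)).length := by decide +kernel
  intro i
  have hpos : ∀ t, 1 ≤ (fk 4 (b t)).length := fun t => (hchk _ (mem_T3 t)).1.2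
  obtain ⟨k, r, hkr, hr⟩ := exists_block (fk 4) i ⟨i + 1, by
    have := pos_ge (fk 4) hpos (i + 1); omega⟩
  obtain ⟨⟨h1, -⟩, h2⟩ := hchk _ (mem_T3 k)
  simp only at h1
  have w : ∀ t, t ≤ 4 → b (i + t) =
      (fk 4 (b k) ++ fk 4 (b (k + 1)) ++ fk 4 (b (k + 2))).getD (r + t) 0 := by
    intro t ht
    rw [hkr]
    exact window b (fk 4) (coded_b 4) k r t (by omega)
  have w0 := w 0 (by omega)
  rw [add_zero] at w0
  rw [w0, w 1 (by omega), w 2 (by omega), w 3 (by omega), w 4 (by omega)]
  exact h2 r hr

theorem letter (k : ℕ) : b k = 0 ∨ b k = 1 ∨ b k = 2 ∨ b k = 3 ∨ b k = 4 := by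
  have h : ∀ x ∈ T3, x.1 = 0 ∨ x.1 = 1 ∨ x.1 = 2 ∨ x.1 = 3 ∨ x.1 = 4 := by decide
  exact h _ (mem_T3 k)

/-- A cut. -/
def IsCut (x : ℕ) : Prop := x = 0 ∨ x = 2 ∨ x = 4

theorem b_pos_cut (k : ℕ) : IsCut (b (pos f k)) := by
  have h := coded_f k 0 (f_len_pos _)
  rw [add_zero] at h
  rw [h]
  rcases letter k with e | e | e | e | e <;> rw [e] <;> simp [f, IsCut]

theorem b_pos_second (k : ℕ) (h : (f (b k)).length = 2) : ¬ IsCut (b (pos f k + 1)) := by
  have h1 := coded_f k 1 (by omega)
  rw [h1]
  rcases letter k with e | e | e | e | e <;> rw [e] at h ⊢ <;> simp [f, IsCut] at h ⊢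

theorem f_len_le (a : ℕ) : (f a).length ≤ 2 := by
  unfold f; split <;> simp

theorem block_f (n : ℕ) : ∃ k r, n = pos f k + r ∧ r < (f (b k)).length :=
  exists_block f n ⟨n + 1, by have := pos_ge f (fun t => f_len_pos _) (n + 1); omega⟩

theorem cut_of (n : ℕ) (h : IsCut (b n)) : ∃ k, pos f k = n := by
  obtain ⟨k, r, hkr, hr⟩ := block_f n
  have h2 := f_len_le (b k)
  rcases Nat.eq_zero_or_pos r with h0 | h0
  · exact ⟨k, by omega⟩
  · have hr1 : r = 1 := by omega
    subst hr1
    rw [hkr] at h
    exact absurd h (b_pos_second k (by omega))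

/-- Decoding. -/
def dec (x y : ℕ) : ℕ := if x = 0 then (if y = 1 then 0 else 4) else
  if x = 2 then (if y = 3 then 1 else 3) else 2

theorem dec_eq (k : ℕ) : b k = dec (b (pos f k)) (b (pos f k + 1)) := by
  have h0 := coded_f k 0 (f_len_pos _)
  rw [add_zero] at h0
  rcases letter k with e | e | e | e | e
  · have h1 := coded_f k 1 (by rw [e]; simp [f])
    rw [h0, h1, e]; rfl
  · have h1 := coded_f k 1 (by rw [e]; simp [f])
    rw [h0, h1, e]; rfl
  · rw [h0, e]; rfl
  · have h1 := coded_f k 1 (by rw [e]; simp [f])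
    rw [h0, h1, e]; rfl
  · have h1 : pos f k + 1 = pos f (k + 1) := by rw [pos_succ, e]; rfl
    have h2 := b_pos_cut (k + 1)
    rw [h1, h0, e]
    unfold dec IsCut at *
    have h3 : (f 4).getD 0 0 = 0 := rfl
    rw [h3, if_pos rfl, if_neg (by omega)]

theorem main_check : chkAll (fk 8) 18 4 17 = true := by decide +kernel

theorem main_len : ∀ x ∈ T3, 1 ≤ (fk 8 x.1).length ∧
    2 * (18 + 17) ≤ (fk 8 x.2.1).length + (fk 8 x.2.2).length + 1 := by decide +kernel

/-- Long repetitions in `b` are far from being squares. -/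
theorem slack (p : ℕ) (hp : 18 ≤ p) : ∀ i, ¬ ∀ t < p - 4, b (i + t) = b (i + p + t) := by
  induction p using Nat.strong_induction_on with
  | _ p ih =>
    by_cases hp2 : p < 35
    · exact finite_check b (fk 8) (coded_b 8) 18 4 17 main_check main_len p hp (by omega)
    · intro i hall
      -- the first cut
      obtain ⟨a, ha1, ha2⟩ : ∃ a, i ≤ pos f a ∧ pos f a ≤ i + 1 := by
        obtain ⟨k, r, hkr, hr⟩ := block_f i
        have h2 := f_len_le (b k)
        rcases Nat.eq_zero_or_pos r with h0 | h0
        · exact ⟨k, by omega, by omega⟩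
        · exact ⟨k + 1, by rw [pos_succ]; omega, by rw [pos_succ]; omega⟩
      have hrun : ∀ n, i ≤ n → n < i + (p - 4) → b n = b (n + p) := by
        intro n h1 h2
        have := hall (n - i) (by omega)
        rw [show i + (n - i) = n by omega, show i + p + (n - i) = n + p by omega] at this
        exact this
      obtain ⟨a', ha'⟩ := cut_of (pos f a + p) (by
        rw [← hrun (pos f a) (by omega) (by omega)]; exact b_pos_cut a)
      have hlt : a < a' := by
        by_contra hcon
        push Not at hcon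
        have := pos_mono f hcon
        omega
      have claim : ∀ n, pos f (a + n) + 1 < i + (p - 4) →
          b (a + n) = b (a' + n) ∧ pos f (a' + n) = pos f (a + n) + p := by
        intro n
        have hlow : ∀ n, i ≤ pos f (a + n) := fun n => ha1.trans (pos_mono f (by omega))
        induction n with
        | zero =>
          intro h
          simp only [add_zero] at h ⊢
          refine ⟨?_, ha'⟩
          rw [dec_eq a, dec_eq a', ha', ← hrun (pos f a) ha1 (by omega),
            show pos f a + p + 1 = pos f a + 1 + p by omega,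
            ← hrun (pos f a + 1) (by omega) (by omega)]
        | succ n ihn =>
          intro h
          have h1 : pos f (a + n) ≤ pos f (a + (n + 1)) := pos_mono f (by omega)
          obtain ⟨e1, e2⟩ := ihn (by omega)
          have e3 : pos f (a' + (n + 1)) = pos f (a + (n + 1)) + p := by
            rw [← add_assoc, ← add_assoc, pos_succ, pos_succ, e2, e1]; omega
          refine ⟨?_, e3⟩
          rw [dec_eq (a + (n + 1)), dec_eq (a' + (n + 1)), e3,
            ← hrun (pos f (a + (n + 1))) (hlow _) (by omega),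
            show pos f (a + (n + 1)) + p + 1 = pos f (a + (n + 1)) + 1 + p by omega,
            ← hrun (pos f (a + (n + 1)) + 1) (by have := hlow (n + 1); omega) (by omega)]
      obtain ⟨q, rfl⟩ : ∃ q, a' = a + q := ⟨a' - a, by omega⟩
      -- bounds for `q`
      have hup : ∀ n, pos f (a + n) ≤ pos f a + 2 * n := by
        intro n
        induction n with
        | zero => simp
        | succ n ihn => rw [← add_assoc, pos_succ]; have := f_len_le (b (a + n)); omega
      have hq2 := hup q
      have hq18 : 18 ≤ q := by omega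
      have hseven : ∀ j, pos f j + 7 ≤ pos f (j + 5) := by
        intro j
        have h5 := sum_len j
        rw [show j + 5 = j + 4 + 1 by omega, pos_succ, show j + 4 = j + 3 + 1 by omega, pos_succ,
          show j + 3 = j + 2 + 1 by omega, pos_succ, show j + 2 = j + 1 + 1 by omega, pos_succ,
          pos_succ]
        rw [show j + 1 + 1 = j + 2 by omega, show j + 2 + 1 = j + 3 by omega,
          show j + 3 + 1 = j + 4 by omega]
        omega
      have hqp : q < p := by
        have h1 := hseven a
        have h2 := pos_strict f (fun t => f_len_pos _) (a + 5) (q - 5)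
        rw [show a + 5 + (q - 5) = a + q by omega] at h2
        omega
      apply ih q hqp hq18 a
      intro t ht
      have h1 := hseven (a + t)
      have h2 : pos f (a + t + 5) ≤ pos f (a + q) := pos_mono f (by omega)
      exact (claim t (by omega)).1

/-! ### The ternary word -/

/-- The coding. -/
def g : ℕ → List ℕ
  | 0 => [0, 2, 1]
  | 1 => [0, 1, 2]
  | 2 => []
  | 3 => [0, 1]
  | _ => [0, 2]

/-- The composition of `g` with a power of the substitution. -/
def gk (k a : ℕ) : List ℕ := (fk k a).flatMap g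

theorem g_len_le (a : ℕ) : (g a).length ≤ 3 := by
  unfold g; split <;> simp

theorem no22 (k : ℕ) : ¬ (b k = 2 ∧ b (k + 1) = 2) := by
  have h : ∀ x ∈ T3, ¬ (x.1 = 2 ∧ x.2.1 = 2) := by decide
  exact h _ (mem_T3 k)

theorem g_two (k : ℕ) (h : b k ≠ 2) : 2 ≤ (g (b k)).length := by
  rcases letter k with e | e | e | e | e <;> rw [e] at h ⊢ <;> simp [g] at h ⊢

theorem posg_ge (k : ℕ) : k ≤ pos g k + 1 ∧ (b k ≠ 2 → k ≤ pos g k + 1) ∧
    k + 1 ≤ pos g (k + 1) + 1 ∧ (b k = 2 → k ≤ pos g k) := by
  induction k with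
  | zero => simp [pos_zero]
  | succ k ih =>
    obtain ⟨h1, -, h3, h4⟩ := ih
    have hk : b (k + 1) = 2 → k + 1 ≤ pos g (k + 1) := by
      intro h
      have hne : b k ≠ 2 := fun h' => no22 k ⟨h', h⟩
      have := g_two k hne
      rw [pos_succ]
      omega
    refine ⟨h3, fun _ => h3, ?_, hk⟩
    by_cases h2 : b (k + 1) = 2
    · have := hk h2
      have h5 := pos_mono g (Nat.le_succ (k + 1))
      simp only [Nat.succ_eq_add_one] at h5
      omega
    · have := g_two (k + 1) h2
      rw [pos_succ g (k + 1)]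
      omega

/-- The ternary word. -/
def P (i : ℕ) : ℕ := ((W (i + 1)).flatMap g).getD i 0

theorem flat_prefix (F : ℕ → List ℕ) {n m i : ℕ} (h : n ≤ m)
    (hi : i < ((W n).flatMap F).length) :
    ((W m).flatMap F).getD i 0 = ((W n).flatMap F).getD i 0 := by
  obtain ⟨k, rfl⟩ := Nat.exists_eq_add_of_le h
  obtain ⟨t, ht⟩ := W_prefix n k
  rw [ht, List.flatMap_append, List.getD_append _ _ _ _ hi]

theorem P_eq {n i : ℕ} (hi : i < ((W n).flatMap g).length) :
    ((W n).flatMap g).getD i 0 = P i := by
  unfold P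
  have h1 : i < ((W (i + 1)).flatMap g).length := by
    have hl := W_len (i + 1)
    have h2 := flat_len g (i + 1) (i + 1) (by omega)
    have h3 := (posg_ge (i + 2)).1
    rw [show i + 1 + 1 = i + 2 by omega] at h2
    omega
  rcases le_total n (i + 1) with h | h
  · exact (flat_prefix g h hi).symm
  · exact flat_prefix g h h1

theorem coded_P (k : ℕ) : Coded P (gk k) := by
  intro j r hr
  have hj : j < (W j).length := by have := W_len j; omega
  have h1 := flat_get (gk k) j j r hj hr
  have e : (W j).flatMap (gk k) = (W (j + k)).flatMap g := by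
    rw [W_fk, List.flatMap_assoc]
    rfl
  rw [e] at h1
  rw [← h1]
  symm
  apply P_eq
  have h2 := flat_len (gk k) j j hj
  rw [e, pos_succ] at h2
  omega

theorem coded_g : Coded P g := by
  have : gk 0 = g := by
    funext a
    simp [gk, fk]
  rw [← this]
  exact coded_P 0

theorem block_g (n : ℕ) : ∃ k r, n = pos g k + r ∧ r < (g (b k)).length :=
  exists_block g n ⟨n + 2, by have := (posg_ge (n + 2)).1; omega⟩

theorem P_pos (k : ℕ) (h : b k ≠ 2) : P (pos g k) = 0 := by
  have h2 := g_two k h
  have h1 := coded_g k 0 (by omega)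
  rw [add_zero] at h1
  rw [h1]
  rcases letter k with e | e | e | e | e <;> rw [e] <;> rfl

theorem P_inner (k r : ℕ) (h0 : 0 < r) (hr : r < (g (b k)).length) : P (pos g k + r) ≠ 0 := by
  rw [coded_g k r hr]
  rcases letter k with e | e | e | e | e <;> rw [e] at hr ⊢ <;>
    simp only [g, List.length_cons, List.length_nil] at hr ⊢ <;> try omega
  · interval_cases r <;> simp
  · interval_cases r <;> simp
  · interval_cases r; simp
  · interval_cases r; simp

/-- The next block after the `k`-th letter starts with zero. -/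
theorem P_next (k : ℕ) : P (pos g (k + 1)) = 0 := by
  by_cases h : b (k + 1) = 2
  · have hne : b (k + 2) ≠ 2 := fun h' => no22 (k + 1) ⟨h, h'⟩
    have e : pos g (k + 1) = pos g (k + 2) := by
      rw [show k + 2 = (k + 1) + 1 by omega, pos_succ g (k + 1), h]; rfl
    rw [e]
    exact P_pos (k + 2) hne
  · exact P_pos (k + 1) h

theorem zero_of (n : ℕ) (h : P n = 0) : ∃ k, pos g k = n ∧ b k ≠ 2 := by
  obtain ⟨k, r, hkr, hr⟩ := block_g n
  rcases Nat.eq_zero_or_pos r with h0 | h0
  · refine ⟨k, by omega, ?_⟩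
    intro h2
    rw [h2] at hr
    simp [g] at hr
  · rw [hkr] at h
    exact absurd h (P_inner k r h0 hr)

/-- Decoding of the ternary word. -/
def decg (x y : ℕ) : ℕ := if x = 2 then (if y = 1 then 0 else 4) else (if y = 2 then 1 else 3)

theorem decg_eq (k : ℕ) (h : b k ≠ 2) : b k = decg (P (pos g k + 1)) (P (pos g k + 2)) := by
  have hn := P_next k
  rw [pos_succ] at hn
  rcases letter k with e | e | e | e | e
  · have h1 := coded_g k 1 (by rw [e]; simp [g])
    have h2 := coded_g k 2 (by rw [e]; simp [g])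
    rw [h1, h2, e]; rfl
  · have h1 := coded_g k 1 (by rw [e]; simp [g])
    have h2 := coded_g k 2 (by rw [e]; simp [g])
    rw [h1, h2, e]; rfl
  · exact absurd e h
  · have h1 := coded_g k 1 (by rw [e]; simp [g])
    have h2 : P (pos g k + 2) = 0 := by rw [e] at hn; exact hn
    rw [h1, h2, e]; rfl
  · have h1 := coded_g k 1 (by rw [e]; simp [g])
    have h2 : P (pos g k + 2) = 0 := by rw [e] at hn; exact hn
    rw [h1, h2, e]; rfl

/-- The letter after `x` when the next non-empty block is the one of `y`. -/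
def nxt (x y : ℕ) : ℕ := if (x = 1 ∧ y = 3) ∨ (x = 4 ∧ (y = 1 ∨ y = 3)) then 2 else y

theorem nxt_eq (k : ℕ) :
    b (k + 1) = nxt (b k) (decg (P (pos g (k + 1) + 1)) (P (pos g (k + 1) + 2))) := by
  have hT := mem_T3 k
  by_cases h : b (k + 1) = 2
  · have hne : b (k + 2) ≠ 2 := fun h' => no22 (k + 1) ⟨h, h'⟩
    have e : pos g (k + 1) = pos g (k + 2) := by
      rw [show k + 2 = (k + 1) + 1 by omega, pos_succ g (k + 1), h]; rfl
    rw [e, ← decg_eq (k + 2) hne]
    have hall : ∀ x ∈ T3, x.2.1 = 2 → x.2.1 = nxt x.1 x.2.2 := by decide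
    exact hall _ hT h
  · rw [← decg_eq (k + 1) h]
    have hall : ∀ x ∈ T3, x.2.1 ≠ 2 → x.2.1 = nxt x.1 x.2.1 := by decide
    exact hall _ hT h

theorem sum_g : ∀ i, 5 ≤ (g (b i)).length + (g (b (i + 1))).length + (g (b (i + 2))).length +
    (g (b (i + 3))).length + (g (b (i + 4))).length := by
  intro i
  have h1 : ∀ x ∈ T3, 3 ≤ (g x.1).length + (g x.2.1).length + (g x.2.2).length := by decide
  have h2 : ∀ x ∈ T3, 2 ≤ (g x.1).length + (g x.2.1).length := by decide
  have a1 := h1 _ (mem_T3 i)
  have a2 := h2 _ (mem_T3 (i + 3))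
  simp only at a1 a2
  rw [show i + 3 + 1 = i + 4 by omega] at a2
  omega

theorem P_check : chkAll (gk 8) 1 0 51 = true := by decide +kernel

theorem P_len : ∀ x ∈ T3, 1 ≤ (gk 8 x.1).length ∧
    2 * (1 + 51) ≤ (gk 8 x.2.1).length + (gk 8 x.2.2).length + 1 := by decide +kernel

/-- The ternary word is square-free. -/
theorem P_sqfree (p : ℕ) (hp : 1 ≤ p) : ∀ i, ¬ ∀ t < p, P (i + t) = P (i + p + t) := by
  by_cases hp2 : p ≤ 51
  · intro i hall
    exact finite_check P (gk 8) (coded_P 8) 1 0 51 P_check P_len p hp (by omega) i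
      (by simpa using hall)
  · intro i hall
    have hrun : ∀ n, i ≤ n → n < i + p → P n = P (n + p) := by
      intro n h1 h2
      have := hall (n - i) (by omega)
      rw [show i + (n - i) = n by omega, show i + p + (n - i) = n + p by omega] at this
      exact this
    -- the first zero
    obtain ⟨n0, hn1, hn2, hn3⟩ : ∃ n, i ≤ n ∧ n ≤ i + 2 ∧ P n = 0 := by
      obtain ⟨k, r, hkr, hr⟩ := block_g i
      have h3 := g_len_le (b k)
      rcases Nat.eq_zero_or_pos r with h0 | h0
      · refine ⟨i, by omega, by omega, ?_⟩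
        rw [hkr, h0, add_zero]
        apply P_pos
        intro h2
        rw [h2] at hr
        simp [g] at hr
      · refine ⟨pos g (k + 1), ?_, ?_, P_next k⟩
        · rw [pos_succ]; omega
        · rw [pos_succ]; omega
    obtain ⟨k, hk, hk2⟩ := zero_of n0 hn3
    have ha1 : i ≤ pos g k := by omega
    have ha2 : pos g k ≤ i + 2 := by omega
    obtain ⟨k', hk', hk2'⟩ := zero_of (pos g k + p) (by
      rw [← hrun (pos g k) ha1 (by omega), hk]; exact hn3)
    have hlt : k < k' := by
      by_contra hcon
      push Not at hcon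
      have := pos_mono g hcon
      omega
    have claim : ∀ n, pos g (k + n) + 2 < i + p →
        b (k + n) = b (k' + n) ∧ pos g (k' + n) = pos g (k + n) + p := by
      intro n
      have hlow : ∀ n, i ≤ pos g (k + n) := fun n => ha1.trans (pos_mono g (by omega))
      induction n with
      | zero =>
        intro h
        simp only [add_zero] at h ⊢
        refine ⟨?_, hk'⟩
        rw [decg_eq k hk2, decg_eq k' hk2', hk',
          show pos g k + p + 1 = pos g k + 1 + p by omega,
          show pos g k + p + 2 = pos g k + 2 + p by omega,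
          ← hrun (pos g k + 1) (by omega) (by omega), ← hrun (pos g k + 2) (by omega) (by omega)]
      | succ n ihn =>
        intro h
        have h1 : pos g (k + n) ≤ pos g (k + (n + 1)) := pos_mono g (by omega)
        obtain ⟨e1, e2⟩ := ihn (by omega)
        have e3 : pos g (k' + (n + 1)) = pos g (k + (n + 1)) + p := by
          rw [← add_assoc, ← add_assoc, pos_succ, pos_succ, e2, e1]; omega
        refine ⟨?_, e3⟩
        have h2 := hlow (n + 1)
        have f1 := nxt_eq (k + n)
        have f2 := nxt_eq (k' + n)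
        rw [show k + n + 1 = k + (n + 1) by omega] at f1
        rw [show k' + n + 1 = k' + (n + 1) by omega] at f2
        rw [f1, f2, e3, e1,
          show pos g (k + (n + 1)) + p + 1 = pos g (k + (n + 1)) + 1 + p by omega,
          show pos g (k + (n + 1)) + p + 2 = pos g (k + (n + 1)) + 2 + p by omega,
          ← hrun (pos g (k + (n + 1)) + 1) (by omega) (by omega),
          ← hrun (pos g (k + (n + 1)) + 2) (by omega) (by omega)]
    obtain ⟨q, rfl⟩ : ∃ q, k' = k + q := ⟨k' - k, by omega⟩
    have hup : ∀ n, pos g (k + n) ≤ pos g k + 3 * n := by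
      intro n
      induction n with
      | zero => simp
      | succ n ihn => rw [← add_assoc, pos_succ]; have := g_len_le (b (k + n)); omega
    have hq3 := hup q
    have hq18 : 18 ≤ q := by omega
    have hfive : ∀ j, pos g j + 5 ≤ pos g (j + 5) := by
      intro j
      have h5 := sum_g j
      rw [show j + 5 = j + 4 + 1 by omega, pos_succ, show j + 4 = j + 3 + 1 by omega, pos_succ,
        show j + 3 = j + 2 + 1 by omega, pos_succ, show j + 2 = j + 1 + 1 by omega, pos_succ,
        pos_succ]
      rw [show j + 1 + 1 = j + 2 by omega, show j + 2 + 1 = j + 3 by omega,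
        show j + 3 + 1 = j + 4 by omega]
      omega
    apply slack q hq18 k
    intro t ht
    have h1 := hfive (k + t)
    have h2 : pos g (k + t + 5) ≤ pos g (k + q) := pos_mono g (by omega)
    exact (claim t (by omega)).1

/-- The letters are at most two and the factors `121` and `212` do not occur. -/
theorem P_avoid (i : ℕ) : P i ≤ 2 ∧ ¬ (P i = 1 ∧ P (i + 1) = 2 ∧ P (i + 2) = 1) ∧
    ¬ (P i = 2 ∧ P (i + 1) = 1 ∧ P (i + 2) = 2) := by
  have hchk : ∀ x ∈ T3, (3 ≤ (gk 2 x.2.1).length + (gk 2 x.2.2).length ∧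
        1 ≤ (gk 2 x.1).length) ∧
      ∀ r < (gk 2 x.1).length,
        (gk 2 x.1 ++ gk 2 x.2.1 ++ gk 2 x.2.2).getD (r + 0) 0 ≤ 2 ∧
        ¬ ((gk 2 x.1 ++ gk 2 x.2.1 ++ gk 2 x.2.2).getD (r + 0) 0 = 1 ∧
          (gk 2 x.1 ++ gk 2 x.2.1 ++ gk 2 x.2.2).getD (r + 1) 0 = 2 ∧
          (gk 2 x.1 ++ gk 2 x.2.1 ++ gk 2 x.2.2).getD (r + 2) 0 = 1) ∧
        ¬ ((gk 2 x.1 ++ gk 2 x.2.1 ++ gk 2 x.2.2).getD (r + 0) 0 = 2 ∧
          (gk 2 x.1 ++ gk 2 x.2.1 ++ gk 2 x.2.2).getD (r + 1) 0 = 1 ∧
          (gk 2 x.1 ++ gk 2 x.2.1 ++ gk 2 x.2.2).getD (r + 2) 0 = 2) := by decide +kernel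
  have hpos : ∀ t, 1 ≤ (gk 2 (b t)).length := fun t => (hchk _ (mem_T3 t)).1.2
  obtain ⟨k, r, hkr, hr⟩ := exists_block (gk 2) i ⟨i + 1, by
    have := pos_ge (gk 2) hpos (i + 1); omega⟩
  obtain ⟨⟨h1, -⟩, h2⟩ := hchk _ (mem_T3 k)
  simp only at h1
  have w : ∀ t, t ≤ 2 → P (i + t) =
      (gk 2 (b k) ++ gk 2 (b (k + 1)) ++ gk 2 (b (k + 2))).getD (r + t) 0 := by
    intro t ht
    rw [hkr]
    exact window P (gk 2) (coded_P 2) k r t (by omega)
  have w0 := w 0 (by omega)
  rw [add_zero] at w0
  rw [w0, w 1 (by omega), w 2 (by omega)]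
  exact h2 r hr

end Q135.B5
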