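import Pool.Agent.Q141.CP.Stm

/-!
# Project CP, job D1: walks on `ℤ` from `0` to `k + 1` with local times `12, 25, ..., 25, 13`

Walks are lists of Booleans (`true` = a step up). `Ins t h L u M`: the walk `M` is obtained from the
walk `L` (which starts at `h`, stays below or at `t` and ends at `t`) and the word `u` of the exits from `t`
(`true` = up; then the walk comes back to `t` at once) and a last step up.
-/

set_option autoImplicit false

namespace Pool.Agent.Q135.CP_D1

open Finset Pool.Agent.Q141.CP

/-- The step. -/
def sg (b : Bool) : ℤ := if b then 1 else -1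

@[simp] lemma sg_true : sg true = 1 := rfl
@[simp] lemma sg_false : sg false = -1 := rfl

/-- The number of the visits of `x`. -/
def vs (x : ℤ) : ℤ → List Bool → ℕ
  | _, [] => 0
  | h, b :: L => (if h + sg b = x then 1 else 0) + vs x (h + sg b) L

/-- The walk stays below or at `t` and ends at `t`. -/
def ok (t : ℤ) : ℤ → List Bool → Prop
  | h, [] => h = t
  | h, b :: L => h + sg b ≤ t ∧ ok t (h + sg b) L

/-- The number of the exits from `t`. -/
def ex (t : ℤ) : ℤ → List Bool → ℕ
  | _, [] => 0
  | h, b :: L => (if h = t then 1 else 0) + ex t (h + sg b) L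

/-- The insertion. -/
inductive Ins (t : ℤ) : ℤ → List Bool → List Bool → List Bool → Prop
  | fin (h : ℤ) : h = t → Ins t h [] [] [true]
  | up (h : ℤ) (L u M : List Bool) : h = t → Ins t h L u M →
      Ins t h L (true :: u) (true :: false :: M)
  | down (h : ℤ) (L u M : List Bool) : h = t → Ins t (h + sg false) L u M →
      Ins t h (false :: L) (false :: u) (false :: M)
  | move (h : ℤ) (b : Bool) (L u M : List Bool) : h ≠ t → Ins t (h + sg b) L u M →
      Ins t h (b :: L) u (b :: M)

lemma Ins.exists (t : ℤ) : ∀ (n : ℕ) (h : ℤ) (L u : List Bool), L.length + u.length ≤ n →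
    ok t h L → ex t h L = u.count false → ∃ M, Ins t h L u M := by
  intro n
  induction n with
  | zero =>
    intro h L u hn hok hex
    have hL : L = [] := List.length_eq_zero_iff.1 (by omega)
    have hu : u = [] := List.length_eq_zero_iff.1 (by omega)
    subst hL hu
    exact ⟨_, Ins.fin h hok⟩
  | succ n ih =>
    intro h L u hn hok hex
    by_cases ht : h = t
    · match u, L with
      | [], [] => exact ⟨_, Ins.fin h ht⟩
      | [], b :: L' => simp [ex, ht] at hex
      | true :: u', L =>
        obtain ⟨M, hM⟩ := ih h L u' (by simp at hn; omega) hok (by simpa using hex)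
        exact ⟨_, Ins.up h L u' M ht hM⟩
      | false :: u', [] => simp [ex] at hex
      | false :: u', true :: L' =>
        exfalso
        have := hok.1
        simp at this
        omega
      | false :: u', false :: L' =>
        have h1 : ex t (h + sg false) L' = u'.count false := by
          simp only [ex, ht, if_true, List.count_cons_self] at hex
          rw [ht]; omega
        obtain ⟨M, hM⟩ := ih (h + sg false) L' u' (by simp at hn; omega) hok.2 h1
        exact ⟨_, Ins.down h L' u' M ht hM⟩
    · match L with
      | [] => exact absurd hok ht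
      | b :: L' =>
        have h1 : ex t (h + sg b) L' = u.count false := by
          simp only [ex, ht, if_false] at hex
          omega
        obtain ⟨M, hM⟩ := ih (h + sg b) L' u (by simp at hn; omega) hok.2 h1
        exact ⟨_, Ins.move h b L' u M ht hM⟩

lemma Ins.inj {t h : ℤ} {L u M : List Bool} (H : Ins t h L u M) :
    ∀ {L' u' : List Bool}, Ins t h L' u' M → L = L' ∧ u = u' := by
  induction H with
  | fin h ht =>
    intro L' u' H'
    cases H' with
    | fin => exact ⟨rfl, rfl⟩
    | move => exact absurd ht ‹_›
  | up h L u M ht _ ih =>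
    intro L' u' H'
    cases H' with
    | up _ _ _ _ _ H'' =>
      obtain ⟨h1, h2⟩ := ih H''
      exact ⟨h1, by rw [h2]⟩
    | move => exact absurd ht ‹_›
  | down h L u M ht _ ih =>
    intro L' u' H'
    cases H' with
    | down _ _ _ _ _ H'' =>
      obtain ⟨h1, h2⟩ := ih H''
      exact ⟨by rw [h1], by rw [h2]⟩
    | move => exact absurd ht ‹_›
  | move h b L u M ht _ ih =>
    intro L' u' H'
    cases H' with
    | fin => exact absurd ‹_› ht
    | up => exact absurd ‹_› ht
    | down => exact absurd ‹_› ht
    | move _ _ _ _ _ _ H'' =>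
      obtain ⟨h1, h2⟩ := ih H''
      exact ⟨by rw [h1], h2⟩

lemma Ins.length {t h : ℤ} {L u M : List Bool} (H : Ins t h L u M) :
    M.length = L.length + 2 * u.count true + 1 := by
  induction H with
  | fin h ht => simp
  | up h L u M ht _ ih => simp [ih]; ring
  | down h L u M ht _ ih => simp [ih]; ring
  | move h b L u M ht _ ih => simp [ih]; ring

lemma Ins.ok {t h : ℤ} {L u M : List Bool} (H : Ins t h L u M) (hL : ok t h L) :
    CP_D1.ok (t + 1) h M := by
  induction H with
  | fin h ht => simp [CP_D1.ok, ht]
  | up h L u M ht _ ih =>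
    have := ih hL
    refine ⟨by simp [ht], by simp [ht], ?_⟩
    simpa using this
  | down h L u M ht _ ih =>
    exact ⟨by simp [ht], ih hL.2⟩
  | move h b L u M ht _ ih =>
    exact ⟨by have := hL.1; omega, ih hL.2⟩

lemma Ins.vs_lt {t h : ℤ} {L u M : List Bool} (H : Ins t h L u M) (x : ℤ) (hx : x < t) :
    vs x h M = vs x h L := by
  induction H with
  | fin h ht =>
    have : ¬ (h + 1 = x) := by omega
    simp [vs, this]
  | up h L u M ht _ ih =>
    have h1 : ¬ (h + 1 = x) := by omega
    have h2 : ¬ (h = x) := by omega
    simp [vs, h1, h2, ih]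
  | down h L u M ht _ ih => simp only [vs, ih]
  | move h b L u M ht _ ih => simp only [vs, ih]

lemma Ins.vs_self {t h : ℤ} {L u M : List Bool} (H : Ins t h L u M) :
    vs t h M = vs t h L + u.count true := by
  induction H with
  | fin h ht =>
    have : ¬ (h + 1 = t) := by omega
    simp [vs, this]
  | up h L u M ht _ ih =>
    subst ht
    simp [vs, ih]
    ring
  | down h L u M ht _ ih =>
    simp only [vs, ih]
    simp
    ring
  | move h b L u M ht _ ih =>
    simp only [vs, ih]
    ring

lemma Ins.vs_top {t h : ℤ} {L u M : List Bool} (H : Ins t h L u M) (hL : CP_D1.ok t h L) :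
    vs (t + 1) h M = u.count true + 1 := by
  induction H with
  | fin h ht => simp [vs, ht]
  | up h L u M ht _ ih =>
    have h1 := ih hL
    subst ht
    simp [vs, h1]
    ring
  | down h L u M ht _ ih =>
    have h1 := ih hL.2
    simp only [vs, h1]
    rw [if_neg (by simp; omega)]
    simp
  | move h b L u M ht _ ih =>
    have h1 := ih hL.2
    simp only [vs, h1]
    rw [if_neg (by have := hL.1; omega)]
    simp

lemma Ins.ex_top {t h : ℤ} {L u M : List Bool} (H : Ins t h L u M) (hh : h ≤ t)
    (hL : CP_D1.ok t h L) : ex (t + 1) h M = u.count true := by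
  induction H with
  | fin h ht => simp [ex, ht]
  | up h L u M ht _ ih =>
    have h1 := ih hh hL
    subst ht
    simp [ex, h1]
    ring
  | down h L u M ht _ ih =>
    have h1 := ih (by simp; omega) hL.2
    simp only [ex, h1]
    rw [if_neg (by omega)]
    simp
  | move h b L u M ht _ ih =>
    have h1 := ih hL.1 hL.2
    simp only [ex, h1]
    rw [if_neg (by omega)]
    simp

/-- The words with `a` times `true` and `b` times `false`. -/
lemma words (a b : ℕ) : ∃ W : Finset (List Bool), W.card = Nat.choose (a + b) a ∧
    ∀ u ∈ W, u.count true = a ∧ u.count false = b := by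
  induction a generalizing b with
  | zero =>
    refine ⟨{List.replicate b false}, by simp, ?_⟩
    intro u hu
    rw [Finset.mem_singleton] at hu
    subst hu
    simp [List.count_replicate]
  | succ a iha =>
    induction b with
    | zero =>
      refine ⟨{List.replicate (a + 1) true}, by simp, ?_⟩
      intro u hu
      rw [Finset.mem_singleton] at hu
      subst hu
      simp [List.count_replicate]
    | succ b ihb =>
      obtain ⟨W1, c1, h1⟩ := iha (b + 1)
      obtain ⟨W2, c2, h2⟩ := ihb
      refine ⟨W1.image (List.cons true) ∪ W2.image (List.cons false), ?_, ?_⟩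
      · rw [Finset.card_union_of_disjoint, Finset.card_image_of_injective,
          Finset.card_image_of_injective, c1, c2]
        · have : a + 1 + (b + 1) = (a + (b + 1)) + 1 := by ring
          rw [this, Nat.choose_succ_succ]
          have : a + (b + 1) = a + 1 + b := by ring
          rw [this]
        · exact List.cons_injective
        · exact List.cons_injective
        · rw [Finset.disjoint_left]
          intro u hu hu'
          rw [Finset.mem_image] at hu hu'
          obtain ⟨v, _, rfl⟩ := hu
          obtain ⟨w, _, hw⟩ := hu'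
          simp at hw
      · intro u hu
        rw [Finset.mem_union, Finset.mem_image, Finset.mem_image] at hu
        rcases hu with ⟨v, hv, rfl⟩ | ⟨v, hv, rfl⟩
        · obtain ⟨h3, h4⟩ := h1 v hv
          simp [h3, h4]
        · obtain ⟨h3, h4⟩ := h2 v hv
          simp [h3, h4]

/-- The invariants. -/
structure Inv (k : ℕ) (L : List Bool) : Prop where
  len : L.length = 25 * (k + 1)
  ok : ok ((k : ℤ) + 1) 0 L
  ex : ex ((k : ℤ) + 1) 0 L = 12
  v0 : vs 0 0 L = 12
  vi : ∀ i : ℕ, 1 ≤ i → i ≤ k → vs (i : ℤ) 0 L = 25
  vt : vs ((k : ℤ) + 1) 0 L = 13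

lemma Inv.step {k : ℕ} {L u M : List Bool} (hL : Inv k L) (h1 : u.count true = 12)
    (H : Ins ((k : ℤ) + 1) 0 L u M) : Inv (k + 1) M where
  len := by rw [H.length, hL.len, h1]; ring
  ok := by push_cast; exact H.ok hL.ok
  ex := by push_cast; rw [H.ex_top (by positivity) hL.ok, h1]
  v0 := by rw [H.vs_lt 0 (by positivity), hL.v0]
  vi := by
    intro i hi hi'
    rcases Nat.lt_or_ge k i with h | h
    · have : i = k + 1 := by omega
      subst this
      push_cast
      rw [H.vs_self, hL.vt, h1]
    · rw [H.vs_lt (i : ℤ) (by exact_mod_cast Nat.lt_succ_of_le h), hL.vi i hi h]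
  vt := by push_cast; rw [H.vs_top hL.ok, h1]

/-- The first walk. -/
def w0 : List Bool := [true, false, true, false, true, false, true, false, true, false, true, false,
  true, false, true, false, true, false, true, false, true, false, true, false, true]

lemma inv0 : Inv 0 w0 where
  len := by decide
  ok := by simp [w0, ok]
  ex := by decide
  v0 := by decide
  vi := by intro i hi hi'; omega
  vt := by decide

lemma lists (k : ℕ) : ∃ P : Finset (List Bool), (Nat.choose 24 12) ^ k ≤ P.card ∧
    ∀ L ∈ P, Inv k L := by
  classical
  induction k with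
  | zero => exact ⟨{w0}, by simp, by intro L hL; rw [Finset.mem_singleton] at hL; rw [hL]; exact inv0⟩
  | succ k ih =>
    obtain ⟨P, hP, hI⟩ := ih
    obtain ⟨W, hW, hw⟩ := words 12 12
    have hex : ∀ p : List Bool × List Bool, p ∈ P ×ˢ W → ∃ M, Ins ((k : ℤ) + 1) 0 p.1 p.2 M := by
      intro p hp
      rw [Finset.mem_product] at hp
      have h1 := hI _ hp.1
      exact Ins.exists _ _ _ _ _ le_rfl h1.ok (by rw [h1.ex, (hw _ hp.2).2])
    choose! F hF using hex
    refine ⟨(P ×ˢ W).image F, ?_, ?_⟩
    · rw [Finset.card_image_of_injOn, Finset.card_product, hW, pow_succ]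
      · exact Nat.mul_le_mul_right _ hP
      · intro p hp q hq hpq
        have h1 := hF p (by simpa using hp)
        have h2 := hF q (by simpa using hq)
        rw [← hpq] at h2
        obtain ⟨h3, h4⟩ := h1.inj h2
        exact Prod.ext h3 h4
    · intro M hM
      rw [Finset.mem_image] at hM
      obtain ⟨p, hp, rfl⟩ := hM
      have h1 := hF p hp
      rw [Finset.mem_product] at hp
      exact (hI _ hp.1).step (hw _ hp.2).1 h1

/-- The height after `i` steps. -/
def hh (L : List Bool) (i : ℕ) : ℤ := ((L.take i).map sg).sum

lemma vs_eq (x : ℤ) (L : List Bool) : ∀ h : ℤ,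
    vs x h L = ∑ i ∈ Finset.range L.length, if h + hh L (i + 1) = x then 1 else 0 := by
  induction L with
  | nil => intro h; simp [vs]
  | cons b L ih =>
    intro h
    rw [List.length_cons, Finset.sum_range_succ', vs, ih, add_comm]
    congr 1
    · apply Finset.sum_congr rfl
      intro i _
      have : hh (b :: L) (i + 1 + 1) = sg b + hh L (i + 1) := by simp [hh]
      rw [this, add_assoc]
    · simp [hh]

/-- The walk of a list. -/
def tos (n : ℕ) (L : List Bool) : Fin n → Dir 1 := fun i => (0, L.getD i false)

lemma pos_tos (n : ℕ) (L : List Bool) (hn : L.length = n) : ∀ i : ℕ, i ≤ n →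
    pos (tos n L) i = fun _ => hh L i := by
  intro i
  induction i with
  | zero => intro _; funext j; simp [pos, hh]
  | succ i ih =>
    intro hi
    have hi' : i < n := hi
    have h1 : pos (tos n L) (i + 1) = pos (tos n L) i + stepv (tos n L ⟨i, hi'⟩) := by
      unfold pos
      have h2 : stepv (tos n L ⟨i, hi'⟩) =
          ∑ j : Fin n, if j = ⟨i, hi'⟩ then stepv (tos n L j) else 0 := by simp
      rw [h2, ← Finset.sum_add_distrib]
      apply Finset.sum_congr rfl
      intro j _
      rcases lt_trichotomy (j : ℕ) i with h | h | h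
      · rw [if_pos (by omega), if_pos h, if_neg (by rintro rfl; simp at h), add_zero]
      · rw [if_pos (by omega), if_neg (by omega), if_pos (Fin.ext h), zero_add]
      · rw [if_neg (by omega), if_neg (by omega), if_neg (by rintro rfl; simp at h), add_zero]
    rw [h1, ih (by omega)]
    funext j
    have hj : j = 0 := Subsingleton.elim _ _
    subst hj
    have h3 : hh L (i + 1) = hh L i + sg (L.getD i false) := by
      unfold hh
      rw [List.take_add_one, List.map_append, List.sum_append]
      have : L[i]?.toList = [L.getD i false] := by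
        rw [List.getElem?_eq_getElem (by omega), List.getD_eq_getElem _ _ (by omega)]
        rfl
      rw [this]
      simp
    rw [Pi.add_apply, h3]
    congr 1

lemma loc_tos (n : ℕ) (L : List Bool) (hn : L.length = n) (x : ℤ) :
    loc (tos n L) (fun _ => x) = vs x 0 L := by
  rw [vs_eq, loc, Finset.card_filter, hn]
  have h1 : Finset.Icc 1 n = (Finset.range n).image (· + 1) := by
    ext i
    rw [Finset.mem_Icc, Finset.mem_image]
    constructor
    · rintro ⟨h1, h2⟩
      exact ⟨i - 1, Finset.mem_range.2 (by omega), by show i - 1 + 1 = i; omega⟩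
    · rintro ⟨j, hj, rfl⟩
      rw [Finset.mem_range] at hj
      simp; omega
  rw [h1, Finset.sum_image (by intro a _ b _ h; simpa using h)]
  apply Finset.sum_congr rfl
  intro i hi
  rw [Finset.mem_range] at hi
  rw [pos_tos n L hn (i + 1) hi, zero_add]
  have : ((fun _ : Fin 1 => hh L (i + 1)) = fun _ => x) ↔ hh L (i + 1) = x :=
    ⟨fun h => congrFun h 0, fun h => by rw [h]⟩
  simp only [this]

lemma tos_inj (n : ℕ) (L L' : List Bool) (h : L.length = n) (h' : L'.length = n)
    (H : tos n L = tos n L') : L = L' := by
  apply List.ext_getElem (by omega)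
  intro i h1 h2
  have := congrArg Prod.snd (congrFun H ⟨i, by omega⟩)
  simpa [tos, h1, h2] using this

theorem s_D1 : S_D1 := by
  classical
  intro k
  obtain ⟨P, hP, hI⟩ := lists k
  refine ⟨P.image (tos (25 * (k + 1))), ?_, ?_⟩
  · rw [Finset.card_image_of_injOn]
    · exact hP
    · intro L hL L' hL' H
      exact tos_inj _ L L' (hI L (by simpa using hL)).len (hI L' (by simpa using hL')).len H
  · intro s hs
    rw [Finset.mem_image] at hs
    obtain ⟨L, hL, rfl⟩ := hs
    have h := hI L hL
    refine ⟨?_, ?_, ?_⟩
    · rw [loc_tos _ L h.len, h.v0]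
    · intro i hi hi'
      rw [loc_tos _ L h.len, h.vi i hi hi']
    · rw [loc_tos _ L h.len, h.vt]

end Pool.Agent.Q135.CP_D1
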