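import Mathlib
import Pool.Agent.Q127.DJ.Stm

set_option autoImplicit false

namespace Pool.Agent.Q135.DJ_EXPA

open Pool.Agent.Q127.DJ MeasureTheory Filter Topology

theorem bm_mul {φ ψ : (ℕ → ℕ) → ℝ} (h1 : BM 1 φ) (h2 : BM 1 ψ) : BM 1 (fun x => φ x * ψ x) := by
  refine ⟨h1.1.mul h2.1, fun x => ?_⟩
  rw [abs_mul]
  nlinarith [h1.2 x, h2.2 x, abs_nonneg (φ x), abs_nonneg (ψ x)]

theorem bm_u (h1 : S_ce1) (h3 : S_inn) (μ : Measure (ℕ → ℕ)) [IsProbabilityMeasure μ] (m : ℕ)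
    (f : ℕ → Fin m) (a : Fin m) (t : ℕ) (φ : (ℕ → ℕ) → ℝ) (hφ : BM 1 φ) :
    BM 1 (E μ f t (fun y => g μ f a t y * φ y)) :=
  (h1 μ m f t 1 _ zero_le_one (bm_mul (h3 μ m f a t).2.1 hφ)).2

theorem int_u (h2 : S_ce2) (h3 : S_inn) (μ : Measure (ℕ → ℕ)) [IsProbabilityMeasure μ] (m : ℕ)
    (f : ℕ → Fin m) (a : Fin m) (t : ℕ) (φ : (ℕ → ℕ) → ℝ) (hφ : BM 1 φ) :
    ∫ x, E μ f t (fun y => g μ f a t y * φ y) x ∂μ = ∫ x, g μ f a t x * φ x ∂μ := by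
  have := h2 μ m f t 1 1 (fun y => g μ f a t y * φ y) (fun _ => 1)
    (bm_mul (h3 μ m f a t).2.1 hφ) ⟨measurable_const, fun x => by simp⟩ (fun x y _ => rfl)
  simpa using this

theorem sq_le (μ : Measure (ℕ → ℕ)) [IsProbabilityMeasure μ] (φ : (ℕ → ℕ) → ℝ) (hφ : BM 1 φ) :
    ∫ x, (φ x) ^ 2 ∂μ ≤ 1 := by
  calc ∫ x, (φ x) ^ 2 ∂μ ≤ ∫ _x, (1 : ℝ) ∂μ := by
        apply integral_mono_of_nonneg (Eventually.of_forall fun x => sq_nonneg _)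
          (integrable_const _) (Eventually.of_forall fun x => ?_)
        have h := hφ.2 x
        have h' := abs_nonneg (φ x)
        show φ x ^ 2 ≤ 1
        rw [← sq_abs]
        nlinarith
    _ = 1 := by simp

/-- the double Cauchy-Schwarz inequality with Bessel -/
theorem rbound (h1 : S_ce1) (h3 : S_inn) (h4 : S_bes) (μ ν : Measure (ℕ → ℕ))
    [IsProbabilityMeasure μ] [IsProbabilityMeasure ν] (m k : ℕ) (f : ℕ → Fin m) (h : ℕ → Fin k)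
    (a : Fin m) (b : Fin k) (T U : ℕ) (u v : (ℕ → ℕ) → ℝ) (hu : BM 1 u) (hv : BM 1 v)
    (c : ℕ → ℝ) (hc : ∀ t, |c t| ≤
      Real.sqrt (∫ x, (E μ f t (fun z => g μ f a t z * u z) x) ^ 2 ∂μ) *
        Real.sqrt (∫ y, (E ν h t (fun z => g ν h b t z * v z) y) ^ 2 ∂ν)) :
    |∑ t ∈ Finset.Ico T U, c t| ≤ Real.sqrt (∫ x, (u x) ^ 2 ∂μ) * Real.sqrt (∫ y, (v y) ^ 2 ∂ν) := by
  calc |∑ t ∈ Finset.Ico T U, c t| ≤ ∑ t ∈ Finset.Ico T U, |c t| := Finset.abs_sum_le_sum_abs _ _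
    _ ≤ ∑ t ∈ Finset.Ico T U,
        Real.sqrt (∫ x, (E μ f t (fun z => g μ f a t z * u z) x) ^ 2 ∂μ) *
          Real.sqrt (∫ y, (E ν h t (fun z => g ν h b t z * v z) y) ^ 2 ∂ν) :=
        Finset.sum_le_sum fun t _ => hc t
    _ ≤ Real.sqrt (∑ t ∈ Finset.Ico T U,
          ∫ x, (E μ f t (fun z => g μ f a t z * u z) x) ^ 2 ∂μ) *
        Real.sqrt (∑ t ∈ Finset.Ico T U,
          ∫ y, (E ν h t (fun z => g ν h b t z * v z) y) ^ 2 ∂ν) :=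
        Real.sum_sqrt_mul_sqrt_le _ (fun t => integral_nonneg fun x => sq_nonneg _)
          (fun t => integral_nonneg fun x => sq_nonneg _)
    _ ≤ _ := mul_le_mul (Real.sqrt_le_sqrt (h4 μ m f a T U 1 u hu))
        (Real.sqrt_le_sqrt (h4 ν k h b T U 1 v hv)) (Real.sqrt_nonneg _) (Real.sqrt_nonneg _)

theorem expa (h1 : S_ce1) (h2 : S_ce2) (h3 : S_inn) (h4 : S_bes) (h5 : S_rec) (h6 : S_ltw) :
    S_expa := by
  intro μ ν _ _ m k f h a b ε T U φ ψ hε0 hε1 hφ hψ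
  obtain ⟨u, hu⟩ : ∃ u : ℕ → (ℕ → ℕ) → ℝ, u = fun t => E μ f t (fun z => g μ f a t z * φ z) :=
    ⟨_, rfl⟩
  obtain ⟨v, hv⟩ : ∃ v : ℕ → (ℕ → ℕ) → ℝ, v = fun t => E ν h t (fun z => g ν h b t z * ψ z) :=
    ⟨_, rfl⟩
  have hub : ∀ t, BM 1 (u t) := fun t => by rw [hu]; exact bm_u h1 h3 μ m f a t φ hφ
  have hvb : ∀ t, BM 1 (v t) := fun t => by rw [hv]; exact bm_u h1 h3 ν k h b t ψ hψ
  have e1 : ∫ x, ∫ y, φ x * ψ y * D μ ν f h a b ε T U x y ∂ν ∂μ =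
      (∫ x, φ x ∂μ) * (∫ y, ψ y ∂ν) +
        ε * ∑ t ∈ Finset.Ico T U, ∫ x, ∫ y, u t x * v t y * D μ ν f h a b ε T t x y ∂ν ∂μ := by
    rw [hu, hv]
    exact h5 μ ν m k f h a b ε 1 1 T U φ ψ hε0 hε1 hφ hψ
  obtain ⟨R, hR⟩ : ∃ R : ℕ → ℝ, R = fun t => ∑ r ∈ Finset.Ico T t, ∫ x, ∫ y,
      E μ f r (fun z => g μ f a r z * u t z) x * E ν h r (fun z => g ν h b r z * v t z) y *
        D μ ν f h a b ε T r x y ∂ν ∂μ := ⟨_, rfl⟩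
  have e2 : ∀ t, ∫ x, ∫ y, u t x * v t y * D μ ν f h a b ε T t x y ∂ν ∂μ =
      (∫ x, g μ f a t x * φ x ∂μ) * (∫ y, g ν h b t y * ψ y ∂ν) + ε * R t := by
    intro t
    rw [h5 μ ν m k f h a b ε 1 1 T t (u t) (v t) hε0 hε1 (hub t) (hvb t), hR]
    have i1 : ∫ x, u t x ∂μ = ∫ x, g μ f a t x * φ x ∂μ := by
      rw [hu]; exact int_u h2 h3 μ m f a t φ hφ
    have i2 : ∫ x, v t x ∂ν = ∫ x, g ν h b t x * ψ x ∂ν := by
      rw [hv]; exact int_u h2 h3 ν k h b t ψ hψ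
    rw [i1, i2]
  have r1 : ∀ t, |R t| ≤ Real.sqrt (∫ x, (u t x) ^ 2 ∂μ) * Real.sqrt (∫ y, (v t y) ^ 2 ∂ν) := by
    intro t
    rw [hR]
    refine rbound h1 h3 h4 μ ν m k f h a b T t (u t) (v t) (hub t) (hvb t) _ fun r => ?_
    exact h6 μ ν m k f h a b ε 1 1 T r _ _ hε0 hε1 (bm_u h1 h3 μ m f a r _ (hub t))
      (bm_u h1 h3 ν k h b r _ (hvb t))
  have r2 : |∑ t ∈ Finset.Ico T U, R t| ≤ 1 := by
    have := rbound h1 h3 h4 μ ν m k f h a b T U φ ψ hφ hψ R (fun t => by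
      have := r1 t
      rw [hu, hv] at this
      exact this)
    refine this.trans ?_
    have s1 : Real.sqrt (∫ x, (φ x) ^ 2 ∂μ) ≤ 1 := Real.sqrt_le_one.2 (sq_le μ φ hφ)
    have s2 : Real.sqrt (∫ y, (ψ y) ^ 2 ∂ν) ≤ 1 := Real.sqrt_le_one.2 (sq_le ν ψ hψ)
    exact mul_le_one₀ s1 (Real.sqrt_nonneg _) s2
  have e3 : ∫ x, ∫ y, φ x * ψ y * D μ ν f h a b ε T U x y ∂ν ∂μ -
      (∫ x, φ x ∂μ) * (∫ y, ψ y ∂ν) -
      ε * ∑ t ∈ Finset.Ico T U, (∫ x, g μ f a t x * φ x ∂μ) * (∫ y, g ν h b t y * ψ y ∂ν) =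
      ε ^ 2 * ∑ t ∈ Finset.Ico T U, R t := by
    rw [e1, Finset.sum_congr rfl (fun t _ => e2 t), Finset.sum_add_distrib, ← Finset.mul_sum]
    ring
  rw [e3, abs_mul, abs_of_nonneg (sq_nonneg ε)]
  have := mul_le_mul_of_nonneg_left r2 (sq_nonneg ε)
  simpa using this

end Pool.Agent.Q135.DJ_EXPA
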