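import Mathlib

/-! Partizan rulesets, integer values, and a criterion for the value (helper135). -/

namespace Q135.IntGame

/-- A partizan ruleset: `white p q` (`black p q`) says that White (Black) may move from `p` to `q`. -/
structure Ruleset (P : Type*) where
  white : P → P → Prop
  black : P → P → Prop

/-- Disjunctive sum. -/
def Ruleset.sum {P Q : Type*} (A : Ruleset P) (B : Ruleset Q) : Ruleset (P × Q) where
  white a b := (A.white a.1 b.1 ∧ b.2 = a.2) ∨ (b.1 = a.1 ∧ B.white a.2 b.2)
  black a b := (A.black a.1 b.1 ∧ b.2 = a.2) ∨ (b.1 = a.1 ∧ B.black a.2 b.2)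

/-- The negative: the roles of the players are exchanged. -/
def Ruleset.neg {P : Type*} (A : Ruleset P) : Ruleset P where
  white := A.black
  black := A.white

/-- The integers as games: White (Left) moves from `m > 0` to `m - 1`, Black (Right) from `m < 0`
to `m + 1`. -/
def integers : Ruleset ℤ where
  white m n := 0 < m ∧ n = m - 1
  black m n := m < 0 ∧ n = m + 1

/-- White wins (normal play) when Black moves first: to every move of Black there is a reply of White
after which White again wins when Black moves first. -/
inductive WhiteWinsSecond {P : Type*} (A : Ruleset P) : P → Prop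
  | intro (p : P) (reply : ∀ q, A.black p q → P) (legal : ∀ q h, A.white q (reply q h))
      (wins : ∀ q h, WhiteWinsSecond A (reply q h)) : WhiteWinsSecond A p

/-- Black wins when White moves first. -/
def BlackWinsSecond {P : Type*} (A : Ruleset P) (p : P) : Prop := WhiteWinsSecond A.neg p

/-- The position `p` has the value `n` in Conway's sense: the player who moves second wins `p - n`. -/
def HasValue {P : Type*} (A : Ruleset P) (p : P) (n : ℤ) : Prop :=
  WhiteWinsSecond (A.sum integers.neg) (p, n) ∧ BlackWinsSecond (A.sum integers.neg) (p, n)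

/-- The two players cannot both win. -/
theorem no_both {P : Type*} (A : Ruleset P) {q : P} (hq : WhiteWinsSecond A q) :
    ∀ p, A.white p q → ¬ BlackWinsSecond A p := by
  induction hq with
  | intro q reply legal wins ih =>
    intro p hpq hb
    cases hb with
    | intro _ reply' legal' wins' =>
      have h1 := legal' q hpq
      have h2 := wins' q hpq
      exact ih _ h1 _ (legal _ h1) h2

theorem no_both' {P : Type*} (A : Ruleset P) {q : P} (hq : BlackWinsSecond A q) (p : P)
    (hpq : A.black p q) : ¬ WhiteWinsSecond A p := by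
  intro hw
  exact no_both A.neg hq p hpq hw

section crit

variable {P : Type*} {A : Ruleset P} {good : P → Prop} {size : P → ℕ} {F : P → ℤ}

theorem white_second
    (hW : ∀ p q, good p → A.white p q → good q ∧ size q < size p ∧ F q ≤ F p - 1)
    (hB : ∀ p q, good p → A.black p q → good q ∧ size q < size p ∧ F p + 1 ≤ F q)
    (hW' : ∀ p, good p → 0 < F p → ∃ q, A.white p q ∧ F q = F p - 1) :
    ∀ (k : ℕ) (p : P) (n : ℤ), size p + n.natAbs ≤ k → good p → n ≤ F p →
      WhiteWinsSecond (A.sum integers.neg) (p, n) := by
  intro k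
  induction k using Nat.strong_induction_on with
  | _ k ih =>
    intro p n hk hp hn
    have reply : ∀ (t : P) (m : ℤ), size t + m.natAbs < k → good t → m + 1 ≤ F t →
        ∃ r : P × ℤ, (A.sum integers.neg).white (t, m) r ∧
          WhiteWinsSecond (A.sum integers.neg) r := by
      intro t m hkt ht hm
      by_cases hpos : 0 < F t
      · obtain ⟨q, h1, h2⟩ := hW' t ht hpos
        obtain ⟨h3, h4, -⟩ := hW t q ht h1
        refine ⟨(q, m), Or.inl ⟨h1, rfl⟩, ?_⟩
        exact ih (size t + m.natAbs) hkt _ _ (by omega) h3 (by rw [h2]; linarith)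
      · refine ⟨(t, m + 1), Or.inr ⟨rfl, ?_, rfl⟩, ?_⟩
        · show m < 0
          linarith
        · exact ih (size t + m.natAbs) hkt _ _ (by omega) ht hm
    have answer : ∀ q, (A.sum integers.neg).black (p, n) q →
        ∃ r : P × ℤ, (A.sum integers.neg).white q r ∧
          WhiteWinsSecond (A.sum integers.neg) r := by
      rintro ⟨t, m⟩ h
      rcases h with ⟨h1, h2⟩ | ⟨h1, h2, h3⟩
      · simp only at h1 h2
        subst h2
        obtain ⟨h3, h4, h5⟩ := hB p t hp h1
        exact reply _ _ (by omega) h3 (by linarith)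
      · simp only at h1 h2 h3
        subst h1 h3
        exact reply _ _ (by omega) hp (by linarith)
    choose! f hf1 hf2 using answer
    exact .intro _ (fun q _ => f q) (fun q h => hf1 q h) (fun q h => hf2 q h)

theorem black_second
    (hW : ∀ p q, good p → A.white p q → good q ∧ size q < size p ∧ F q ≤ F p - 1)
    (hB : ∀ p q, good p → A.black p q → good q ∧ size q < size p ∧ F p + 1 ≤ F q)
    (hB' : ∀ p, good p → F p < 0 → ∃ q, A.black p q ∧ F q = F p + 1) :
    ∀ (k : ℕ) (p : P) (n : ℤ), size p + n.natAbs ≤ k → good p → F p ≤ n →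
      BlackWinsSecond (A.sum integers.neg) (p, n) := by
  intro k
  induction k using Nat.strong_induction_on with
  | _ k ih =>
    intro p n hk hp hn
    have reply : ∀ (t : P) (m : ℤ), size t + m.natAbs < k → good t → F t + 1 ≤ m →
        ∃ r : P × ℤ, (A.sum integers.neg).black (t, m) r ∧
          BlackWinsSecond (A.sum integers.neg) r := by
      intro t m hkt ht hm
      by_cases hneg : F t < 0
      · obtain ⟨q, h1, h2⟩ := hB' t ht hneg
        obtain ⟨h3, h4, -⟩ := hB t q ht h1
        refine ⟨(q, m), Or.inl ⟨h1, rfl⟩, ?_⟩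
        exact ih (size t + m.natAbs) hkt _ _ (by omega) h3 (by rw [h2]; linarith)
      · refine ⟨(t, m - 1), Or.inr ⟨rfl, ?_, rfl⟩, ?_⟩
        · show 0 < m
          linarith
        · exact ih (size t + m.natAbs) hkt _ _ (by omega) ht (by linarith)
    have answer : ∀ q, (A.sum integers.neg).white (p, n) q →
        ∃ r : P × ℤ, (A.sum integers.neg).black q r ∧
          BlackWinsSecond (A.sum integers.neg) r := by
      rintro ⟨t, m⟩ h
      rcases h with ⟨h1, h2⟩ | ⟨h1, h2, h3⟩
      · simp only at h1 h2
        subst h2
        obtain ⟨h3, h4, h5⟩ := hW p t hp h1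
        exact reply _ _ (by omega) h3 (by linarith)
      · simp only at h1 h2 h3
        subst h1 h3
        exact reply _ _ (by omega) hp (by linarith)
    choose! f hf1 hf2 using answer
    exact .intro _ (fun q _ => f q) (fun q h => hf1 q h) (fun q h => hf2 q h)

/-- The value criterion. -/
theorem hasValue_iff
    (hW : ∀ p q, good p → A.white p q → good q ∧ size q < size p ∧ F q ≤ F p - 1)
    (hB : ∀ p q, good p → A.black p q → good q ∧ size q < size p ∧ F p + 1 ≤ F q)
    (hW' : ∀ p, good p → 0 < F p → ∃ q, A.white p q ∧ F q = F p - 1)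
    (hB' : ∀ p, good p → F p < 0 → ∃ q, A.black p q ∧ F q = F p + 1)
    (p : P) (hp : good p) (n : ℤ) : HasValue A p n ↔ n = F p := by
  constructor
  · rintro ⟨h1, h2⟩
    rcases lt_trichotomy n (F p) with h | h | h
    · exfalso
      by_cases hpos : 0 < F p
      · obtain ⟨q, h3, h4⟩ := hW' p hp hpos
        obtain ⟨h5, -, -⟩ := hW p q hp h3
        exact no_both _ (white_second hW hB hW' _ q n le_rfl h5 (by rw [h4]; linarith)) (p, n)
          (Or.inl ⟨h3, rfl⟩) h2
      · exact no_both _ (white_second hW hB hW' _ p (n + 1) le_rfl hp (by linarith)) (p, n)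
          (Or.inr ⟨rfl, by show n < 0; linarith, rfl⟩) h2
    · exact h
    · exfalso
      by_cases hneg : F p < 0
      · obtain ⟨q, h3, h4⟩ := hB' p hp hneg
        obtain ⟨h5, -, -⟩ := hB p q hp h3
        exact no_both' _ (black_second hW hB hB' _ q n le_rfl h5 (by rw [h4]; linarith)) (p, n)
          (Or.inl ⟨h3, rfl⟩) h1
      · exact no_both' _ (black_second hW hB hB' _ p (n - 1) le_rfl hp (by linarith)) (p, n)
          (Or.inr ⟨rfl, by show 0 < n; linarith, rfl⟩) h1
  · rintro rfl
    exact ⟨white_second hW hB hW' _ _ _ le_rfl hp le_rfl, black_second hW hB hB' _ _ _ le_rfl hp le_rfl⟩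

end crit

end Q135.IntGame
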