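import Mathlib

/-! Tree facts and blocked directions for the leaf-removal game (helper135). -/

namespace Q135.LeafTree

open Finset

variable {V : Type*}

/-- In a tree, two neighbours of `u` that are both nearer to `t` coincide. -/
theorem nearer_unique {G : SimpleGraph V} (hG : G.IsTree) {t u a b : V} (ha : G.Adj a u) (hb : G.Adj b u)
    (hat : G.dist t a < G.dist t u) (hbt : G.dist t b < G.dist t u) : a = b := by
  have key : ∀ x : V, G.Adj x u → G.dist t x < G.dist t u →
      ∃ p : G.Walk t x, ∃ h : G.Adj x u, (p.concat h).IsPath := by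
    intro x hx hxt
    obtain ⟨p, hp⟩ := hG.connected.exists_walk_length_eq_dist t x
    refine ⟨p, hx, ?_⟩
    apply SimpleGraph.Walk.isPath_of_length_eq_dist
    rw [SimpleGraph.Walk.length_concat, hp]
    rcases hG.dist_eq_dist_add_one_of_adj t hx with h | h <;> omega
  obtain ⟨p, hp, hpp⟩ := key a ha hat
  obtain ⟨q, hq, hqp⟩ := key b hb hbt
  have := hG.isAcyclic.path_unique ⟨_, hpp⟩ ⟨_, hqp⟩
  have h2 : p.concat hp = q.concat hq := congrArg Subtype.val this
  obtain ⟨h3, -⟩ := SimpleGraph.Walk.concat_inj h2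
  exact h3

theorem farther {G : SimpleGraph V} (hG : G.IsTree) {t u a b : V} (ha : G.Adj a u) (hb : G.Adj b u)
    (hab : a ≠ b) (hat : G.dist t a < G.dist t u) : G.dist t u < G.dist t b := by
  by_contra hcon
  have h1 : G.dist t b < G.dist t u := by
    rcases hG.dist_eq_dist_add_one_of_adj t hb with h | h <;> omega
  exact hab (nearer_unique hG ha hb hat h1)

/-- The edge `x → y` of the induced subgraph on `S` is blocked: some path that starts with it ends
with `p, q, s` where `p, q` have the same colour and `s` has the other one. -/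
inductive Blocked (G : SimpleGraph V) (c : V → Bool) (S : Finset V) : V → V → Prop
  | triple {x y z : V} (hx : x ∈ S) (hy : y ∈ S) (hz : z ∈ S) (hxy : G.Adj x y) (hyz : G.Adj y z)
      (hzx : z ≠ x) (hc : c x = c y) (hc' : c z ≠ c y) : Blocked G c S x y
  | step {x y z : V} (hx : x ∈ S) (hxy : G.Adj x y) (hzx : z ≠ x) (h : Blocked G c S y z) :
      Blocked G c S x y

section basic

variable {G : SimpleGraph V} {c : V → Bool} {S : Finset V}

theorem Blocked.adj {x y : V} (h : Blocked G c S x y) : G.Adj x y := by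
  cases h <;> assumption

theorem Blocked.left {x y : V} (h : Blocked G c S x y) : x ∈ S := by
  cases h <;> assumption

theorem Blocked.right {x y : V} (h : Blocked G c S x y) : y ∈ S := by
  cases h with
  | triple => assumption
  | step _ _ _ h => exact h.left

theorem Blocked.mono {S' : Finset V} (hS : S' ⊆ S) {x y : V} (h : Blocked G c S' x y) :
    Blocked G c S x y := by
  induction h with
  | triple hx hy hz hxy hyz hzx hc hc' => exact .triple (hS hx) (hS hy) (hS hz) hxy hyz hzx hc hc'
  | step hx hxy hzx _ ih => exact .step (hS hx) hxy hzx ih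

theorem Blocked.not {x y : V} (h : Blocked G c S x y) : Blocked G (fun v => !(c v)) S x y := by
  induction h with
  | triple hx hy hz hxy hyz hzx hc hc' => exact .triple hx hy hz hxy hyz hzx (by simpa using hc) (by simpa using hc')
  | step hx hxy hzx _ ih => exact .step hx hxy hzx ih

theorem blocked_not_iff {x y : V} : Blocked G (fun v => !(c v)) S x y ↔ Blocked G c S x y := by
  constructor
  · intro h
    have := h.not
    simpa using this
  · exact Blocked.not

/-- Essential vertices: at most one blocked direction. -/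
def Ess (G : SimpleGraph V) (c : V → Bool) (S : Finset V) (x : V) : Prop :=
  ∀ y z, Blocked G c S x y → Blocked G c S x z → y = z

theorem not_ess {x : V} : ¬ Ess G c S x ↔ ∃ y z, Blocked G c S x y ∧ Blocked G c S x z ∧ y ≠ z := by
  unfold Ess
  push Not
  rfl

theorem Ess.mono {S' : Finset V} (hS : S' ⊆ S) {x : V} (h : Ess G c S x) : Ess G c S' x :=
  fun y z hy hz => h y z (hy.mono hS) (hz.mono hS)

/-- Edges into a non-essential vertex are blocked. -/
theorem blocked_into {x y : V} (hx : ¬ Ess G c S x) (hy : y ∈ S) (hyx : G.Adj y x) :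
    Blocked G c S y x := by
  obtain ⟨a, b, ha, hb, hab⟩ := not_ess.1 hx
  by_cases hay : a = y
  · have hby : b ≠ y := fun h => hab (hay.trans h.symm)
    exact .step hy hyx hby hb
  · exact .step hy hyx hay ha

end basic

/-- A leaf of the position `S`. -/
def IsLeaf (G : SimpleGraph V) (S : Finset V) (v : V) : Prop :=
  v ∈ S ∧ ∀ a ∈ S, ∀ b ∈ S, G.Adj v a → G.Adj v b → a = b

section leaf

variable [DecidableEq V] {G : SimpleGraph V} {c : V → Bool} {S : Finset V} {l : V}

/-- Lost direction when the leaf `l` is removed. -/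
def Lost (G : SimpleGraph V) (c : V → Bool) (S : Finset V) (l x y : V) : Prop :=
  Blocked G c S x y ∧ ¬ Blocked G c (S.erase l) x y

/-- Newly essential vertices when `l` is removed. -/
def Newly (G : SimpleGraph V) (c : V → Bool) (S : Finset V) (l x : V) : Prop :=
  ¬ Ess G c S x ∧ Ess G c (S.erase l) x

theorem leaf_ess (hl : IsLeaf G S l) : Ess G c S l := by
  intro y z hy hz
  exact hl.2 y hy.right z hz.right hy.adj hz.adj

theorem not_blocked_to_leaf (hl : IsLeaf G S l) {q : V} (_hq : q ∈ S) : ¬ Blocked G c S q l := by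
  intro h
  cases h with
  | triple hx hy hz hxy hyz hzx hc hc' => exact hzx (hl.2 _ hz _ hx hyz hxy.symm)
  | step hx hxy hzx h => exact hzx (hl.2 _ h.right _ hx h.adj hxy.symm)

/-- Structure of a lost direction. -/
theorem lost_cases (hl : IsLeaf G S l) {z y : V} (hz : z ≠ l) (h : Lost G c S l z y) :
    (G.Adj y l ∧ c z = c y ∧ c l ≠ c y ∧ y ≠ l ∧ z ∈ S ∧ y ∈ S) ∨
      ∃ u, u ≠ z ∧ Lost G c S l y u ∧ y ≠ l ∧ G.Adj z y := by
  obtain ⟨h1, h2⟩ := h
  have hyl : y ≠ l := by
    rintro rfl
    exact not_blocked_to_leaf hl h1.left h1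
  cases h1 with
  | @triple _ _ w hx hy hw hxy hyz hzx hc hc' =>
    by_cases hwl : w = l
    · subst hwl
      left
      exact ⟨hyz, hc, hc', hyl, hx, hy⟩
    · exfalso
      apply h2
      exact .triple (Finset.mem_erase.2 ⟨hz, hx⟩) (Finset.mem_erase.2 ⟨hyl, hy⟩)
        (Finset.mem_erase.2 ⟨hwl, hw⟩) hxy hyz hzx hc hc'
  | @step _ _ w hx hxy hzx h =>
    right
    refine ⟨w, hzx, ⟨h, ?_⟩, hyl, hxy⟩
    intro h3
    apply h2
    exact .step (Finset.mem_erase.2 ⟨hz, hx⟩) hxy hzx h3

theorem lost_nearer (hG : G.IsTree) (hl : IsLeaf G S l) {z y : V} (hz : z ≠ l) (h : Lost G c S l z y) :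
    G.dist l y < G.dist l z := by
  obtain ⟨h1, h2⟩ := h
  induction h1 with
  | @triple x y w hx hy hw hxy hyz hzx hc hc' =>
    by_cases hwl : w = l
    · subst hwl
      refine farther hG (a := w) (b := x) (u := y) (t := w) hyz.symm hxy hzx ?_
      rw [SimpleGraph.dist_self]
      exact hG.connected.pos_dist_of_ne (fun h => hyz.ne h.symm)
    · exfalso
      have hyl : y ≠ l := by
        rintro rfl
        exact hzx (hl.2 _ hw _ hx hyz hxy.symm)
      exact h2 (.triple (Finset.mem_erase.2 ⟨hz, hx⟩) (Finset.mem_erase.2 ⟨hyl, hy⟩)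
        (Finset.mem_erase.2 ⟨hwl, hw⟩) hxy hyz hzx hc hc')
  | @step x y w hx hxy hzx h ih =>
    have hyl : y ≠ l := by
      rintro rfl
      exact hzx (hl.2 _ h.right _ hx h.adj hxy.symm)
    have h3 : ¬ Blocked G c (S.erase l) y w := fun h4 =>
      h2 (.step (Finset.mem_erase.2 ⟨hz, hx⟩) hxy hzx h4)
    exact farther hG (a := w) (b := x) (u := y) (t := l) h.adj.symm hxy hzx (ih hyl h3)

theorem lost_unique (hG : G.IsTree) (hl : IsLeaf G S l) {z y y' : V} (hz : z ≠ l)
    (h : Lost G c S l z y) (h' : Lost G c S l z y') : y = y' :=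
  nearer_unique hG h.1.adj.symm h'.1.adj.symm (lost_nearer hG hl hz h) (lost_nearer hG hl hz h')

theorem lost_colors (hl : IsLeaf G S l) {z y : V} (hz : z ≠ l) (h : Lost G c S l z y) :
    ¬ (c z = c l ∧ c y = c l) := by
  obtain ⟨h1, h2⟩ := h
  induction h1 with
  | @triple x y w hx hy hw hxy hyz hzx hc hc' =>
    by_cases hwl : w = l
    · subst hwl
      rintro ⟨-, h⟩
      exact hc' h.symm
    · exfalso
      have hyl : y ≠ l := by
        rintro rfl
        exact hzx (hl.2 _ hw _ hx hyz hxy.symm)
      exact h2 (.triple (Finset.mem_erase.2 ⟨hz, hx⟩) (Finset.mem_erase.2 ⟨hyl, hy⟩)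
        (Finset.mem_erase.2 ⟨hwl, hw⟩) hxy hyz hzx hc hc')
  | @step x y w hx hxy hzx h ih =>
    have hyl : y ≠ l := by
      rintro rfl
      exact hzx (hl.2 _ h.right _ hx h.adj hxy.symm)
    have hwl : w ≠ l := by
      rintro rfl
      exact not_blocked_to_leaf hl h.left h
    have h3 : ¬ Blocked G c (S.erase l) y w := fun h4 =>
      h2 (.step (Finset.mem_erase.2 ⟨hz, hx⟩) hxy hzx h4)
    rintro ⟨h5, h6⟩
    have h7 : c w ≠ c l := fun h7 => ih hyl h3 ⟨h6, h7⟩
    exact h2 (.triple (Finset.mem_erase.2 ⟨hz, hx⟩) (Finset.mem_erase.2 ⟨hyl, h.left⟩)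
      (Finset.mem_erase.2 ⟨hwl, h.right⟩) hxy h.adj hzx (h5.trans h6.symm) (by rw [h6]; exact h7))

theorem newly_ne (hl : IsLeaf G S l) {x : V} (h : Newly G c S l x) : x ≠ l := by
  rintro rfl
  exact h.1 (leaf_ess hl)

theorem newly_lost {x : V} (h : Newly G c S l x) : ∃ y, Lost G c S l x y := by
  obtain ⟨a, b, ha, hb, hab⟩ := not_ess.1 h.1
  by_contra hcon
  push Not at hcon
  have h1 : Blocked G c (S.erase l) x a := by
    by_contra h2
    exact hcon a ⟨ha, h2⟩
  have h2 : Blocked G c (S.erase l) x b := by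
    by_contra h2
    exact hcon b ⟨hb, h2⟩
  exact hab (h.2 a b h1 h2)

theorem newly_next (hl : IsLeaf G S l) {z y u : V} (hz : Newly G c S l z) (hzy : Lost G c S l z y)
    (hyu : Lost G c S l y u) (huz : u ≠ z) : Newly G c S l y := by
  have hzl := newly_ne hl hz
  constructor
  · rw [not_ess]
    exact ⟨u, z, hyu.1, blocked_into hz.1 hzy.1.right hzy.1.adj.symm, huz⟩
  · have key : ∀ a, Blocked G c (S.erase l) y a → a = z := by
      intro a ha
      by_contra haz
      exact hzy.2 (.step (Finset.mem_erase.2 ⟨hzl, hzy.1.left⟩) hzy.1.adj haz ha)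
    intro a b ha hb
    rw [key a ha, key b hb]

theorem newly_ends (hl : IsLeaf G S l) {z : V} (hz : Newly G c S l z) :
    ∃ p q, Newly G c S l p ∧ Lost G c S l p q ∧ G.Adj q l ∧ c p = c q ∧ c l ≠ c q ∧ q ≠ l := by
  obtain ⟨y, hzy⟩ := newly_lost hz
  obtain ⟨h1, h2⟩ := hzy
  induction h1 with
  | @triple x y w hx hy hw hxy hyz hzx hc hc' =>
    have hxl := newly_ne hl hz
    have hyl : y ≠ l := by
      rintro rfl
      exact hzx (hl.2 _ hw _ hx hyz hxy.symm)
    by_cases hwl : w = l
    · subst hwl
      exact ⟨x, y, hz, ⟨.triple hx hy hw hxy hyz hzx hc hc', h2⟩, hyz, hc, hc', hyl⟩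
    · exfalso
      exact h2 (.triple (Finset.mem_erase.2 ⟨hxl, hx⟩) (Finset.mem_erase.2 ⟨hyl, hy⟩)
        (Finset.mem_erase.2 ⟨hwl, hw⟩) hxy hyz hzx hc hc')
  | @step x y w hx hxy hzx h ih =>
    have hxl := newly_ne hl hz
    have h3 : ¬ Blocked G c (S.erase l) y w := fun h4 =>
      h2 (.step (Finset.mem_erase.2 ⟨hxl, hx⟩) hxy hzx h4)
    exact ih (newly_next hl hz ⟨.step hx hxy hzx h, h2⟩ ⟨h, h3⟩ hzx) h3

/-- Among the newly essential vertices, those with the colour of the leaf are not the majority. -/
theorem newly_card (hG : G.IsTree) (hl : IsLeaf G S l) [DecidablePred (Newly G c S l)] :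
    (S.filter (fun x => Newly G c S l x ∧ c x = c l)).card ≤
      (S.filter (fun x => Newly G c S l x ∧ c x ≠ c l)).card := by
  classical
  have key : ∀ x, Newly G c S l x → c x = c l →
      ∃ y, Lost G c S l x y ∧ Newly G c S l y ∧ c y ≠ c l := by
    intro x hx hcx
    obtain ⟨y, hy⟩ := newly_lost hx
    have hxl := newly_ne hl hx
    refine ⟨y, hy, ?_, fun h => lost_colors hl hxl hy ⟨hcx, h⟩⟩
    rcases lost_cases hl hxl hy with ⟨-, h1, h2, -⟩ | ⟨u, h1, h2, -⟩
    · exact absurd (hcx.symm.trans h1) h2
    · exact newly_next hl hx hy h2 h1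
  choose! f hf1 hf2 hf3 using key
  refine Finset.card_le_card_of_injOn f ?_ ?_
  · intro x hx
    simp only [Finset.coe_filter, Set.mem_ofPred_eq, Finset.mem_coe, Finset.mem_filter] at hx ⊢
    obtain ⟨h1, h2, h3⟩ := hx
    exact ⟨(hf1 x h2 h3).1.right, hf2 x h2 h3, hf3 x h2 h3⟩
  · intro x hx x' hx' hxx
    simp only [Finset.coe_filter, Set.mem_ofPred_eq] at hx hx'
    obtain ⟨h1, h2, h3⟩ := hx
    obtain ⟨h1', h2', h3'⟩ := hx'
    by_contra hne
    have hl1 := hf1 x h2 h3
    have hl2 := hf1 x' h2' h3'
    rw [← hxx] at hl2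
    have hn := hf2 x h2 h3
    have hxl := newly_ne hl h2
    have hxl' := newly_ne hl h2'
    have hyl := newly_ne hl hn
    rcases lost_cases hl hxl hl1 with ⟨-, h4, h5, -⟩ | ⟨u, h4, h5, -⟩
    · exact h5 (h3.symm.trans h4)
    rcases lost_cases hl hxl' hl2 with ⟨-, h4', h5', -⟩ | ⟨u', h4', h5', -⟩
    · exact h5' (h3'.symm.trans h4')
    have h6 : Blocked G c S (f x) x := blocked_into h2.1 hl1.1.right hl1.1.adj.symm
    have h7 : Blocked G c (S.erase l) (f x) x := by
      by_contra h8
      exact h4 (lost_unique hG hl hyl ⟨h6, h8⟩ h5).symm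
    exact hl2.2 (.step (Finset.mem_erase.2 ⟨hxl', h1'⟩) hl2.1.adj hne h7)

end leaf

/-- Sign of a colour: white `true` counts `1`, black counts `-1`. -/
def sg (b : Bool) : ℤ := if b then 1 else -1

open Classical in
/-- The value formula on the position `S`. -/
noncomputable def F (G : SimpleGraph V) (c : V → Bool) (S : Finset V) : ℤ :=
  ∑ v ∈ S, if Ess G c S v then sg (c v) else 0

theorem F_not {G : SimpleGraph V} {c : V → Bool} {S : Finset V} :
    F G (fun v => !(c v)) S = - F G c S := by
  classical
  unfold F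
  rw [← Finset.sum_neg_distrib]
  refine Finset.sum_congr rfl fun v _ => ?_
  have h1 : Ess G (fun v => !(c v)) S v ↔ Ess G c S v := by
    unfold Ess
    simp only [blocked_not_iff]
  by_cases h : Ess G c S v
  · rw [if_pos h, if_pos (h1.2 h)]
    cases hcv : c v <;> simp [sg, hcv]
  · rw [if_neg h, if_neg (fun h2 => h (h1.1 h2))]
    simp

theorem F_erase [DecidableEq V] {G : SimpleGraph V} {c : V → Bool} {S : Finset V} {l : V}
    (hl : IsLeaf G S l) [DecidablePred (Newly G c S l)] :
    F G c (S.erase l) = F G c S - sg (c l) +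
      (∑ x ∈ S.filter (fun x => Newly G c S l x), sg (c x)) := by
  classical
  unfold F
  have h1 : (∑ v ∈ S, if Ess G c S v then sg (c v) else 0) =
      sg (c l) + ∑ v ∈ S.erase l, if Ess G c S v then sg (c v) else 0 := by
    rw [← Finset.add_sum_erase _ _ hl.1, if_pos (leaf_ess hl)]
  have h2 : (∑ x ∈ S.filter (fun x => Newly G c S l x), sg (c x)) =
      ∑ v ∈ S.erase l, if Newly G c S l v then sg (c v) else 0 := by
    rw [Finset.sum_filter, ← Finset.add_sum_erase _ _ hl.1, if_neg (fun h => newly_ne hl h rfl), zero_add]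
  rw [h1, h2, add_sub_cancel_left, ← Finset.sum_add_distrib]
  refine Finset.sum_congr rfl fun v _ => ?_
  by_cases h3 : Ess G c S v
  · have h4 : Ess G c (S.erase l) v := h3.mono (Finset.erase_subset _ _)
    have h5 : ¬ Newly G c S l v := fun h => h.1 h3
    rw [if_pos h3, if_pos h4, if_neg h5, add_zero]
  · by_cases h4 : Ess G c (S.erase l) v
    · have h5 : Newly G c S l v := ⟨h3, h4⟩
      rw [if_neg h3, if_pos h4, if_pos h5, zero_add]
    · have h5 : ¬ Newly G c S l v := fun h => h4 h.2
      rw [if_neg h3, if_neg h4, if_neg h5, add_zero]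

theorem F_erase_le [DecidableEq V] {G : SimpleGraph V} (hG : G.IsTree) {c : V → Bool} {S : Finset V} {l : V}
    (hl : IsLeaf G S l) (hc : c l = true) : F G c (S.erase l) ≤ F G c S - 1 := by
  classical
  rw [F_erase hl, hc]
  have h1 := newly_card (c := c) hG hl
  have h2 : (∑ x ∈ S.filter (fun x => Newly G c S l x), sg (c x)) =
      ((S.filter (fun x => Newly G c S l x ∧ c x = c l)).card : ℤ) -
      ((S.filter (fun x => Newly G c S l x ∧ c x ≠ c l)).card : ℤ) := by
    rw [← Finset.sum_filter_add_sum_filter_not (S.filter (fun x => Newly G c S l x)) (fun x => c x = c l),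
      Finset.filter_filter, Finset.filter_filter]
    have e1 : (∑ x ∈ S.filter (fun x => Newly G c S l x ∧ c x = c l), sg (c x)) =
        ∑ x ∈ S.filter (fun x => Newly G c S l x ∧ c x = c l), 1 := by
      refine Finset.sum_congr rfl fun x hx => ?_
      rw [(Finset.mem_filter.1 hx).2.2, hc]
      rfl
    have e2 : (∑ x ∈ S.filter (fun x => Newly G c S l x ∧ ¬ c x = c l), sg (c x)) =
        ∑ x ∈ S.filter (fun x => Newly G c S l x ∧ ¬ c x = c l), (-1) := by
      refine Finset.sum_congr rfl fun x hx => ?_
      have := (Finset.mem_filter.1 hx).2.2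
      rw [hc] at this
      have h3 : c x = false := by simpa using this
      rw [h3]
      rfl
    rw [e1, e2]
    simp
    ring
  rw [h2]
  have h3 : sg true = 1 := rfl
  rw [h3]
  have h4 : ((S.filter (fun x => Newly G c S l x ∧ c x = c l)).card : ℤ) ≤
      ((S.filter (fun x => Newly G c S l x ∧ c x ≠ c l)).card : ℤ) := by exact_mod_cast h1
  linarith

theorem F_erase_eq [DecidableEq V] {G : SimpleGraph V} {c : V → Bool} {S : Finset V} {l : V}
    (hl : IsLeaf G S l) (hc : c l = true) (hn : ∀ x, ¬ Newly G c S l x) :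
    F G c (S.erase l) = F G c S - 1 := by
  classical
  rw [F_erase hl, hc, Finset.filter_false_of_mem (fun x _ => hn x)]
  simp [sg]

/-- `S` is closed under paths of the tree. -/
def Convex (G : SimpleGraph V) (S : Finset V) : Prop :=
  ∀ x ∈ S, ∀ v ∈ S, ∀ u, G.Adj u v → G.dist x u < G.dist x v → u ∈ S

theorem Convex.erase [DecidableEq V] {G : SimpleGraph V} (hG : G.IsTree) {S : Finset V} (hS : Convex G S) {l : V}
    (hl : IsLeaf G S l) : Convex G (S.erase l) := by
  intro x hx v hv u huv hd
  have hx' := Finset.mem_of_mem_erase hx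
  have hv' := Finset.mem_of_mem_erase hv
  have hu := hS x hx' v hv' u huv hd
  refine Finset.mem_erase.2 ⟨?_, hu⟩
  rintro rfl
  have hxl : x ≠ u := (Finset.mem_erase.1 hx).1
  obtain ⟨w, hw1, hw2⟩ : ∃ w, G.Adj w u ∧ G.dist x w < G.dist x u := by
    obtain ⟨p, hp⟩ := hG.connected.exists_walk_length_eq_dist u x
    cases p with
    | nil => exact absurd rfl hxl
    | @cons _ w _ h p =>
      refine ⟨w, h.symm, ?_⟩
      rw [SimpleGraph.dist_comm, SimpleGraph.dist_comm (u := x) (v := u), ← hp, SimpleGraph.Walk.length_cons]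
      have := SimpleGraph.dist_le p
      omega
  have hw := hS x hx' u hu w hw1 hw2
  have := hl.2 w hw v hv' hw1.symm huv
  subst this
  omega

theorem exists_toward {G : SimpleGraph V} (hG : G.IsTree) {x v : V} (h : v ≠ x) :
    ∃ u, G.Adj u v ∧ G.dist x u < G.dist x v := by
  obtain ⟨p, hp⟩ := hG.connected.exists_walk_length_eq_dist v x
  cases p with
  | nil => exact absurd rfl h
  | @cons _ w _ h p =>
    refine ⟨w, h.symm, ?_⟩
    rw [SimpleGraph.dist_comm, SimpleGraph.dist_comm (u := x) (v := v), ← hp, SimpleGraph.Walk.length_cons]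
    have := SimpleGraph.dist_le p
    omega

section branch

variable [Fintype V]

/-- The number of vertices in the branch of the tree behind the directed edge `v → u`. -/
noncomputable def bsize (G : SimpleGraph V) (v u : V) : ℕ :=
  (Finset.univ.filter (fun t => G.dist t u < G.dist t v)).card

theorem bsize_lt {G : SimpleGraph V} (hG : G.IsTree) {v u w : V} (hvu : G.Adj v u) (huw : G.Adj u w)
    (hwv : w ≠ v) : bsize G u w < bsize G v u := by
  unfold bsize
  apply Finset.card_lt_card
  rw [Finset.ssubset_iff_of_subset]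
  · refine ⟨u, ?_, ?_⟩
    · simp only [Finset.mem_filter, Finset.mem_univ, true_and, SimpleGraph.dist_self]
      exact hG.connected.pos_dist_of_ne hvu.ne'
    · simp
  · intro t
    simp only [Finset.mem_filter, Finset.mem_univ, true_and]
    intro ht
    exact farther hG huw.symm hvu hwv ht

end branch

/-- A parent function such that blocked directions of essential vertices point to the parent. -/
theorem exists_par [Fintype V] {G : SimpleGraph V} (hG : G.IsTree) {c : V → Bool} {S : Finset V}
    (hS : Convex G S) :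
    ∃ par : V → V, (∀ v ∈ S, Ess G c S v → ∀ u, Blocked G c S v u → u = par v) ∧
      (∀ v ∈ S, Ess G c S v → ∀ u ∈ S, G.Adj u v → u ≠ par v → par u = v) := by
  classical
  by_cases hK : ∃ x ∈ S, ¬ Ess G c S x
  · obtain ⟨x, hx, hxe⟩ := hK
    have hb : ∀ n, ∀ v ∈ S, G.dist x v = n → v ≠ x → ∀ u, G.Adj u v → G.dist x u < G.dist x v →
        Blocked G c S v u := by
      intro n
      induction n using Nat.strong_induction_on with
      | _ n ih =>
        intro v hv hn hvx u huv hd
        have hu := hS x hx v hv u huv hd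
        by_cases hux : u = x
        · subst hux
          exact blocked_into hxe hv huv.symm
        · obtain ⟨w, hw1, hw2⟩ := exists_toward hG hux
          have hbw := ih _ (hn ▸ hd) u hu rfl hux w hw1 hw2
          refine .step hv huv.symm ?_ hbw
          rintro rfl
          omega
    have hb' : ∀ v ∈ S, Ess G c S v → ∃ u, Blocked G c S v u := by
      intro v hv hve
      have hvx : v ≠ x := by
        rintro rfl
        exact hxe hve
      obtain ⟨u, hu1, hu2⟩ := exists_toward hG hvx
      exact ⟨u, hb _ v hv rfl hvx u hu1 hu2⟩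
    refine ⟨fun v => if h : ∃ u, Blocked G c S v u then h.choose else v, ?_, ?_⟩
    · intro v hv hve u hu
      have h : ∃ u, Blocked G c S v u := ⟨u, hu⟩
      simp only [dif_pos h]
      exact hve u _ hu h.choose_spec
    · intro v hv hve u hu huv hup
      have h := hb' v hv hve
      simp only [dif_pos h] at hup
      have h1 := h.choose_spec
      have h2 : Blocked G c S u v := .step hu huv (fun h3 => hup h3.symm) h1
      have hue : Ess G c S u := by
        by_contra hue
        exact hup (hve u _ (blocked_into hue hv huv.symm) h1)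
      have h' : ∃ w, Blocked G c S u w := ⟨v, h2⟩
      simp only [dif_pos h']
      exact hue _ _ h'.choose_spec h2
  · push Not at hK
    by_cases hB : ∃ x y, Blocked G c S x y
    · -- choose a blocked edge with the smallest branch
      obtain ⟨x, y, hxy, hmin⟩ : ∃ x y, Blocked G c S x y ∧ ∀ x' y', Blocked G c S x' y' → bsize G x y ≤ bsize G x' y' := by
        have hne : ∃ n, ∃ x y, Blocked G c S x y ∧ bsize G x y = n := by
          obtain ⟨x, y, h⟩ := hB
          exact ⟨_, x, y, h, rfl⟩
        obtain ⟨x, y, h1, h2⟩ := Nat.find_spec hne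
        refine ⟨x, y, h1, fun x' y' h' => ?_⟩
        rw [h2]
        exact Nat.find_min' hne ⟨x', y', h', rfl⟩
      have htow : ∀ v, v ≠ x → ∃ u, G.Adj u v ∧ G.dist x u < G.dist x v := fun v hv => exists_toward hG hv
      choose! tow htow1 htow2 using htow
      have hx := hxy.left
      have main : ∀ n, ∀ v ∈ S, G.dist x v = n → v ≠ x → ∀ u, Blocked G c S v u → u = tow v := by
        intro n
        induction n using Nat.strong_induction_on with
        | _ n ih =>
          intro v hv hn hvx u hvu
          by_contra hut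
          have hv1 := htow1 v hvx
          have hv2 := htow2 v hvx
          have hv3 : tow v ∈ S := hS x hx v hv _ hv1 hv2
          have hb : Blocked G c S (tow v) v := .step hv3 hv1 hut hvu
          by_cases h1 : tow v = x
          · rw [h1] at hb
            have h2 : v = y := hK x hx v y hb hxy
            subst h2
            have h3 := bsize_lt hG hxy.adj hvu.adj (w := u) (by rw [← h1]; exact hut)
            have h4 := hmin _ _ hvu
            omega
          · have h2 := ih _ (hn ▸ hv2) (tow v) hv3 rfl h1 v hb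
            have h3 := htow2 (tow v) h1
            rw [← h2] at h3
            omega
      refine ⟨fun v => if v = x then y else tow v, ?_, ?_⟩
      · intro v hv _ u hu
        by_cases hvx : v = x
        · simp only [hvx, if_true]
          subst hvx
          exact hK v hx u y hu hxy
        · simp only [hvx, if_false]
          exact main _ v hv rfl hvx u hu
      · intro v hv _ u hu huv hup
        by_cases hvx : v = x
        · simp only [hvx, if_true] at hup
          subst hvx
          have hux : u ≠ v := huv.ne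
          simp only [hux, if_false]
          refine nearer_unique hG (htow1 u hux) huv.symm (htow2 u hux) ?_
          rw [SimpleGraph.dist_self]
          exact hG.connected.pos_dist_of_ne hux.symm
        · simp only [hvx, if_false] at hup
          have h1 := farther hG (htow1 v hvx) huv (fun h => hup h.symm) (htow2 v hvx)
          have hux : u ≠ x := by
            rintro rfl
            simp at h1
          simp only [hux, if_false]
          exact nearer_unique hG (htow1 u hux) huv.symm (htow2 u hux) h1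
    · push Not at hB
      by_cases hne : S.Nonempty
      · obtain ⟨x, hx⟩ := hne
        have htow : ∀ v, v ≠ x → ∃ u, G.Adj u v ∧ G.dist x u < G.dist x v := fun v hv => exists_toward hG hv
        choose! tow htow1 htow2 using htow
        refine ⟨fun v => if v = x then x else tow v, fun v _ _ u hu => absurd hu (hB v u), ?_⟩
        intro v hv _ u hu huv hup
        by_cases hvx : v = x
        · simp only [hvx, if_true] at hup
          subst hvx
          have hux : u ≠ v := huv.ne
          simp only [hux, if_false]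
          refine nearer_unique hG (htow1 u hux) huv.symm (htow2 u hux) ?_
          rw [SimpleGraph.dist_self]
          exact hG.connected.pos_dist_of_ne hux.symm
        · simp only [hvx, if_false] at hup
          have h1 := farther hG (htow1 v hvx) huv (fun h => hup h.symm) (htow2 v hvx)
          have hux : u ≠ x := by
            rintro rfl
            simp at h1
          simp only [hux, if_false]
          exact nearer_unique hG (htow1 u hux) huv.symm (htow2 u hux) h1
      · exact ⟨id, fun v hv => absurd ⟨v, hv⟩ hne, fun v hv => absurd ⟨v, hv⟩ hne⟩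

/-- Children of white essential vertices are black, if every white leaf has newly essential vertices. -/
theorem child_black [Fintype V] [DecidableEq V] {G : SimpleGraph V} (hG : G.IsTree) {c : V → Bool} {S : Finset V}
    (hyp : ∀ l, IsLeaf G S l → c l = true → ∃ x, Newly G c S l x)
    {par : V → V} (h1 : ∀ v ∈ S, Ess G c S v → ∀ u, Blocked G c S v u → u = par v)
    (h2 : ∀ v ∈ S, Ess G c S v → ∀ u ∈ S, G.Adj u v → u ≠ par v → par u = v) :
    ∀ n, ∀ v ∈ S, ∀ u ∈ S, bsize G v u = n → Ess G c S v → c v = true → G.Adj u v → u ≠ par v →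
      c u = false := by
  intro n
  induction n using Nat.strong_induction_on with
  | _ n ih =>
    intro v hv u hu hn hve hcv huv hup
    by_contra hcu
    have hcu : c u = true := by simpa using hcu
    have hue : Ess G c S u := by
      by_contra hue
      exact hup (h1 v hv hve u (blocked_into hue hv huv.symm))
    have hpu := h2 v hv hve u hu huv hup
    by_cases hlu : IsLeaf G S u
    · obtain ⟨x, hx⟩ := hyp u hlu hcu
      obtain ⟨p, q, hp, hpq, hqu, hc1, hc2, -⟩ := newly_ends hlu hx
      have hqv : q = v := hlu.2 q hpq.1.right v hv hqu.symm huv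
      subst hqv
      rw [hcu, hcv] at hc2
      exact hc2 rfl
    · have : ∃ w ∈ S, G.Adj u w ∧ w ≠ v := by
        by_contra hcon
        push Not at hcon
        apply hlu
        refine ⟨hu, fun a ha b hb hua hub => ?_⟩
        rw [hcon a ha hua, hcon b hb hub]
      obtain ⟨w, hw, huw, hwv⟩ := this
      have hcw : c w = true := by
        by_contra hcw
        have hcw : c w = false := by simpa using hcw
        refine hup (h1 v hv hve u (.triple hv hu hw huv.symm huw hwv (by rw [hcu, hcv]) ?_))
        rw [hcw, hcu]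
        simp
      have h3 := ih _ (hn ▸ bsize_lt hG huv.symm huw hwv) u hu w hw rfl hue hcu huw.symm
        (by rw [hpu]; exact hwv)
      rw [hcw] at h3
      exact absurd h3 (by simp)

theorem F_nonpos [Fintype V] [DecidableEq V] {G : SimpleGraph V} (hG : G.IsTree) {c : V → Bool} {S : Finset V}
    (hS : Convex G S)
    (hyp : ∀ l, IsLeaf G S l → c l = true → ∃ x, Newly G c S l x) : F G c S ≤ 0 := by
  classical
  obtain ⟨par, h1, h2⟩ := exists_par (c := c) hG hS
  have hcb := child_black hG hyp h1 h2
  -- facts on white leaves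
  have hleaf : ∀ l, IsLeaf G S l → c l = true → ∃ q, q ∈ S ∧ G.Adj q l ∧ c q = false ∧ Ess G c S q ∧
      ¬ Ess G c S (par q) ∧ ∀ u ∈ S, G.Adj u q → u ≠ par q → c u = true → u = l := by
    intro l hl hcl
    obtain ⟨x, hx⟩ := hyp l hl hcl
    obtain ⟨p, q, hp, hpq, hql, hc1, hc2, hqn⟩ := newly_ends hl hx
    have hpl := newly_ne hl hp
    have hcq : c q = false := by
      cases h : c q with
      | true => rw [hcl, h] at hc2; exact absurd rfl hc2
      | false => rfl
    have hqS := hpq.1.right
    have hqe : Ess G c S q := by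
      by_contra hqe
      obtain ⟨a, b, ha, hb, hab⟩ := not_ess.1 hqe
      obtain ⟨d, hd, hdp⟩ : ∃ d, Blocked G c S q d ∧ d ≠ p := by
        by_cases hap : a = p
        · exact ⟨b, hb, fun h => hab (hap.trans h.symm)⟩
        · exact ⟨a, ha, hap⟩
      have hdl : d ≠ l := by
        rintro rfl
        exact not_blocked_to_leaf hl hqS hd
      have hd' : Blocked G c (S.erase l) q d := by
        by_contra h3
        have h4 := lost_nearer hG hl hqn ⟨hd, h3⟩
        have h5 : G.dist l q = 1 := SimpleGraph.dist_eq_one_iff_adj.2 hql.symm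
        have h6 : G.dist l d = 0 := by omega
        exact hdl ((hG.connected.dist_eq_zero_iff).1 h6).symm
      exact hpq.2 (.step (Finset.mem_erase.2 ⟨hpl, hpq.1.left⟩) hpq.1.adj hdp hd')
    have hparq : par q = p := (h1 q hqS hqe p (blocked_into hp.1 hqS hpq.1.adj.symm)).symm
    refine ⟨q, hqS, hql, hcq, hqe, by rw [hparq]; exact hp.1, ?_⟩
    intro u hu huq hup hcu
    by_contra hul
    rw [hparq] at hup
    refine hpq.2 (.triple (Finset.mem_erase.2 ⟨hpl, hpq.1.left⟩) (Finset.mem_erase.2 ⟨hqn, hqS⟩)
      (Finset.mem_erase.2 ⟨hul, hu⟩) hpq.1.adj huq.symm hup hc1 ?_)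
    rw [hcu, hcq]
    simp
  have hnl : ∀ v ∈ S, Ess G c S v → c v = true → ¬ IsLeaf G S v → ∃ u ∈ S, G.Adj u v ∧ c u = false ∧
      Ess G c S u ∧ par u = v := by
    intro v hv hve hcv hvl
    have : ∃ u ∈ S, G.Adj v u ∧ u ≠ par v := by
      by_contra hcon
      push Not at hcon
      exact hvl ⟨hv, fun a ha b hb hva hvb => by rw [hcon a ha hva, hcon b hb hvb]⟩
    obtain ⟨u, hu, hvu, hup⟩ := this
    refine ⟨u, hu, hvu.symm, hcb _ v hv u hu rfl hve hcv hvu.symm hup, ?_, h2 v hv hve u hu hvu.symm hup⟩
    by_contra hue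
    exact hup (h1 v hv hve u (blocked_into hue hv hvu))
  -- the injection
  have hf : ∀ v, v ∈ S ∧ Ess G c S v ∧ c v = true → ∃ u, (u ∈ S ∧ c u = false ∧ Ess G c S u) ∧
      ((IsLeaf G S v ∧ ¬ Ess G c S (par u) ∧ G.Adj u v ∧ ∀ w ∈ S, G.Adj w u → w ≠ par u → c w = true → w = v) ∨
        (¬ IsLeaf G S v ∧ par u = v)) := by
    rintro v ⟨hv, hve, hcv⟩
    by_cases hvl : IsLeaf G S v
    · obtain ⟨q, a1, a2, a3, a4, a5, a6⟩ := hleaf v hvl hcv
      exact ⟨q, ⟨a1, a3, a4⟩, Or.inl ⟨hvl, a5, a2, a6⟩⟩
    · obtain ⟨u, a1, a2, a3, a4, a5⟩ := hnl v hv hve hcv hvl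
      exact ⟨u, ⟨a1, a3, a4⟩, Or.inr ⟨hvl, a5⟩⟩
  choose! f hf1 hf2 using hf
  have hcard : (S.filter (fun v => Ess G c S v ∧ c v = true)).card ≤
      (S.filter (fun v => Ess G c S v ∧ c v = false)).card := by
    refine Finset.card_le_card_of_injOn f ?_ ?_
    · intro v hv
      simp only [Finset.coe_filter, Set.mem_ofPred_eq] at hv ⊢
      have := hf1 v ⟨hv.1, hv.2.1, hv.2.2⟩
      exact ⟨this.1, this.2.2, this.2.1⟩
    · intro v hv w hw hvw
      simp only [Finset.coe_filter, Set.mem_ofPred_eq] at hv hw
      have b1 := hf2 v ⟨hv.1, hv.2.1, hv.2.2⟩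
      have b2 := hf2 w ⟨hw.1, hw.2.1, hw.2.2⟩
      rw [← hvw] at b2
      rcases b1 with ⟨b3, b4, b5, b6⟩ | ⟨b3, b4⟩
      · rcases b2 with ⟨d3, d4, d5, d6⟩ | ⟨d3, d4⟩
        · refine (b6 w hw.1 d5.symm ?_ hw.2.2).symm
          rintro rfl
          exact b4 hw.2.1
        · rw [d4] at b4
          exact absurd hw.2.1 b4
      · rcases b2 with ⟨d3, d4, d5, d6⟩ | ⟨d3, d4⟩
        · rw [b4] at d4
          exact absurd hv.2.1 d4
        · exact b4.symm.trans d4
  unfold F
  have e : (∑ v ∈ S, if Ess G c S v then sg (c v) else 0) =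
      ((S.filter (fun v => Ess G c S v ∧ c v = true)).card : ℤ) -
      ((S.filter (fun v => Ess G c S v ∧ c v = false)).card : ℤ) := by
    rw [Finset.card_filter, Finset.card_filter]
    push_cast
    rw [← Finset.sum_sub_distrib]
    refine Finset.sum_congr rfl fun v _ => ?_
    by_cases he : Ess G c S v <;> cases hcv : c v <;> simp [he, sg]
  rw [e]
  have : ((S.filter (fun v => Ess G c S v ∧ c v = true)).card : ℤ) ≤
      ((S.filter (fun v => Ess G c S v ∧ c v = false)).card : ℤ) := by exact_mod_cast hcard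
  linarith

/-- If the formula is positive, some white leaf can be removed at the cost of exactly one. -/
theorem exists_good_leaf [Fintype V] [DecidableEq V] {G : SimpleGraph V} (hG : G.IsTree) {c : V → Bool}
    {S : Finset V} (hS : Convex G S) (hpos : 0 < F G c S) :
    ∃ l, IsLeaf G S l ∧ c l = true ∧ F G c (S.erase l) = F G c S - 1 := by
  by_contra hcon
  push Not at hcon
  have := F_nonpos (c := c) hG hS (fun l hl hcl => by
    by_contra h
    push Not at h
    exact hcon l hl hcl (F_erase_eq hl hcl h))
  omega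

end Q135.LeafTree
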