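import Pool.Agent.Q61.MH.Stm

/-!
# Project MH (MP_499f6d_pr), job NUM2: numerical lower bounds for `g j r`
-/

set_option autoImplicit false

open Real

noncomputable section

namespace Pool.Agent.Q135.MH

open Pool.Agent.Q61.MH

theorem key (k m : ℕ) (hk : 1 ≤ k)
    (h : 1012 * (2 * m) ^ m * (∑ i ∈ Finset.range k, (i + 1) ^ m) ≤
      1000 * (m + 1) ^ m * (2 * k - 1) ^ m) :
    1.012 * base (m : ℝ) ≤ g k (m : ℝ) := by
  have hS : 0 < ∑ i ∈ Finset.range k, ((i : ℝ) + 1) ^ m := by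
    apply Finset.sum_pos
    · intro i _
      positivity
    · exact ⟨0, Finset.mem_range.2 (by omega)⟩
  have hc : ((2 * k - 1 : ℕ) : ℝ) = 2 * (k : ℝ) - 1 := by
    rw [Nat.cast_sub (by omega)]
    push_cast
    ring
  have h2 : (1012 : ℝ) * (2 * m) ^ m * (∑ i ∈ Finset.range k, ((i : ℝ) + 1) ^ m) ≤
      1000 * ((m : ℝ) + 1) ^ m * (2 * (k : ℝ) - 1) ^ m := by
    rw [← hc]
    exact_mod_cast h
  unfold base g S
  simp only [Real.rpow_natCast]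
  rw [div_pow, le_div_iff₀ hS, ← mul_div_assoc, div_mul_eq_mul_div, div_le_iff₀ (by positivity)]
  linarith

theorem dec : ∀ n < 30, 3 ≤ n →
    (1012 * (2 * n) ^ n * (∑ i ∈ Finset.range (n + 1), (i + 1) ^ n) ≤
      1000 * (n + 1) ^ n * (2 * (n + 1) - 1) ^ n) ∧
    (1012 * (2 * (n + 1)) ^ (n + 1) * (∑ i ∈ Finset.range (n + 1), (i + 1) ^ (n + 1)) ≤
      1000 * (n + 1 + 1) ^ (n + 1) * (2 * (n + 1) - 1) ^ (n + 1)) := by
  decide +kernel

theorem low (x y : ℝ) (hx : 0 ≤ x) (h : y ^ 10 ≤ x ^ 21) : y ≤ x ^ ((21 : ℝ) / 10) := by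
  have h1 : (x ^ ((21 : ℝ) / 10)) ^ 10 = x ^ 21 := by
    rw [← Real.rpow_natCast, ← Real.rpow_mul hx, ← Real.rpow_natCast]
    norm_num
  exact le_of_pow_le_pow_left₀ (n := 10) (by norm_num) (Real.rpow_nonneg hx _)
    (by rw [h1]; exact h)

theorem upp (x y : ℝ) (hx : 0 ≤ x) (hy : 0 ≤ y) (h : x ^ 21 ≤ y ^ 10) : x ^ ((21 : ℝ) / 10) ≤ y := by
  have h1 : (x ^ ((21 : ℝ) / 10)) ^ 10 = x ^ 21 := by
    rw [← Real.rpow_natCast, ← Real.rpow_mul hx, ← Real.rpow_natCast]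
    norm_num
  exact le_of_pow_le_pow_left₀ (n := 10) (by norm_num) hy (by rw [h1]; exact h)

theorem num2 : S_num2 := by
  refine ⟨?_, ?_, ?_⟩
  · have e1 : base (21 / 10) = (42 / 31 : ℝ) ^ ((21 : ℝ) / 10) := by
      unfold base
      norm_num
    have e2 : g 3 (21 / 10) = (5 : ℝ) ^ ((21 : ℝ) / 10) /
        (1 + 2 ^ ((21 : ℝ) / 10) + 3 ^ ((21 : ℝ) / 10)) := by
      unfold g S
      rw [Finset.sum_range_succ, Finset.sum_range_succ, Finset.sum_range_succ, Finset.sum_range_zero]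
      norm_num
    have h5 : (5 : ℝ) ^ ((21 : ℝ) / 10) =
        (155 / 42 : ℝ) ^ ((21 : ℝ) / 10) * (42 / 31 : ℝ) ^ ((21 : ℝ) / 10) := by
      rw [← Real.mul_rpow (by norm_num) (by norm_num)]
      norm_num
    have h2 : (2 : ℝ) ^ ((21 : ℝ) / 10) ≤ 4.28713 := upp _ _ (by norm_num) (by norm_num) (by norm_num)
    have h3 : (3 : ℝ) ^ ((21 : ℝ) / 10) ≤ 10.0452 := upp _ _ (by norm_num) (by norm_num) (by norm_num)
    have h1 : (15.48 : ℝ) ≤ (155 / 42 : ℝ) ^ ((21 : ℝ) / 10) := low _ _ (by norm_num) (by norm_num)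
    have p2 : 0 < (2 : ℝ) ^ ((21 : ℝ) / 10) := Real.rpow_pos_of_pos (by norm_num) _
    have p3 : 0 < (3 : ℝ) ^ ((21 : ℝ) / 10) := Real.rpow_pos_of_pos (by norm_num) _
    have pb : 0 < (42 / 31 : ℝ) ^ ((21 : ℝ) / 10) := Real.rpow_pos_of_pos (by norm_num) _
    rw [e1, e2, h5, le_div_iff₀ (by linarith)]
    have h4 : 1.009 * (1 + (2 : ℝ) ^ ((21 : ℝ) / 10) + 3 ^ ((21 : ℝ) / 10)) ≤
        (155 / 42 : ℝ) ^ ((21 : ℝ) / 10) := by
      norm_num at h1 h2 h3 ⊢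
      linarith
    calc 1.009 * (42 / 31 : ℝ) ^ ((21 : ℝ) / 10) *
          (1 + 2 ^ ((21 : ℝ) / 10) + 3 ^ ((21 : ℝ) / 10))
        = (1.009 * (1 + (2 : ℝ) ^ ((21 : ℝ) / 10) + 3 ^ ((21 : ℝ) / 10))) *
          (42 / 31 : ℝ) ^ ((21 : ℝ) / 10) := by ring
      _ ≤ (155 / 42 : ℝ) ^ ((21 : ℝ) / 10) * (42 / 31 : ℝ) ^ ((21 : ℝ) / 10) :=
        mul_le_mul_of_nonneg_right h4 pb.le
  · have h := key 3 3 (by norm_num) (by decide)
    have hb : 0 ≤ base (3 : ℝ) := by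
      unfold base
      positivity
    have h' : 1.012 * base (3 : ℝ) ≤ g 3 (3 : ℝ) := by exact_mod_cast h
    linarith
  · intro n h3 h29
    have h := dec n (by omega) h3
    refine ⟨key (n + 1) n (by omega) h.1, ?_⟩
    have := key (n + 1) (n + 1) (by omega) h.2
    rwa [show (((n + 1 : ℕ) : ℝ)) = (n : ℝ) + 1 by push_cast; ring] at this

end Pool.Agent.Q135.MH
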