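import Mathlib

/-! Combinatorics of the min-max-removal game on forest posets (helper135). -/

namespace Q135.MinMax

open Finset

variable {α : Type*} [PartialOrder α]

/-- Every element covers at most one element. -/
def Forest (α : Type*) [PartialOrder α] : Prop := ∀ x y z : α, x ⋖ z → y ⋖ z → x = y

/-- `x` lies below the bottom of a blocking triple whose top is in `S`. -/
def UB (c : α → Bool) (S : Finset α) (x : α) : Prop :=
  ∃ p q s, x ≤ p ∧ p ⋖ q ∧ q ⋖ s ∧ s ∈ S ∧ c p = c q ∧ c s ≠ c q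

theorem UB.anti {c : α → Bool} {S : Finset α} {x y : α} (hxy : x ≤ y) (h : UB c S y) : UB c S x := by
  obtain ⟨p, q, s, h1, h2⟩ := h
  exact ⟨p, q, s, hxy.trans h1, h2⟩

theorem UB.mono {c : α → Bool} {S S' : Finset α} (hS : S' ⊆ S) {x : α} (h : UB c S' x) : UB c S x := by
  obtain ⟨p, q, s, h1, h2, h3, h4, h5⟩ := h
  exact ⟨p, q, s, h1, h2, h3, hS h4, h5⟩

theorem UB.exists_lt {c : α → Bool} {S : Finset α} {x : α} (h : UB c S x) : ∃ s ∈ S, x < s := by
  obtain ⟨p, q, s, h1, h2, h3, h4, -⟩ := h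
  exact ⟨s, h4, h1.trans_lt (h2.lt.trans h3.lt)⟩

theorem ub_not_iff {c : α → Bool} {S : Finset α} {x : α} : UB (fun v => !(c v)) S x ↔ UB c S x := by
  unfold UB
  simp

theorem chain_below [Finite α] (hF : Forest α) : ∀ z a b : α, a ≤ z → b ≤ z → a ≤ b ∨ b ≤ a := by
  intro z
  induction z using (wellFounded_lt (α := α)).induction with
  | _ z ih =>
    intro a b ha hb
    rcases ha.eq_or_lt with rfl | ha'
    · exact Or.inr hb
    rcases hb.eq_or_lt with rfl | hb'
    · exact Or.inl ha
    obtain ⟨z1, h1, h2⟩ := exists_le_covBy_of_lt ha'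
    obtain ⟨z2, h3, h4⟩ := exists_le_covBy_of_lt hb'
    have : z1 = z2 := hF _ _ _ h2 h4
    subst this
    exact ih z1 h2.lt a b h1 h3

theorem cover_unique [Finite α] (hF : Forest α) {x y y' z : α} (h1 : x ⋖ y) (h2 : x ⋖ y') (h3 : y ≤ z)
    (h4 : y' ≤ z) : y = y' := by
  rcases chain_below hF z y y' h3 h4 with h | h
  · rcases h.eq_or_lt with h | h
    · exact h
    · exact absurd h (fun h => h2.2 h1.lt h)
  · rcases h.eq_or_lt with h | h
    · exact h.symm
    · exact absurd h (fun h => h1.2 h2.lt h)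

/-- The clamped step. -/
def f (b : Bool) (s : ℤ) : ℤ := if b then max (s + 1) 0 else min (s - 1) 0

theorem f_mono (b : Bool) {s t : ℤ} (h : s ≤ t) : f b s ≤ f b t := by
  cases b <;> simp only [f] <;> simp <;> omega

theorem f_lip (b : Bool) {s t : ℤ} (h : t ≤ 0) : f b s + t ≤ f b (s + t) := by
  cases b
  · simp only [f, Bool.false_eq_true, if_false]
    rcases min_cases (s - 1) 0 with h1 | h1 <;> rcases min_cases (s + t - 1) 0 with h2 | h2 <;> omega
  · simp only [f, if_true]
    rcases max_cases (s + 1) 0 with h1 | h1 <;> rcases max_cases (s + t + 1) 0 with h2 | h2 <;> omega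

theorem f_not (b : Bool) (s : ℤ) : f (!b) (-s) = - f b s := by
  cases b
  · simp only [f, Bool.not_false, if_true, Bool.false_eq_true, if_false]
    rcases min_cases (s - 1) 0 with h1 | h1 <;> rcases max_cases (-s + 1) 0 with h2 | h2 <;> omega
  · simp only [f, Bool.not_true, Bool.false_eq_true, if_false, if_true]
    rcases max_cases (s + 1) 0 with h1 | h1 <;> rcases min_cases (-s - 1) 0 with h2 | h2 <;> omega

section rec

variable [Fintype α]

open Classical in
/-- The clamped sums over the blocked part of the position `S`. -/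
noncomputable def m (c : α → Bool) (S : Finset α) : α → ℤ :=
  WellFounded.fix (wellFounded_gt : WellFounded ((· > ·) : α → α → Prop)) (fun x ih =>
    if x ∈ S ∧ UB c S x then
      f (c x) (∑ y ∈ (univ.filter (fun y => x ⋖ y)).attach, ih y.1 ((Finset.mem_filter.1 y.2).2.lt))
    else 0)

open Classical in
theorem m_eq (c : α → Bool) (S : Finset α) (x : α) :
    m c S x = if x ∈ S ∧ UB c S x then f (c x) (∑ y ∈ univ.filter (fun y => x ⋖ y), m c S y) else 0 := by
  rw [m, WellFounded.fix_eq]
  by_cases h : x ∈ S ∧ UB c S x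
  · rw [if_pos h, if_pos h]
    congr 1
    exact Finset.sum_attach (univ.filter (fun y => x ⋖ y)) (fun y => m c S y)
  · rw [if_neg h, if_neg h]

theorem m_zero {c : α → Bool} {S : Finset α} {x : α} (h : ¬ (x ∈ S ∧ UB c S x)) : m c S x = 0 := by
  rw [m_eq, if_neg h]

theorem m_congr {c : α → Bool} {S S' : Finset α} : ∀ x : α,
    (∀ y, x ≤ y → ((y ∈ S ∧ UB c S y) ↔ (y ∈ S' ∧ UB c S' y))) → m c S x = m c S' x := by
  classical
  intro x
  induction x using (wellFounded_gt (α := α)).induction with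
  | _ x ih =>
    intro h
    rw [m_eq c S x, m_eq c S' x]
    have h1 : (∑ y ∈ univ.filter (fun y => x ⋖ y), m c S y) = ∑ y ∈ univ.filter (fun y => x ⋖ y), m c S' y := by
      refine Finset.sum_congr rfl fun y hy => ?_
      have hxy := (Finset.mem_filter.1 hy).2
      exact ih y hxy.lt (fun z hz => h z (hxy.le.trans hz))
    rw [h1]
    by_cases h2 : x ∈ S ∧ UB c S x
    · rw [if_pos h2, if_pos ((h x le_rfl).1 h2)]
    · rw [if_neg h2, if_neg (fun h3 => h2 ((h x le_rfl).2 h3))]

theorem m_not {c : α → Bool} {S : Finset α} : ∀ x : α, m (fun v => !(c v)) S x = - m c S x := by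
  classical
  intro x
  induction x using (wellFounded_gt (α := α)).induction with
  | _ x ih =>
    rw [m_eq, m_eq c S x]
    by_cases h : x ∈ S ∧ UB c S x
    · rw [if_pos h, if_pos ⟨h.1, ub_not_iff.2 h.2⟩]
      have h1 : (∑ y ∈ univ.filter (fun y => x ⋖ y), m (fun v => !(c v)) S y) =
          - ∑ y ∈ univ.filter (fun y => x ⋖ y), m c S y := by
        rw [← Finset.sum_neg_distrib]
        exact Finset.sum_congr rfl fun y hy => ih y (Finset.mem_filter.1 hy).2.lt
      rw [h1, f_not]
    · rw [if_neg h, if_neg (fun h2 => h ⟨h2.1, ub_not_iff.1 h2.2⟩), neg_zero]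

/-- Sign of a colour: white `true` counts `1`, black counts `-1`. -/
def sg (b : Bool) : ℤ := if b then 1 else -1

theorem sg_not (b : Bool) : sg (!b) = - sg b := by cases b <;> simp [sg]

open Classical in
/-- The value formula on the position `S`. -/
noncomputable def F (c : α → Bool) (S : Finset α) : ℤ :=
  (∑ x ∈ S, if UB c S x then 0 else sg (c x)) + ∑ x ∈ S, if (∀ y ∈ S, ¬ y < x) then m c S x else 0

theorem F_not {c : α → Bool} {S : Finset α} : F (fun v => !(c v)) S = - F c S := by
  classical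
  unfold F
  rw [neg_add, ← Finset.sum_neg_distrib, ← Finset.sum_neg_distrib]
  congr 1
  · refine Finset.sum_congr rfl fun x _ => ?_
    by_cases h : UB c S x
    · rw [if_pos h, if_pos (ub_not_iff.2 h), neg_zero]
    · rw [if_neg h, if_neg (fun h2 => h (ub_not_iff.1 h2)), sg_not]
  · refine Finset.sum_congr rfl fun x _ => ?_
    by_cases h : ∀ y ∈ S, ¬ y < x
    · rw [if_pos h, if_pos h, m_not]
    · rw [if_neg h, if_neg h, neg_zero]

end rec

/-- Order-convex sets. -/
def Conv (S : Finset α) : Prop := ∀ x ∈ S, ∀ z ∈ S, ∀ y, x ≤ y → y ≤ z → y ∈ S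

def IsTop (S : Finset α) (l : α) : Prop := l ∈ S ∧ ∀ y ∈ S, ¬ l < y

def IsBot (S : Finset α) (r : α) : Prop := r ∈ S ∧ ∀ y ∈ S, ¬ y < r

section moves

variable [DecidableEq α]

theorem Conv.erase_top {S : Finset α} (hS : Conv S) {l : α} (hl : IsTop S l) : Conv (S.erase l) := by
  intro x hx z hz y hxy hyz
  have hy := hS x (Finset.mem_of_mem_erase hx) z (Finset.mem_of_mem_erase hz) y hxy hyz
  refine Finset.mem_erase.2 ⟨?_, hy⟩
  rintro rfl
  rcases hyz.eq_or_lt with h | h
  · exact (Finset.mem_erase.1 hz).1 h.symm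
  · exact hl.2 z (Finset.mem_of_mem_erase hz) h

theorem Conv.erase_bot {S : Finset α} (hS : Conv S) {r : α} (hr : IsBot S r) : Conv (S.erase r) := by
  intro x hx z hz y hxy hyz
  have hy := hS x (Finset.mem_of_mem_erase hx) z (Finset.mem_of_mem_erase hz) y hxy hyz
  refine Finset.mem_erase.2 ⟨?_, hy⟩
  rintro rfl
  rcases hxy.eq_or_lt with h | h
  · exact (Finset.mem_erase.1 hx).1 h
  · exact hr.2 x (Finset.mem_of_mem_erase hx) h

/-- Newly unblocked when the top `l` is removed. -/
def Newly (c : α → Bool) (S : Finset α) (l x : α) : Prop :=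
  x ∈ S ∧ UB c S x ∧ ¬ UB c (S.erase l) x

theorem newly_top {c : α → Bool} {S : Finset α} {l x : α} (h : Newly c S l x) {p q s : α} (h1 : x ≤ p)
    (h2 : p ⋖ q) (h3 : q ⋖ s) (h4 : s ∈ S) (h5 : c p = c q) (h6 : c s ≠ c q) : s = l := by
  by_contra hne
  exact h.2.2 ⟨p, q, s, h1, h2, h3, Finset.mem_erase.2 ⟨hne, h4⟩, h5, h6⟩

theorem newly_lt {c : α → Bool} {S : Finset α} {l x : α} (h : Newly c S l x) : x < l := by
  obtain ⟨p, q, s, h1, h2, h3, h4, h5, h6⟩ := h.2.1
  have := newly_top h h1 h2 h3 h4 h5 h6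
  subst this
  exact h1.trans_lt (h2.lt.trans h3.lt)

theorem newly_up {c : α → Bool} {S : Finset α} (hS : Conv S) {l x y : α} (h : Newly c S l x) (hxy : x ≤ y)
    (hy : UB c S y) : Newly c S l y := by
  obtain ⟨s, hs, hys⟩ := hy.exists_lt
  exact ⟨hS x h.1 s hs y hxy hys.le, hy, fun h2 => h.2.2 (h2.anti hxy)⟩

/-- Above a newly unblocked element, monochromatic covering pairs stay monochromatic. -/
theorem newly_mono [Finite α] {c : α → Bool} {S : Finset α} (hS : Conv S) {l p : α} (hpl : p < l) (hp : p ∈ S) :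
    ∀ b a : α, a ∈ S → ¬ UB c (S.erase l) a → a ⋖ b → b ≤ p → c a = c b → c b = c p := by
  intro b
  induction b using (wellFounded_gt (α := α)).induction with
  | _ b ih =>
    intro a haS ha hab hbp hc
    rcases hbp.eq_or_lt with rfl | hbp'
    · rfl
    obtain ⟨d, hd1, hd2⟩ := exists_covBy_le_of_lt hbp'
    have hdS : d ∈ S := hS a haS p hp d (hab.le.trans hd1.le) hd2
    have hbS : b ∈ S := hS a haS p hp b hab.le hbp
    have hdl : d ≠ l := by
      rintro rfl
      exact absurd (lt_of_lt_of_le hpl hd2) (lt_irrefl _)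
    have hcd : c d = c b := by
      by_contra hne
      exact ha ⟨a, b, d, le_rfl, hab, hd1, Finset.mem_erase.2 ⟨hdl, hdS⟩, hc, hne⟩
    have := ih d hd1.lt b hbS (fun h => ha (h.anti hab.le)) hd1 hd2 hcd.symm
    rw [← hcd, this]

theorem newly_succ [Finite α] {c : α → Bool} {S : Finset α} (hS : Conv S) {l z : α} (hz : Newly c S l z)
    (hc : c z = c l) : ∃ y, z ⋖ y ∧ Newly c S l y ∧ c y ≠ c l := by
  obtain ⟨p, q, s, h1, h2, h3, h4, h5, h6⟩ := hz.2.1
  have hs := newly_top hz h1 h2 h3 h4 h5 h6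
  subst hs
  have hzp : z < p := by
    rcases h1.eq_or_lt with h | h
    · exfalso
      subst h
      exact h6 (hc.symm.trans h5)
    · exact h
  obtain ⟨y, hy1, hy2⟩ := exists_covBy_le_of_lt hzp
  have hyU : UB c S y := ⟨p, q, s, hy2, h2, h3, h4, h5, h6⟩
  refine ⟨y, hy1, newly_up hS hz hy1.le hyU, ?_⟩
  intro hcy
  have hpl : p < s := h2.lt.trans h3.lt
  have hpS : p ∈ S := hS z hz.1 s h4 p h1 hpl.le
  have := newly_mono hS hpl hpS y z hz.1 hz.2.2 hy1 hy2 (hc.trans hcy.symm)
  rw [hcy, h5] at this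
  exact h6 this

end moves

section sums

variable [Fintype α] [DecidableEq α]

theorem cover_sum (hF : Forest α) (g : α → ℤ) (x : α) [DecidableRel ((· ≤ ·) : α → α → Prop)]
    [DecidablePred (fun y => x ⋖ y)] :
    ∑ z ∈ univ.filter (fun z => x ≤ z), g z =
      g x + ∑ y ∈ univ.filter (fun y => x ⋖ y), ∑ z ∈ univ.filter (fun z => y ≤ z), g z := by
  classical
  have h1 : univ.filter (fun z => x ≤ z) =
      insert x ((univ.filter (fun y => x ⋖ y)).biUnion (fun y => univ.filter (fun z => y ≤ z))) := by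
    ext z
    simp only [Finset.mem_filter, Finset.mem_univ, true_and, Finset.mem_insert, Finset.mem_biUnion]
    constructor
    · intro h
      rcases h.eq_or_lt with h | h
      · exact Or.inl h.symm
      · obtain ⟨y, hy1, hy2⟩ := exists_covBy_le_of_lt h
        exact Or.inr ⟨y, hy1, hy2⟩
    · rintro (rfl | ⟨y, hy1, hy2⟩)
      · exact le_rfl
      · exact hy1.le.trans hy2
  rw [h1, Finset.sum_insert, Finset.sum_biUnion]
  · intro y hy y' hy' hne
    rw [Function.onFun, Finset.disjoint_left]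
    intro z hz hz'
    simp only [Finset.coe_filter, Set.mem_ofPred_eq, Finset.mem_filter, Finset.mem_univ, true_and] at hy hy' hz hz'
    exact hne (cover_unique hF hy hy' hz hz')
  · simp only [Finset.mem_biUnion, Finset.mem_filter, Finset.mem_univ, true_and, not_exists, not_and]
    intro y hy hyx
    exact absurd (lt_of_lt_of_le hy.lt hyx) (lt_irrefl _)

theorem bot_sum (hF : Forest α) (g : α → ℤ) (S : Finset α) (hg : ∀ x, x ∉ S → g x = 0)
    [DecidableRel ((· ≤ ·) : α → α → Prop)] [DecidablePred (IsBot S)] :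
    ∑ x ∈ S.filter (fun x => IsBot S x), ∑ z ∈ univ.filter (fun z => x ≤ z), g z = ∑ z ∈ S, g z := by
  classical
  have h1 : ∑ z ∈ S, g z = ∑ z ∈ (S.filter (fun x => IsBot S x)).biUnion
      (fun x => univ.filter (fun z => x ≤ z)), g z := by
    apply Finset.sum_subset
    · intro z hz
      have hne : (S.filter (fun y => y ≤ z)).Nonempty := ⟨z, Finset.mem_filter.2 ⟨hz, le_rfl⟩⟩
      obtain ⟨y, hy⟩ := Finset.exists_minimal hne
      have hy1 := Finset.mem_filter.1 hy.1
      simp only [Finset.mem_biUnion, Finset.mem_filter, Finset.mem_univ, true_and]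
      refine ⟨y, ⟨hy1.1, hy1.1, fun w hw hwy => ?_⟩, hy1.2⟩
      have := hy.2 (Finset.mem_filter.2 ⟨hw, hwy.le.trans hy1.2⟩) hwy.le
      exact absurd hwy (not_lt_of_ge this)
    · intro z _ hz
      exact hg z hz
  rw [h1, Finset.sum_biUnion]
  intro y hy y' hy' hne
  rw [Function.onFun, Finset.disjoint_left]
  intro z hz hz'
  simp only [Finset.coe_filter, Set.mem_ofPred_eq, Finset.mem_filter, Finset.mem_univ, true_and] at hy hy' hz hz'
  apply hne
  rcases chain_below hF z y y' hz hz' with h | h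
  · rcases h.eq_or_lt with h | h
    · exact h
    · exact absurd h (hy'.2.2 y hy.1)
  · rcases h.eq_or_lt with h | h
    · exact h.symm
    · exact absurd h (hy.2.2 y' hy'.1)

end sums

section top

variable [Fintype α] [DecidableEq α]

open Classical in
/-- Signed count of newly unblocked elements above `x`. -/
noncomputable def sN (c : α → Bool) (S : Finset α) (l x : α) : ℤ :=
  ∑ z ∈ univ.filter (fun z => x ≤ z), if Newly c S l z then sg (c z) else 0

theorem sN_nonpos (hF : Forest α) {c : α → Bool} {S : Finset α} (hS : Conv S) {l : α}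
    (hc : c l = true) (x : α) : sN c S l x ≤ 0 := by
  classical
  have hcard : ((univ.filter (fun z => x ≤ z)).filter (fun z => Newly c S l z ∧ c z = true)).card ≤
      ((univ.filter (fun z => x ≤ z)).filter (fun z => Newly c S l z ∧ c z = false)).card := by
    have key : ∀ z, Newly c S l z ∧ c z = true → ∃ y, z ⋖ y ∧ Newly c S l y ∧ c y = false := by
      rintro z ⟨h1, h2⟩
      obtain ⟨y, h3, h4, h5⟩ := newly_succ hS h1 (h2.trans hc.symm)
      refine ⟨y, h3, h4, ?_⟩
      rw [hc] at h5
      simpa using h5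
    choose! g hg1 hg2 hg3 using key
    refine Finset.card_le_card_of_injOn g ?_ ?_
    · intro z hz
      simp only [Finset.coe_filter, Set.mem_ofPred_eq, Finset.mem_filter, Finset.mem_univ, true_and] at hz ⊢
      exact ⟨hz.1.trans (hg1 z hz.2).le, hg2 z hz.2, hg3 z hz.2⟩
    · intro z hz w hw hzw
      simp only [Finset.coe_filter, Set.mem_ofPred_eq, Finset.mem_filter, Finset.mem_univ, true_and] at hz hw
      have h1 := hg1 z hz.2
      have h2 := hg1 w hw.2
      rw [← hzw] at h2
      exact hF _ _ _ h1 h2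
  have e : sN c S l x =
      (((univ.filter (fun z => x ≤ z)).filter (fun z => Newly c S l z ∧ c z = true)).card : ℤ) -
      (((univ.filter (fun z => x ≤ z)).filter (fun z => Newly c S l z ∧ c z = false)).card : ℤ) := by
    unfold sN
    rw [Finset.card_filter, Finset.card_filter]
    push_cast
    rw [← Finset.sum_sub_distrib]
    refine Finset.sum_congr rfl fun v _ => ?_
    by_cases he : Newly c S l v <;> cases hcv : c v <;> simp [he, sg]
  rw [e]
  have : (((univ.filter (fun z => x ≤ z)).filter (fun z => Newly c S l z ∧ c z = true)).card : ℤ) ≤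
      (((univ.filter (fun z => x ≤ z)).filter (fun z => Newly c S l z ∧ c z = false)).card : ℤ) := by
    exact_mod_cast hcard
  linarith

open Classical in
theorem sN_eq (hF : Forest α) (c : α → Bool) (S : Finset α) (l x : α) :
    sN c S l x = (if Newly c S l x then sg (c x) else 0) +
      ∑ y ∈ univ.filter (fun y => x ⋖ y), sN c S l y := by
  unfold sN
  exact cover_sum hF (fun z => if Newly c S l z then sg (c z) else 0) x

theorem main_ineq (hF : Forest α) {c : α → Bool} {S : Finset α} (hS : Conv S) {l : α} (hl : IsTop S l)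
    (hc : c l = true) : ∀ x : α, m c (S.erase l) x + sN c S l x ≤ m c S x := by
  classical
  intro x
  induction x using (wellFounded_gt (α := α)).induction with
  | _ x ih =>
    have hsum : (∑ y ∈ univ.filter (fun y => x ⋖ y), m c (S.erase l) y) +
        ∑ y ∈ univ.filter (fun y => x ⋖ y), sN c S l y ≤ ∑ y ∈ univ.filter (fun y => x ⋖ y), m c S y := by
      rw [← Finset.sum_add_distrib]
      exact Finset.sum_le_sum fun y hy => ih y (Finset.mem_filter.1 hy).2.lt
    have hx0 := sN_nonpos hF hS hc x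
    have hx1 := sN_eq hF c S l x
    by_cases hN : Newly c S l x
    · rw [if_pos hN] at hx1
      have h1 : m c (S.erase l) x = 0 := m_zero (fun h => hN.2.2 h.2)
      have h2 : ∑ y ∈ univ.filter (fun y => x ⋖ y), m c (S.erase l) y = 0 := by
        refine Finset.sum_eq_zero fun y hy => m_zero (fun h => hN.2.2 (h.2.anti (Finset.mem_filter.1 hy).2.le))
      rw [h1, zero_add, m_eq c S x, if_pos ⟨hN.1, hN.2.1⟩]
      rw [h2, zero_add] at hsum
      cases hcx : c x
      · rw [hcx] at hx1
        simp only [f, Bool.false_eq_true, if_false]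
        simp only [sg, Bool.false_eq_true, if_false] at hx1
        rcases min_cases ((∑ y ∈ univ.filter (fun y => x ⋖ y), m c S y) - 1) 0 with h3 | h3 <;> linarith [h3.1]
      · simp only [f, if_true]
        rcases max_cases ((∑ y ∈ univ.filter (fun y => x ⋖ y), m c S y) + 1) 0 with h3 | h3 <;> linarith [h3.1]
    · rw [if_neg hN, zero_add] at hx1
      by_cases hU : x ∈ S ∧ UB c S x
      · have hU' : UB c (S.erase l) x := by
          by_contra h
          exact hN ⟨hU.1, hU.2, h⟩
        have hxl : x ≠ l := by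
          rintro rfl
          obtain ⟨s, hs, hls⟩ := hU.2.exists_lt
          exact hl.2 s hs hls
        rw [m_eq c S x, if_pos hU, m_eq c (S.erase l) x, if_pos ⟨Finset.mem_erase.2 ⟨hxl, hU.1⟩, hU'⟩]
        rw [← hx1] at hsum
        exact (f_lip (c x) hx0).trans (f_mono (c x) hsum)
      · have hU' : ¬ (x ∈ S.erase l ∧ UB c (S.erase l) x) := by
          rintro ⟨h1, h2⟩
          exact hU ⟨Finset.mem_of_mem_erase h1, h2.mono (Finset.erase_subset _ _)⟩
        rw [m_zero hU, m_zero hU', zero_add]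
        exact hx0

open Classical in
theorem F_split (c : α → Bool) (S : Finset α) :
    F c S = (∑ x ∈ S, if UB c S x then 0 else sg (c x)) + ∑ x ∈ S.filter (fun x => IsBot S x), m c S x := by
  unfold F
  congr 1
  rw [Finset.sum_filter]
  refine Finset.sum_congr rfl fun x hx => ?_
  by_cases h : ∀ y ∈ S, ¬ y < x
  · rw [if_pos h, if_pos ⟨hx, h⟩]
  · rw [if_neg h, if_neg (fun h2 => h h2.2)]

theorem bots_erase_top {S : Finset α} {l : α} (hl : IsTop S l) [DecidablePred (IsBot S)]
    [DecidablePred (IsBot (S.erase l))] :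
    (S.erase l).filter (fun x => IsBot (S.erase l) x) = (S.filter (fun x => IsBot S x)).erase l := by
  ext x
  simp only [Finset.mem_filter, Finset.mem_erase]
  constructor
  · rintro ⟨⟨h1, h2⟩, h3⟩
    refine ⟨h1, h2, h2, fun y hy hyx => ?_⟩
    by_cases hyl : y = l
    · subst hyl
      exact hl.2 x h2 hyx
    · exact h3.2 y (Finset.mem_erase.2 ⟨hyl, hy⟩) hyx
  · rintro ⟨h1, h2, h3⟩
    exact ⟨⟨h1, h2⟩, Finset.mem_erase.2 ⟨h1, h2⟩, fun y hy hyx => h3.2 y (Finset.mem_of_mem_erase hy) hyx⟩

theorem F_erase_top (hF : Forest α) {c : α → Bool} {S : Finset α} (hS : Conv S) {l : α} (hl : IsTop S l)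
    (hc : c l = true) : F c (S.erase l) ≤ F c S - 1 := by
  classical
  rw [F_split, F_split c S]
  have hlU : ¬ UB c S l := by
    intro h
    obtain ⟨s, hs, hls⟩ := h.exists_lt
    exact hl.2 s hs hls
  have h1 : (∑ x ∈ S, if UB c S x then 0 else sg (c x)) =
      1 + ∑ x ∈ S.erase l, if UB c S x then 0 else sg (c x) := by
    rw [← Finset.add_sum_erase _ _ hl.1, if_neg hlU, hc]
    rfl
  have h2 : (∑ x ∈ S.erase l, if UB c (S.erase l) x then 0 else sg (c x)) =
      (∑ x ∈ S.erase l, if UB c S x then 0 else sg (c x)) +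
        ∑ x ∈ S.erase l, if Newly c S l x then sg (c x) else 0 := by
    rw [← Finset.sum_add_distrib]
    refine Finset.sum_congr rfl fun x hx => ?_
    by_cases h3 : UB c S x
    · by_cases h4 : UB c (S.erase l) x
      · rw [if_pos h4, if_pos h3, if_neg (fun h => h.2.2 h4), add_zero]
      · rw [if_neg h4, if_pos h3, if_pos ⟨Finset.mem_of_mem_erase hx, h3, h4⟩, zero_add]
    · rw [if_neg h3, if_neg (fun h => h3 (h.mono (Finset.erase_subset _ _))), if_neg (fun h => h3 h.2.1), add_zero]
  have h3 : (∑ x ∈ S.filter (fun x => IsBot S x), m c S x) =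
      ∑ x ∈ (S.filter (fun x => IsBot S x)).erase l, m c S x := by
    by_cases h : l ∈ S.filter (fun x => IsBot S x)
    · rw [← Finset.add_sum_erase _ _ h, m_zero (fun h => hlU h.2), zero_add]
    · rw [Finset.erase_eq_of_notMem h]
  have h4 : (∑ x ∈ (S.erase l).filter (fun x => IsBot (S.erase l) x), sN c S l x) =
      ∑ x ∈ S.erase l, if Newly c S l x then sg (c x) else 0 := by
    unfold sN
    refine bot_sum hF (fun z => if Newly c S l z then sg (c z) else 0) (S.erase l) ?_
    intro x hx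
    rw [if_neg]
    intro h
    exact hx (Finset.mem_erase.2 ⟨(newly_lt h).ne, h.1⟩)
  have h5 : (∑ x ∈ (S.erase l).filter (fun x => IsBot (S.erase l) x), m c (S.erase l) x) +
      (∑ x ∈ (S.erase l).filter (fun x => IsBot (S.erase l) x), sN c S l x) ≤
      ∑ x ∈ (S.erase l).filter (fun x => IsBot (S.erase l) x), m c S x := by
    rw [← Finset.sum_add_distrib]
    exact Finset.sum_le_sum fun x _ => main_ineq hF hS hl hc x
  rw [h1, h2, h3]
  rw [h4, bots_erase_top hl] at h5
  rw [bots_erase_top hl]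
  linarith

theorem F_erase_top_eq {c : α → Bool} {S : Finset α} {l : α} (hl : IsTop S l)
    (hc : c l = true) (hN : ∀ x, ¬ Newly c S l x) : F c (S.erase l) = F c S - 1 := by
  classical
  rw [F_split, F_split c S]
  have hlU : ¬ UB c S l := by
    intro h
    obtain ⟨s, hs, hls⟩ := h.exists_lt
    exact hl.2 s hs hls
  have hU : ∀ x, (x ∈ S.erase l ∧ UB c (S.erase l) x) ↔ (x ∈ S ∧ UB c S x) := by
    intro x
    constructor
    · rintro ⟨h1, h2⟩
      exact ⟨Finset.mem_of_mem_erase h1, h2.mono (Finset.erase_subset _ _)⟩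
    · rintro ⟨h1, h2⟩
      have hxl : x ≠ l := by
        rintro rfl
        exact hlU h2
      refine ⟨Finset.mem_erase.2 ⟨hxl, h1⟩, ?_⟩
      by_contra h
      exact hN x ⟨h1, h2, h⟩
  have h1 : (∑ x ∈ S, if UB c S x then 0 else sg (c x)) =
      1 + ∑ x ∈ S.erase l, if UB c S x then 0 else sg (c x) := by
    rw [← Finset.add_sum_erase _ _ hl.1, if_neg hlU, hc]
    rfl
  have h2 : (∑ x ∈ S.erase l, if UB c (S.erase l) x then 0 else sg (c x)) =
      (∑ x ∈ S.erase l, if UB c S x then 0 else sg (c x)) := by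
    refine Finset.sum_congr rfl fun x hx => ?_
    by_cases h3 : UB c S x
    · rw [if_pos h3, if_pos ((hU x).2 ⟨Finset.mem_of_mem_erase hx, h3⟩).2]
    · rw [if_neg h3, if_neg (fun h => h3 (h.mono (Finset.erase_subset _ _)))]
  have h3 : (∑ x ∈ S.filter (fun x => IsBot S x), m c S x) =
      ∑ x ∈ (S.filter (fun x => IsBot S x)).erase l, m c S x := by
    by_cases h : l ∈ S.filter (fun x => IsBot S x)
    · rw [← Finset.add_sum_erase _ _ h, m_zero (fun h => hlU h.2), zero_add]
    · rw [Finset.erase_eq_of_notMem h]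
  have h4 : (∑ x ∈ (S.filter (fun x => IsBot S x)).erase l, m c (S.erase l) x) =
      ∑ x ∈ (S.filter (fun x => IsBot S x)).erase l, m c S x :=
    Finset.sum_congr rfl fun x _ => m_congr x (fun y _ => hU y)
  rw [h1, h2, h3, bots_erase_top hl, h4]
  ring

end top

section bot

variable [Fintype α] [DecidableEq α]

theorem ub_erase_bot {c : α → Bool} {S : Finset α} {r : α} (hr : IsBot S r) {x : α} (hx : x ∈ S) :
    UB c (S.erase r) x ↔ UB c S x := by
  constructor
  · exact UB.mono (Finset.erase_subset _ _)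
  · rintro ⟨p, q, s, h1, h2, h3, h4, h5, h6⟩
    refine ⟨p, q, s, h1, h2, h3, Finset.mem_erase.2 ⟨?_, h4⟩, h5, h6⟩
    rintro rfl
    exact hr.2 x hx (h1.trans_lt (h2.lt.trans h3.lt))

theorem m_erase_bot {c : α → Bool} {S : Finset α} {r : α} (hr : IsBot S r) {x : α} (hx : x ∈ S)
    (hxr : x ≠ r) : m c (S.erase r) x = m c S x := by
  refine m_congr x fun y hxy => ?_
  constructor
  · rintro ⟨h1, h2⟩
    exact ⟨Finset.mem_of_mem_erase h1, h2.mono (Finset.erase_subset _ _)⟩
  · rintro ⟨h1, h2⟩
    refine ⟨Finset.mem_erase.2 ⟨?_, h1⟩, (ub_erase_bot hr h1).2 h2⟩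
    rintro rfl
    rcases hxy.eq_or_lt with h | h
    · exact hxr h
    · exact hr.2 x hx h

theorem bots_erase_bot (hF : Forest α) {S : Finset α} (hS : Conv S) {r : α} (hr : IsBot S r)
    [DecidablePred (IsBot S)] [DecidablePred (IsBot (S.erase r))] [DecidablePred (fun y => r ⋖ y)] :
    (S.erase r).filter (fun x => IsBot (S.erase r) x) =
      (S.filter (fun x => IsBot S x)).erase r ∪ S.filter (fun y => r ⋖ y) := by
  ext x
  simp only [Finset.mem_filter, Finset.mem_erase, Finset.mem_union]
  constructor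
  · rintro ⟨⟨h1, h2⟩, h3⟩
    by_cases hb : IsBot S x
    · exact Or.inl ⟨h1, h2, hb⟩
    · right
      refine ⟨h2, ?_⟩
      have hrx : r < x := by
        by_contra hcon
        apply hb
        refine ⟨h2, fun y hy hyx => ?_⟩
        by_cases hyr : y = r
        · subst hyr
          exact hcon hyx
        · exact h3.2 y (Finset.mem_erase.2 ⟨hyr, hy⟩) hyx
      refine ⟨hrx, fun w hrw hwx => ?_⟩
      have hw : w ∈ S := hS r hr.1 x h2 w hrw.le hwx.le
      exact h3.2 w (Finset.mem_erase.2 ⟨hrw.ne', hw⟩) hwx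
  · rintro (⟨h1, h2, h3⟩ | ⟨h1, h2⟩)
    · exact ⟨⟨h1, h2⟩, Finset.mem_erase.2 ⟨h1, h2⟩, fun y hy hyx => h3.2 y (Finset.mem_of_mem_erase hy) hyx⟩
    · have hxr : x ≠ r := h2.lt.ne'
      refine ⟨⟨hxr, h1⟩, Finset.mem_erase.2 ⟨hxr, h1⟩, fun w hw hwx => ?_⟩
      have hw1 := Finset.mem_erase.1 hw
      rcases chain_below hF x w r hwx.le h2.le with h | h
      · rcases h.eq_or_lt with h | h
        · exact hw1.1 h
        · exact hr.2 w hw1.2 h
      · rcases h.eq_or_lt with h | h
        · exact hw1.1 h.symm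
        · exact h2.2 h hwx

/-- Effect of removing a bottom. -/
theorem F_erase_bot (hF : Forest α) {c : α → Bool} {S : Finset α} (hS : Conv S) {r : α} (hr : IsBot S r)
    [DecidablePred (fun y => r ⋖ y)] [Decidable (UB c S r)] :
    F c (S.erase r) = F c S - (if UB c S r then m c S r else sg (c r)) +
      ∑ y ∈ univ.filter (fun y => r ⋖ y), m c S y := by
  classical
  rw [F_split, F_split c S, bots_erase_bot hF hS hr]
  have h1 : (∑ x ∈ S, if UB c S x then 0 else sg (c x)) =
      (if UB c S r then 0 else sg (c r)) + ∑ x ∈ S.erase r, if UB c S x then 0 else sg (c x) := by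
    rw [← Finset.add_sum_erase _ _ hr.1]
    by_cases h : UB c S r
    · rw [if_pos h, if_pos h]
    · rw [if_neg h, if_neg h]
  have h2 : (∑ x ∈ S.erase r, if UB c (S.erase r) x then 0 else sg (c x)) =
      (∑ x ∈ S.erase r, if UB c S x then 0 else sg (c x)) := by
    refine Finset.sum_congr rfl fun x hx => ?_
    by_cases h3 : UB c S x
    · rw [if_pos h3, if_pos ((ub_erase_bot hr (Finset.mem_of_mem_erase hx)).2 h3)]
    · rw [if_neg h3, if_neg (fun h => h3 (h.mono (Finset.erase_subset _ _)))]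
  have hrm : r ∈ S.filter (fun x => IsBot S x) := Finset.mem_filter.2 ⟨hr.1, hr⟩
  have h3 : (∑ x ∈ S.filter (fun x => IsBot S x), m c S x) =
      m c S r + ∑ x ∈ (S.filter (fun x => IsBot S x)).erase r, m c S x := by
    rw [← Finset.add_sum_erase _ _ hrm]
  have hdisj : Disjoint ((S.filter (fun x => IsBot S x)).erase r) (S.filter (fun y => r ⋖ y)) := by
    rw [Finset.disjoint_left]
    intro x hx hx'
    have h4 := (Finset.mem_filter.1 (Finset.mem_of_mem_erase hx)).2
    exact h4.2 r hr.1 (Finset.mem_filter.1 hx').2.lt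
  rw [Finset.sum_union hdisj]
  have h4 : (∑ x ∈ (S.filter (fun x => IsBot S x)).erase r, m c (S.erase r) x) =
      ∑ x ∈ (S.filter (fun x => IsBot S x)).erase r, m c S x := by
    refine Finset.sum_congr rfl fun x hx => ?_
    have h5 := Finset.mem_erase.1 hx
    exact m_erase_bot hr (Finset.mem_filter.1 h5.2).1 h5.1
  have h5 : (∑ y ∈ S.filter (fun y => r ⋖ y), m c (S.erase r) y) = ∑ y ∈ univ.filter (fun y => r ⋖ y), m c S y := by
    have h6 : (∑ y ∈ S.filter (fun y => r ⋖ y), m c (S.erase r) y) = ∑ y ∈ S.filter (fun y => r ⋖ y), m c S y := by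
      refine Finset.sum_congr rfl fun y hy => ?_
      have h7 := Finset.mem_filter.1 hy
      exact m_erase_bot hr h7.1 h7.2.lt.ne'
    rw [h6]
    apply Finset.sum_subset
    · intro y hy
      exact Finset.mem_filter.2 ⟨Finset.mem_univ _, (Finset.mem_filter.1 hy).2⟩
    · intro y hy hy'
      refine m_zero (fun h => hy' (Finset.mem_filter.2 ⟨h.1, (Finset.mem_filter.1 hy).2⟩))
  rw [h1, h2, h3, h4, h5]
  by_cases h : UB c S r
  · rw [if_pos h, if_pos h]
    ring
  · rw [if_neg h, if_neg h, m_zero (fun h2 => h h2.2)]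
    ring

theorem children_zero {c : α → Bool} {S : Finset α} {r : α} (h : ¬ UB c S r)
    [DecidablePred (fun y => r ⋖ y)] : ∑ y ∈ univ.filter (fun y => r ⋖ y), m c S y = 0 :=
  Finset.sum_eq_zero fun y hy => m_zero (fun h2 => h (h2.2.anti (Finset.mem_filter.1 hy).2.le))

theorem F_erase_bot_le (hF : Forest α) {c : α → Bool} {S : Finset α} (hS : Conv S) {r : α} (hr : IsBot S r)
    (hc : c r = true) : F c (S.erase r) ≤ F c S - 1 := by
  classical
  rw [F_erase_bot hF hS hr]
  by_cases h : UB c S r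
  · rw [if_pos h, m_eq c S r, if_pos ⟨hr.1, h⟩, hc]
    simp only [f, if_true]
    rcases max_cases ((∑ y ∈ univ.filter (fun y => r ⋖ y), m c S y) + 1) 0 with h3 | h3 <;> linarith [h3.1, h3.2]
  · rw [if_neg h, children_zero h, hc]
    simp [sg]

/-- If no bottom white element is a good move, all contributions of bottoms are nonpositive. -/
theorem bots_nonpos (hF : Forest α) {c : α → Bool} {S : Finset α} (hS : Conv S)
    (hno : ∀ r, IsBot S r → c r = true → F c (S.erase r) ≠ F c S - 1) {r : α} (hr : IsBot S r) :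
    m c S r ≤ 0 := by
  classical
  by_cases h : r ∈ S ∧ UB c S r
  · cases hc : c r
    · rw [m_eq, if_pos h, hc]
      simp only [f, Bool.false_eq_true, if_false]
      exact min_le_right _ _
    · have h1 := hno r hr hc
      rw [F_erase_bot hF hS hr, if_pos h.2] at h1
      rw [m_eq c S r, if_pos h, hc] at h1 ⊢
      simp only [f, if_true] at h1 ⊢
      rcases max_cases ((∑ y ∈ univ.filter (fun y => r ⋖ y), m c S y) + 1) 0 with h3 | h3
      · exfalso
        apply h1
        rw [h3.1]
        ring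
      · rw [h3.1]
  · rw [m_zero h]

end bot

section good

variable [Fintype α] [DecidableEq α]

/-- The white tops under the assumption that each of them unblocks something. -/
theorem white_top_facts (hF : Forest α) {c : α → Bool} {S : Finset α} (hS : Conv S) {l x : α}
    (hx : Newly c S l x) (hc : c l = true) :
    ∃ p q, p ⋖ q ∧ q ⋖ l ∧ q ∈ S ∧ c q = false ∧ UB c S p ∧ ¬ UB c S q ∧
      ∀ u ∈ S, q ⋖ u → c u = true → u = l := by
  obtain ⟨p, q, s, h1, h2, h3, h4, h5, h6⟩ := hx.2.1
  have hs := newly_top hx h1 h2 h3 h4 h5 h6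
  subst hs
  have hcq : c q = false := by
    rw [hc] at h6
    cases h : c q with
    | true => rw [h] at h6; exact absurd rfl h6
    | false => rfl
  refine ⟨p, q, h2, h3, hS x hx.1 s h4 q (h1.trans h2.le) h3.le, hcq,
    ⟨p, q, s, le_rfl, h2, h3, h4, h5, h6⟩, ?_, ?_⟩
  · rintro ⟨p', q', s', h1', h2', h3', h4', h5', h6'⟩
    have hs' := newly_top hx (h1.trans (h2.le.trans h1')) h2' h3' h4' h5' h6'
    subst hs'
    have hqq : q' = q := hF _ _ _ h3' h3
    subst hqq
    exact absurd (lt_of_le_of_lt h1' h2'.lt) (lt_irrefl _)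
  · intro u hu hqu hcu
    exact newly_top hx h1 h2 hqu hu h5 (by rw [hcu, hcq]; simp)

theorem child_black (hF : Forest α) {c : α → Bool} {S : Finset α} (hS : Conv S)
    (hyp : ∀ l, IsTop S l → c l = true → ∃ x, Newly c S l x) :
    ∀ u v : α, v ∈ S → u ∈ S → v ⋖ u → ¬ UB c S v → c v = true → c u = false := by
  intro u
  induction u using (wellFounded_gt (α := α)).induction with
  | _ u ih =>
    intro v hv hu hvu hvU hcv
    by_contra hcu
    have hcu : c u = true := by simpa using hcu
    by_cases ht : IsTop S u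
    · obtain ⟨x, hx⟩ := hyp u ht hcu
      obtain ⟨p, q, h1, h2, h3, h4, h5, h6, h7⟩ := white_top_facts hF hS hx hcu
      have : q = v := hF _ _ _ h2 hvu
      subst this
      rw [hcv] at h4
      exact absurd h4 (by simp)
    · have : ∃ w ∈ S, u ⋖ w := by
        by_contra hcon
        push Not at hcon
        apply ht
        refine ⟨hu, fun y hy huy => ?_⟩
        obtain ⟨w, hw1, hw2⟩ := exists_covBy_le_of_lt huy
        exact hcon w (hS u hu y hy w hw1.le hw2) hw1
      obtain ⟨w, hw, huw⟩ := this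
      have hcw : c w = true := by
        by_contra hcw
        have hcw : c w = false := by simpa using hcw
        exact hvU ⟨v, u, w, le_rfl, hvu, huw, hw, by rw [hcv, hcu], by rw [hcw, hcu]; simp⟩
      have := ih w huw.lt u hu hw huw (fun h => hvU (h.anti hvu.le)) hcu
      rw [hcw] at this
      exact absurd this (by simp)

theorem exists_good (hF : Forest α) {c : α → Bool} {S : Finset α} (hS : Conv S) (hpos : 0 < F c S) :
    ∃ x, (IsTop S x ∨ IsBot S x) ∧ c x = true ∧ F c (S.erase x) = F c S - 1 := by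
  classical
  by_contra hcon
  push Not at hcon
  have hbots : ∀ r, IsBot S r → m c S r ≤ 0 := fun r hr =>
    bots_nonpos hF hS (fun r hr hc => hcon r (Or.inr hr) hc) hr
  have hyp : ∀ l, IsTop S l → c l = true → ∃ x, Newly c S l x := by
    intro l hl hc
    by_contra h
    push Not at h
    exact hcon l (Or.inl hl) hc (F_erase_top_eq hl hc h)
  have hM : ∑ x ∈ S.filter (fun x => IsBot S x), m c S x ≤ 0 :=
    Finset.sum_nonpos fun x hx => hbots x (Finset.mem_filter.1 hx).2
  have hf : ∀ v, v ∈ S ∧ ¬ UB c S v ∧ c v = true → ∃ u, (u ∈ S ∧ ¬ UB c S u ∧ c u = false) ∧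
      ((IsTop S v ∧ u ⋖ v ∧ (∃ p, p ⋖ u ∧ UB c S p) ∧ ∀ w ∈ S, u ⋖ w → c w = true → w = v) ∨
        (¬ IsTop S v ∧ v ⋖ u)) := by
    rintro v ⟨hv, hvU, hcv⟩
    by_cases ht : IsTop S v
    · obtain ⟨x, hx⟩ := hyp v ht hcv
      obtain ⟨p, q, h1, h2, h3, h4, h5, h6, h7⟩ := white_top_facts hF hS hx hcv
      exact ⟨q, ⟨h3, h6, h4⟩, Or.inl ⟨ht, h2, ⟨p, h1, h5⟩, h7⟩⟩
    · have : ∃ w ∈ S, v ⋖ w := by
        by_contra hcon
        push Not at hcon
        apply ht
        refine ⟨hv, fun y hy hvy => ?_⟩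
        obtain ⟨w, hw1, hw2⟩ := exists_covBy_le_of_lt hvy
        exact hcon w (hS v hv y hy w hw1.le hw2) hw1
      obtain ⟨w, hw, hvw⟩ := this
      exact ⟨w, ⟨hw, fun h => hvU (h.anti hvw.le), child_black hF hS hyp w v hv hw hvw hvU hcv⟩,
        Or.inr ⟨ht, hvw⟩⟩
  choose! g hg1 hg2 using hf
  have hcard : (S.filter (fun v => ¬ UB c S v ∧ c v = true)).card ≤
      (S.filter (fun v => ¬ UB c S v ∧ c v = false)).card := by
    refine Finset.card_le_card_of_injOn g ?_ ?_
    · intro v hv
      simp only [Finset.coe_filter, Set.mem_ofPred_eq] at hv ⊢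
      exact hg1 v ⟨hv.1, hv.2.1, hv.2.2⟩
    · intro v hv w hw hvw
      simp only [Finset.coe_filter, Set.mem_ofPred_eq] at hv hw
      have b1 := hg2 v ⟨hv.1, hv.2.1, hv.2.2⟩
      have b2 := hg2 w ⟨hw.1, hw.2.1, hw.2.2⟩
      rw [← hvw] at b2
      rcases b1 with ⟨b3, b4, ⟨p, b5, b6⟩, b7⟩ | ⟨b3, b4⟩
      · rcases b2 with ⟨d3, d4, d5, d6⟩ | ⟨d3, d4⟩
        · exact (b7 w hw.1 d4 hw.2.2).symm
        · exfalso
          have : w = p := hF _ _ _ d4 b5
          subst this
          exact hw.2.1 b6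
      · rcases b2 with ⟨d3, d4, ⟨p, d5, d6⟩, d7⟩ | ⟨d3, d4⟩
        · exfalso
          have : v = p := hF _ _ _ b4 d5
          subst this
          exact hv.2.1 d6
        · exact hF _ _ _ b4 d4
  have e : (∑ x ∈ S, if UB c S x then 0 else sg (c x)) =
      ((S.filter (fun v => ¬ UB c S v ∧ c v = true)).card : ℤ) -
      ((S.filter (fun v => ¬ UB c S v ∧ c v = false)).card : ℤ) := by
    rw [Finset.card_filter, Finset.card_filter]
    push_cast
    rw [← Finset.sum_sub_distrib]
    refine Finset.sum_congr rfl fun v _ => ?_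
    by_cases he : UB c S v <;> cases hcv : c v <;> simp [he, sg]
  rw [F_split, e] at hpos
  have : ((S.filter (fun v => ¬ UB c S v ∧ c v = true)).card : ℤ) ≤
      ((S.filter (fun v => ¬ UB c S v ∧ c v = false)).card : ℤ) := by exact_mod_cast hcard
  linarith

end good

end Q135.MinMax
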