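import Mathlib

/-!
Subtraction games on one heap: nim-values and ultimate periods.
-/

namespace Q135.Nim

/-- The nim-value (Sprague-Grundy value) of a heap of size `n` in the subtraction game with
subtraction set `S`: the least natural number that is not the nim-value of a heap `n - s` with
`s ∈ S`, `0 < s ≤ n`. -/
noncomputable def nim (S : Finset ℕ) (n : ℕ) : ℕ :=
  sInf {m : ℕ | ∀ s : ℕ, ∀ _ : s ∈ S ∧ 0 < s ∧ s ≤ n, nim S (n - s) ≠ m}
termination_by n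
decreasing_by omega

/-- `p` is an ultimate period of the sequence `a`: `p ≥ 1` and `a (n + p) = a n` for all
sufficiently large `n`. -/
def IsUltPeriod (a : ℕ → ℕ) (p : ℕ) : Prop :=
  1 ≤ p ∧ ∃ n₀ : ℕ, ∀ n : ℕ, n₀ ≤ n → a (n + p) = a n

theorem nim_isLeast_aux (S : Finset ℕ) (n v : ℕ)
    (h1 : ∀ s ∈ S, 0 < s → s ≤ n → nim S (n - s) ≠ v)
    (h2 : ∀ m < v, ∃ s ∈ S, 0 < s ∧ s ≤ n ∧ nim S (n - s) = m) : nim S n = v := by
  rw [nim]
  apply le_antisymm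
  · apply Nat.sInf_le
    intro s hs
    exact h1 s hs.1 hs.2.1 hs.2.2
  · by_contra hlt
    push Not at hlt
    have hne : {m : ℕ | ∀ s : ℕ, ∀ _ : s ∈ S ∧ 0 < s ∧ s ≤ n, nim S (n - s) ≠ m}.Nonempty :=
      ⟨v, fun s hs => h1 s hs.1 hs.2.1 hs.2.2⟩
    have hmem := Nat.sInf_mem hne
    obtain ⟨s, hs, h0, hle, he⟩ := h2 _ hlt
    exact hmem s ⟨hs, h0, hle⟩ he

theorem nim_eq (S : Finset ℕ) (f : ℕ → ℕ)
    (h1 : ∀ n, ∀ s ∈ S, 0 < s → s ≤ n → f (n - s) ≠ f n)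
    (h2 : ∀ n, ∀ m < f n, ∃ s ∈ S, 0 < s ∧ s ≤ n ∧ f (n - s) = m) (n : ℕ) : nim S n = f n := by
  induction n using Nat.strong_induction_on with
  | _ n ih =>
    apply nim_isLeast_aux
    · intro s hs h0 hle
      rw [ih (n - s) (by omega)]
      exact h1 n s hs h0 hle
    · intro m hm
      obtain ⟨s, hs, h0, hle, he⟩ := h2 n m hm
      exact ⟨s, hs, h0, hle, by rw [ih (n - s) (by omega)]; exact he⟩

end Q135.Nim
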