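import Pool.Agent.Q16.SQ.Stm3

set_option autoImplicit false
noncomputable section
open scoped BigOperators
open Pool.Agent.Helper549.Tri

namespace Q16.SQ

namespace EQU135

/-- points of the closed triangle -/
theorem mem_tri (A B C p : E2) : p ∈ TriOf A B C ↔
    ∃ x y z : ℝ, 0 ≤ x ∧ 0 ≤ y ∧ 0 ≤ z ∧ x + y + z = 1 ∧ p = x • A + y • B + z • C := by
  constructor
  · intro h
    have hconv : Convex ℝ {p : E2 | ∃ x y z : ℝ, 0 ≤ x ∧ 0 ≤ y ∧ 0 ≤ z ∧ x + y + z = 1 ∧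
        p = x • A + y • B + z • C} := by
      rintro p ⟨x, y, z, hx, hy, hz, hs, rfl⟩ q ⟨x', y', z', hx', hy', hz', hs', rfl⟩ s t h1 h2 h3
      refine ⟨s * x + t * x', s * y + t * y', s * z + t * z', by positivity, by positivity,
        by positivity, ?_, ?_⟩
      · calc s * x + t * x' + (s * y + t * y') + (s * z + t * z') =
            s * (x + y + z) + t * (x' + y' + z') := by ring
          _ = 1 := by rw [hs, hs']; linarith
      · module
    have hsub : Set.range ![A, B, C] ⊆ {p : E2 | ∃ x y z : ℝ, 0 ≤ x ∧ 0 ≤ y ∧ 0 ≤ z ∧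
        x + y + z = 1 ∧ p = x • A + y • B + z • C} := by
      rintro _ ⟨i, rfl⟩
      fin_cases i
      · exact ⟨1, 0, 0, by norm_num, by norm_num, by norm_num, by norm_num, by simp⟩
      · exact ⟨0, 1, 0, by norm_num, by norm_num, by norm_num, by norm_num, by simp⟩
      · exact ⟨0, 0, 1, by norm_num, by norm_num, by norm_num, by norm_num, by simp⟩
    exact convexHull_min hsub hconv h
  · rintro ⟨x, y, z, hx, hy, hz, hs, rfl⟩
    have hc : Convex ℝ (TriOf A B C) := convex_convexHull ℝ _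
    have hv : ∀ i, (![A, B, C] : Fin 3 → E2) i ∈ TriOf A B C := fun i =>
      subset_convexHull ℝ _ ⟨i, rfl⟩
    have := hc.sum_mem (t := Finset.univ) (w := ![x, y, z]) (z := ![A, B, C])
      (by intro i _; fin_cases i <;> simpa) (by simpa [Fin.sum_univ_three] using hs)
      (fun i _ => hv i)
    simpa [Fin.sum_univ_three] using this

/-- a line has no interior -/
theorem line_int (w A : E2) (c : ℝ) (hw : (inner ℝ w w : ℝ) ≠ 0) :
    interior {p : E2 | (inner ℝ w (p - A) : ℝ) = c} = ∅ := by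
  by_contra hne
  obtain ⟨p, hp⟩ := Set.nonempty_iff_ne_empty.2 hne
  have hcont : Continuous fun t : ℝ => p + t • w := by fun_prop
  have hop : IsOpen ((fun t : ℝ => p + t • w) ⁻¹' interior {p : E2 | (inner ℝ w (p - A) : ℝ) = c}) :=
    isOpen_interior.preimage hcont
  have h0 : (0 : ℝ) ∈ (fun t : ℝ => p + t • w) ⁻¹' interior {p : E2 | (inner ℝ w (p - A) : ℝ) = c} := by
    simpa using hp
  obtain ⟨ε, hε, hb⟩ := Metric.isOpen_iff.1 hop 0 h0
  have h1 : (ε / 2) ∈ (fun t : ℝ => p + t • w) ⁻¹' interior {p : E2 | (inner ℝ w (p - A) : ℝ) = c} :=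
    hb (by rw [Metric.mem_ball, Real.dist_eq, sub_zero, abs_of_pos (by linarith)]; linarith)
  have h2' : p + (ε / 2) • w ∈ {p : E2 | (inner ℝ w (p - A) : ℝ) = c} := interior_subset h1
  have h3' : p ∈ {p : E2 | (inner ℝ w (p - A) : ℝ) = c} := interior_subset hp
  have h2 : (inner ℝ w (p + (ε / 2) • w - A) : ℝ) = c := h2'
  have h3 : (inner ℝ w (p - A) : ℝ) = c := h3'
  have h4 : (inner ℝ w (p + (ε / 2) • w - A) : ℝ) = (inner ℝ w (p - A) : ℝ) + (ε / 2) * (inner ℝ w w : ℝ) := by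
    rw [show p + (ε / 2) • w - A = (p - A) + (ε / 2) • w by module, inner_add_right,
      real_inner_smul_right]
  have h5 : (ε / 2) * (inner ℝ w w : ℝ) = 0 := by linarith
  rcases mul_eq_zero.1 h5 with h | h
  · linarith
  · exact hw h

theorem line_closed (w A : E2) (c : ℝ) : IsClosed {p : E2 | (inner ℝ w (p - A) : ℝ) = c} :=
  isClosed_eq (by fun_prop) continuous_const

/-- the two sets meet in a union of two lines -/
theorem disj_of (R1 R2 : Set E2) (w1 w2 A : E2) (c1 c2 : ℝ) (h1 : (inner ℝ w1 w1 : ℝ) ≠ 0)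
    (h2 : (inner ℝ w2 w2 : ℝ) ≠ 0)
    (h : ∀ p, p ∈ R1 → p ∈ R2 → (inner ℝ w1 (p - A) : ℝ) = c1 ∨ (inner ℝ w2 (p - A) : ℝ) = c2) :
    Disjoint (interior R1) (interior R2) := by
  rw [Set.disjoint_iff_inter_eq_empty, ← interior_inter]
  have hsub : R1 ∩ R2 ⊆ {p : E2 | (inner ℝ w1 (p - A) : ℝ) = c1} ∪ {p : E2 | (inner ℝ w2 (p - A) : ℝ) = c2} :=
    fun p hp => h p hp.1 hp.2
  have h3 : interior ({p : E2 | (inner ℝ w1 (p - A) : ℝ) = c1} ∪ {p : E2 | (inner ℝ w2 (p - A) : ℝ) = c2}) = ∅ := by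
    rw [interior_union_isClosed_of_interior_empty (line_closed w1 A c1) (line_int w2 A c2 h2)]
    exact line_int w1 A c1 h1
  exact Set.eq_empty_of_subset_empty (h3 ▸ interior_mono hsub)

end EQU135

open EQU135

theorem t_EQU (h1 : S_TRAP) (h2 : S_GLUE) : S_EQU := by
  intro e a b c mu he ha hb hc hmu habc A B C hBC hAC hAB
  have haR : (1 : ℝ) ≤ a := by exact_mod_cast ha
  have hbR : (1 : ℝ) ≤ b := by exact_mod_cast hb
  have hmR : (1 : ℝ) ≤ mu := by exact_mod_cast hmu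
  obtain ⟨L, hL⟩ : ∃ L : ℝ, L = e * (((a + b : ℕ) : ℝ) * mu * a * b ^ 2) := ⟨_, rfl⟩
  have hLpos : 0 < L := by
    rw [hL]
    push_cast
    positivity
  have e3 : e * (3 * ((a : ℝ) + b) * mu * a * b ^ 2) = 3 * L := by
    rw [hL]
    push_cast
    ring
  rw [e3] at hBC hAC hAB
  obtain ⟨u, hu⟩ : ∃ u : E2, u = (3 * L)⁻¹ • (B - A) := ⟨_, rfl⟩
  obtain ⟨v, hv⟩ : ∃ v : E2, v = (3 * L)⁻¹ • (C - A) := ⟨_, rfl⟩
  have h3L : (3 * L) ≠ 0 := by positivity
  have hB : B = A + (3 * L) • u := by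
    rw [hu, smul_smul, mul_inv_cancel₀ h3L, one_smul]
    abel
  have hC : C = A + (3 * L) • v := by
    rw [hv, smul_smul, mul_inv_cancel₀ h3L, one_smul]
    abel
  have nu : ‖u‖ = 1 := by
    rw [hu, norm_smul, Real.norm_eq_abs, abs_of_pos (by positivity), ← dist_eq_norm, dist_comm, hAB,
      inv_mul_cancel₀ h3L]
  have nv : ‖v‖ = 1 := by
    rw [hv, norm_smul, Real.norm_eq_abs, abs_of_pos (by positivity), ← dist_eq_norm, dist_comm, hAC,
      inv_mul_cancel₀ h3L]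
  have nuv : ‖u - v‖ = 1 := by
    have : u - v = (3 * L)⁻¹ • (B - C) := by
      rw [hu, hv]
      module
    rw [this, norm_smul, Real.norm_eq_abs, abs_of_pos (by positivity), ← dist_eq_norm, hBC,
      inv_mul_cancel₀ h3L]
  have nvu : ‖v - u‖ = 1 := by rw [norm_sub_rev]; exact nuv
  -- inner products
  have iuu : (inner ℝ u u : ℝ) = 1 := by rw [real_inner_self_eq_norm_sq, nu]; norm_num
  have ivv : (inner ℝ v v : ℝ) = 1 := by rw [real_inner_self_eq_norm_sq, nv]; norm_num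
  have iuv : (inner ℝ u v : ℝ) = 1 / 2 := by
    have := norm_sub_sq_real u v
    rw [nu, nv, nuv] at this
    linarith
  have ivu : (inner ℝ v u : ℝ) = 1 / 2 := by rw [real_inner_comm]; exact iuv
  -- dual basis
  obtain ⟨α, hα⟩ : ∃ α : E2, α = (4 / 3 : ℝ) • u - (2 / 3 : ℝ) • v := ⟨_, rfl⟩
  obtain ⟨β, hβ⟩ : ∃ β : E2, β = (4 / 3 : ℝ) • v - (2 / 3 : ℝ) • u := ⟨_, rfl⟩
  have αu : (inner ℝ α u : ℝ) = 1 := by
    rw [hα, inner_sub_left, real_inner_smul_left, real_inner_smul_left, iuu, ivu]; norm_num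
  have αv : (inner ℝ α v : ℝ) = 0 := by
    rw [hα, inner_sub_left, real_inner_smul_left, real_inner_smul_left, iuv, ivv]; norm_num
  have βu : (inner ℝ β u : ℝ) = 0 := by
    rw [hβ, inner_sub_left, real_inner_smul_left, real_inner_smul_left, iuu, ivu]; norm_num
  have βv : (inner ℝ β v : ℝ) = 1 := by
    rw [hβ, inner_sub_left, real_inner_smul_left, real_inner_smul_left, iuv, ivv]; norm_num
  have cX : ∀ X Y : ℝ, (inner ℝ α (A + X • u + Y • v - A) : ℝ) = X := by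
    intro X Y
    rw [show A + X • u + Y • v - A = X • u + Y • v by abel, inner_add_right, real_inner_smul_right,
      real_inner_smul_right, αu, αv]
    ring
  have cY : ∀ X Y : ℝ, (inner ℝ β (A + X • u + Y • v - A) : ℝ) = Y := by
    intro X Y
    rw [show A + X • u + Y • v - A = X • u + Y • v by abel, inner_add_right, real_inner_smul_right,
      real_inner_smul_right, βu, βv]
    ring
  have αα : (inner ℝ α α : ℝ) ≠ 0 := by
    have e0 : (inner ℝ α ((4 / 3 : ℝ) • u - (2 / 3 : ℝ) • v) : ℝ) = 4 / 3 := by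
      rw [inner_sub_right, real_inner_smul_right, real_inner_smul_right, αu, αv]
      norm_num
    rw [← hα] at e0
    rw [e0]; norm_num
  have ββ : (inner ℝ β β : ℝ) ≠ 0 := by
    have e0 : (inner ℝ β ((4 / 3 : ℝ) • v - (2 / 3 : ℝ) • u) : ℝ) = 4 / 3 := by
      rw [inner_sub_right, real_inner_smul_right, real_inner_smul_right, βu, βv]
      norm_num
    rw [← hβ] at e0
    rw [e0]; norm_num
  have αβ : (inner ℝ (α + β) (α + β) : ℝ) ≠ 0 := by
    have e1 : α + β = (2 / 3 : ℝ) • (u + v) := by rw [hα, hβ]; module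
    have e0 : (inner ℝ (α + β) ((2 / 3 : ℝ) • (u + v)) : ℝ) = 4 / 3 := by
      rw [real_inner_smul_right, inner_add_left, inner_add_right, inner_add_right, αu, αv, βu, βv]
      norm_num
    rw [← e1] at e0
    rw [e0]; norm_num
  have cXY : ∀ X Y : ℝ, (inner ℝ (α + β) (A + X • u + Y • v - A) : ℝ) = X + Y := by
    intro X Y
    rw [inner_add_left, cX, cY]
  -- the three trapezoids
  have hk : a ^ 2 + b ^ 2 ≤ (a + b) * a * b := by
    have q1 : a ^ 2 * 1 ≤ a ^ 2 * b := Nat.mul_le_mul_left _ hb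
    have q2 : b ^ 2 * 1 ≤ b ^ 2 * a := Nat.mul_le_mul_left _ ha
    calc a ^ 2 + b ^ 2 = a ^ 2 * 1 + b ^ 2 * 1 := by ring
      _ ≤ a ^ 2 * b + b ^ 2 * a := Nat.add_le_add q1 q2
      _ = (a + b) * a * b := by ring
  have T1 := h1 e a b c mu (a + b) he ha hb hc hmu (by omega) habc hk A u v nu nv nuv L hL
  have T2 := h1 e a b c mu (a + b) he ha hb hc hmu (by omega) habc hk B (v - u) (-u) nvu
    (by rw [norm_neg]; exact nu) (by rw [show v - u - -u = v by abel]; exact nv) L hL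
  have T3 := h1 e a b c mu (a + b) he ha hb hc hmu (by omega) habc hk C (-v) (u - v)
    (by rw [norm_neg]; exact nv) nuv
    (by rw [show -v - (u - v) = -u by abel, norm_neg]; exact nu) L hL
  have E1 : {p : E2 | ∃ x y : ℝ, 0 ≤ x ∧ 0 ≤ y ∧ y ≤ L ∧ x + y ≤ 2 * L ∧ p = A + x • u + y • v} =
      {p : E2 | ∃ X Y : ℝ, 0 ≤ X ∧ 0 ≤ Y ∧ Y ≤ L ∧ X + Y ≤ 2 * L ∧ p = A + X • u + Y • v} := rfl
  have E2' : {p : E2 | ∃ x y : ℝ, 0 ≤ x ∧ 0 ≤ y ∧ y ≤ L ∧ x + y ≤ 2 * L ∧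
      p = B + x • (v - u) + y • (-u)} =
      {p : E2 | ∃ X Y : ℝ, L ≤ X ∧ 0 ≤ Y ∧ 2 * L ≤ X + Y ∧ X + Y ≤ 3 * L ∧
        p = A + X • u + Y • v} := by
    ext p
    constructor
    · rintro ⟨x, y, hx, hy, hyL, hxy, rfl⟩
      refine ⟨3 * L - x - y, x, by linarith, hx, by linarith, by linarith, ?_⟩
      rw [hB]
      module
    · rintro ⟨X, Y, hX, hY, hs, hs', rfl⟩
      refine ⟨Y, 3 * L - X - Y, hY, by linarith, by linarith, by linarith, ?_⟩
      rw [hB]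
      module
  have E3 : {p : E2 | ∃ x y : ℝ, 0 ≤ x ∧ 0 ≤ y ∧ y ≤ L ∧ x + y ≤ 2 * L ∧
      p = C + x • (-v) + y • (u - v)} =
      {p : E2 | ∃ X Y : ℝ, 0 ≤ X ∧ X ≤ L ∧ L ≤ Y ∧ X + Y ≤ 3 * L ∧
        p = A + X • u + Y • v} := by
    ext p
    constructor
    · rintro ⟨x, y, hx, hy, hyL, hxy, rfl⟩
      refine ⟨y, 3 * L - x - y, hy, hyL, by linarith, by linarith, ?_⟩
      rw [hC]
      module
    · rintro ⟨X, Y, hX, hX', hY, hs', rfl⟩
      refine ⟨3 * L - X - Y, X, by linarith, hX, hX', by linarith, ?_⟩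
      rw [hC]
      module
  rw [E2'] at T2
  rw [E3] at T3
  have D12 : Disjoint
      (interior {p : E2 | ∃ X Y : ℝ, 0 ≤ X ∧ 0 ≤ Y ∧ Y ≤ L ∧ X + Y ≤ 2 * L ∧ p = A + X • u + Y • v})
      (interior {p : E2 | ∃ X Y : ℝ, L ≤ X ∧ 0 ≤ Y ∧ 2 * L ≤ X + Y ∧ X + Y ≤ 3 * L ∧
        p = A + X • u + Y • v}) := by
    refine disj_of _ _ (α + β) (α + β) A (2 * L) (2 * L) αβ αβ ?_
    rintro p ⟨X, Y, -, -, -, hs, hp⟩ ⟨X', Y', -, -, hs', -, hp'⟩
    left
    have k1 : (inner ℝ (α + β) (p - A) : ℝ) = X + Y := by rw [hp]; exact cXY X Y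
    have k2 : (inner ℝ (α + β) (p - A) : ℝ) = X' + Y' := by rw [hp']; exact cXY X' Y'
    linarith
  have T12 := h2 _ _ _ _ _ T1 T2 D12
  have D3 : Disjoint (interior
      ({p : E2 | ∃ X Y : ℝ, 0 ≤ X ∧ 0 ≤ Y ∧ Y ≤ L ∧ X + Y ≤ 2 * L ∧ p = A + X • u + Y • v} ∪
      {p : E2 | ∃ X Y : ℝ, L ≤ X ∧ 0 ≤ Y ∧ 2 * L ≤ X + Y ∧ X + Y ≤ 3 * L ∧
        p = A + X • u + Y • v}))
      (interior {p : E2 | ∃ X Y : ℝ, 0 ≤ X ∧ X ≤ L ∧ L ≤ Y ∧ X + Y ≤ 3 * L ∧
        p = A + X • u + Y • v}) := by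
    refine disj_of _ _ β α A L L ββ αα ?_
    rintro p (⟨X, Y, -, -, hs, -, hp⟩ | ⟨X, Y, hs, -, -, -, hp⟩) ⟨X', Y', -, hX, hY, -, hp'⟩
    · left
      have k1 : (inner ℝ β (p - A) : ℝ) = Y := by rw [hp]; exact cY X Y
      have k2 : (inner ℝ β (p - A) : ℝ) = Y' := by rw [hp']; exact cY X' Y'
      linarith
    · right
      have k1 : (inner ℝ α (p - A) : ℝ) = X := by rw [hp]; exact cX X Y
      have k2 : (inner ℝ α (p - A) : ℝ) = X' := by rw [hp']; exact cX X' Y'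
      linarith
  have T123 := h2 _ _ _ _ _ T12 T3 D3
  have hfin : TriOf A B C =
      ({p : E2 | ∃ X Y : ℝ, 0 ≤ X ∧ 0 ≤ Y ∧ Y ≤ L ∧ X + Y ≤ 2 * L ∧ p = A + X • u + Y • v} ∪
      {p : E2 | ∃ X Y : ℝ, L ≤ X ∧ 0 ≤ Y ∧ 2 * L ≤ X + Y ∧ X + Y ≤ 3 * L ∧
        p = A + X • u + Y • v}) ∪
      {p : E2 | ∃ X Y : ℝ, 0 ≤ X ∧ X ≤ L ∧ L ≤ Y ∧ X + Y ≤ 3 * L ∧
        p = A + X • u + Y • v} := by
    ext p
    rw [mem_tri]
    constructor
    · rintro ⟨x, y, z, hx, hy, hz, hs, hp⟩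
      have hp2 : p = A + (3 * L * y) • u + (3 * L * z) • v := by
        rw [hp, hB, hC, show x = 1 - y - z by linarith]
        module
      have hY0 : 0 ≤ 3 * L * y := by positivity
      have hZ0 : 0 ≤ 3 * L * z := by positivity
      have hS : 3 * L * y + 3 * L * z ≤ 3 * L := by nlinarith
      rcases le_total (3 * L * z) L with q1 | q1
      · rcases le_total (3 * L * y + 3 * L * z) (2 * L) with q2 | q2
        · left; left
          exact ⟨_, _, hY0, hZ0, q1, q2, hp2⟩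
        · left; right
          exact ⟨_, _, by linarith, hZ0, q2, hS, hp2⟩
      · rcases le_total (3 * L * y) L with q2 | q2
        · right
          exact ⟨_, _, hY0, q2, q1, hS, hp2⟩
        · left; right
          exact ⟨_, _, q2, hZ0, by linarith, hS, hp2⟩
    · have key : ∀ X Y : ℝ, 0 ≤ X → 0 ≤ Y → X + Y ≤ 3 * L → p = A + X • u + Y • v →
          ∃ x y z : ℝ, 0 ≤ x ∧ 0 ≤ y ∧ 0 ≤ z ∧ x + y + z = 1 ∧ p = x • A + y • B + z • C := by
        intro X Y hX hY hs hp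
        have d1 : X / (3 * L) * (3 * L) = X := div_mul_cancel₀ _ h3L
        have d2 : Y / (3 * L) * (3 * L) = Y := div_mul_cancel₀ _ h3L
        have d3 : X / (3 * L) + Y / (3 * L) ≤ 1 := by
          rw [← add_div, div_le_one (by positivity)]
          exact hs
        refine ⟨1 - X / (3 * L) - Y / (3 * L), X / (3 * L), Y / (3 * L), by linarith,
          by positivity, by positivity, by ring, ?_⟩
        rw [hp, hB, hC, smul_add, smul_add, smul_smul, smul_smul, d1, d2]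
        module
      rintro ((⟨X, Y, hX, hY, -, hs, hp⟩ | ⟨X, Y, hX, hY, -, hs, hp⟩) | ⟨X, Y, hX, -, hY, hs, hp⟩)
      · exact key X Y hX hY (by linarith) hp
      · exact key X Y (by linarith) hY hs hp
      · exact key X Y hX (by linarith) hs hp
  rw [hfin]
  exact T123

end Q16.SQ
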