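import Mathlib
import Pool.Agent.Q16.SQ.Stm
set_option autoImplicit false
noncomputable section
open scoped BigOperators
open Pool.Agent.Helper549.Tri

namespace Q16.SQ

private theorem tri_ineq {x y z a b c : ℝ} (hx : 0 < x) (hy : 0 < y) (hz : 0 < z)
    (hs : x + y + z = Real.pi) (hc : 0 < c)
    (h1 : a * Real.sin z = c * Real.sin x) (h2 : b * Real.sin z = c * Real.sin y) :
    c < a + b := by
  have sx : 0 < Real.sin x := Real.sin_pos_of_pos_of_lt_pi hx (by linarith)
  have sy : 0 < Real.sin y := Real.sin_pos_of_pos_of_lt_pi hy (by linarith)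
  have sz : 0 < Real.sin z := Real.sin_pos_of_pos_of_lt_pi hz (by linarith)
  have cx : Real.cos x < 1 := by
    have := Real.cos_lt_cos_of_nonneg_of_le_pi (le_refl 0) (by linarith : x ≤ Real.pi) hx
    simpa using this
  have cy : Real.cos y < 1 := by
    have := Real.cos_lt_cos_of_nonneg_of_le_pi (le_refl 0) (by linarith : y ≤ Real.pi) hy
    simpa using this
  have e : Real.sin z = Real.sin x * Real.cos y + Real.cos x * Real.sin y := by
    have : z = Real.pi - (x + y) := by linarith
    rw [this, Real.sin_pi_sub, Real.sin_add]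
  have hlt : Real.sin z < Real.sin x + Real.sin y := by
    rw [e]
    nlinarith [mul_pos sx (sub_pos.2 cy), mul_pos sy (sub_pos.2 cx)]
  have h3 : (a + b) * Real.sin z = c * (Real.sin x + Real.sin y) := by linarith
  have h4 : c * Real.sin z < (a + b) * Real.sin z := by
    rw [h3]
    exact mul_lt_mul_of_pos_left hlt hc
  exact lt_of_mul_lt_mul_right h4 sz.le

private theorem sq_of {N : ℕ} {M : ℤ} {u : ℝ} (hu : u ≠ 0) (h : Real.sqrt N * u = M * u) :
    IsSquare N := by
  have h1 : Real.sqrt N = M := mul_right_cancel₀ hu h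
  have h2 : (N : ℝ) = (M : ℝ) * M := by
    rw [← h1]
    exact (Real.mul_self_sqrt (Nat.cast_nonneg N)).symm
  have h3 : (N : ℤ) = M * M := by exact_mod_cast h2
  refine ⟨M.natAbs, ?_⟩
  have : ((M.natAbs * M.natAbs : ℕ) : ℤ) = M * M := by
    rw [Int.natAbs_mul_self]
  exact_mod_cast h3.trans this.symm

theorem t_SIMC (h1 : S_MATJ) (h2 : S_IDENT) : S_SIMC := by
  intro N ℓ θ S A κ β h hN
  have l0 := h.lpos 0
  have l1 := h.lpos 1
  have l2 := h.lpos 2
  have t0 := h.tpos 0
  have t1 := h.tpos 1
  have t2 := h.tpos 2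
  have ts := h.tsum
  have as := h.Asum
  have hA0 := h.angles 0
  have hA1 := h.angles 1
  have hA2 := h.angles 2
  obtain ⟨-, hS⟩ := h2 h
  refine ⟨?_, ?_, ?_, ?_⟩
  · rintro rfl
    have hA : ∀ j, A j = θ j := by
      intro j
      rw [h.angles j]
      fin_cases j <;> simp [Fin.sum_univ_three]
    have hS' := hS hA
    refine (h1 N hN β ℓ h.lpos ?_).1 ?_
    · intro k
      rw [← h.side k, hS' k]
    · intro k l hlk
      obtain ⟨x, y, hxy, hx, hy⟩ := h.corner k l hlk.symm
      refine ⟨y, ?_, hy⟩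
      rintro rfl
      apply hxy
      revert hx
      clear * -
      revert x y
      decide
  · rintro rfl
    simp [Fin.sum_univ_three] at hA0 hA1 hA2
    have ht : θ 1 = 2 * θ 0 := by linarith
    have hA : ∀ j, A j = θ j := by
      intro j
      fin_cases j
      · exact hA0
      · exact hA1.trans ht.symm
      · exact hA2
    have hS' := hS hA
    obtain ⟨M, -, -, hM, -⟩ := h.char ![-1, 1, 1] (by decide) (by decide) (by decide) (by decide)
    simp [Fin.sum_univ_three, Fin.prod_univ_three, hS'] at hM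
    have hin : ℓ 0 < ℓ 1 + ℓ 2 := tri_ineq t1 t2 t0 (by linarith) l0 (h.sinet 1 0) (h.sinet 2 0)
    exact hN (sq_of (M := M) (u := -ℓ 0 + ℓ 1 + ℓ 2) (by linarith) (by linarith))
  · rintro rfl
    simp [Fin.sum_univ_three] at hA0 hA1 hA2
    have ht : θ 2 = 2 * θ 0 + θ 1 := by linarith
    have hA : ∀ j, A j = θ j := by
      intro j
      fin_cases j
      · exact hA0
      · exact hA1
      · exact hA2.trans ht.symm
    have hS' := hS hA
    obtain ⟨M, -, -, hM, -⟩ := h.char ![-1, -1, -1] (by decide) (by decide) (by decide) (by decide)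
    simp [Fin.sum_univ_three, Fin.prod_univ_three, hS'] at hM
    exact hN (sq_of (M := M) (u := ℓ 0 + ℓ 1 + ℓ 2) (by positivity) (by linarith))
  · rintro rfl
    simp [Fin.sum_univ_three] at hA0 hA1 hA2
    have ht : θ 2 = 2 * θ 0 + 2 * θ 1 := by linarith
    have hA : ∀ j, A j = θ j := by
      intro j
      fin_cases j
      · exact hA0
      · exact hA1
      · exact hA2.trans ht.symm
    have hS' := hS hA
    obtain ⟨M, -, -, hM, -⟩ := h.char ![1, -1, 1] (by decide) (by decide) (by decide) (by decide)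
    simp [Fin.sum_univ_three, Fin.prod_univ_three, hS'] at hM
    have hin : ℓ 1 < ℓ 0 + ℓ 2 := tri_ineq t0 t2 t1 (by linarith) l1 (h.sinet 0 1) (h.sinet 2 1)
    exact hN (sq_of (M := M) (u := ℓ 0 - ℓ 1 + ℓ 2) (by linarith) (by linarith))

end Q16.SQ
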