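import Mathlib

/-!
Self-interest cumulative subtraction games with tie-breaking conventions.
-/

namespace Q135.Ties

/-- The two tie-breaking conventions: friendly `F` and antagonistic `A`. -/
inductive Conv
  | F
  | A
  deriving DecidableEq

open Conv

/-- The outcome `(o^1, o^2)` at heap size `h`, when the player who moves has convention `x` and the
other player has convention `y`.  The first component is the maximum over the moves
`s ∈ S`, `0 < s ≤ h` of `s` plus the second component at `h - s` in the dual setting `(y, x)`; the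
second component is, over the moves attaining this maximum, the maximum (if `x = F`) or the minimum
(if `x = A`) of the first component at `h - s` in the dual setting.  If there is no move both
are `0` (`sSup` and `sInf` of the empty set of natural numbers are `0`). -/
noncomputable def out (S : Finset ℕ) (x y : Conv) (h : ℕ) : ℕ × ℕ :=
  let best : ℕ := sSup {v : ℕ | ∃ s : ℕ, ∃ _ : s ∈ S ∧ 0 < s ∧ s ≤ h,
    v = s + (out S y x (h - s)).2}
  let replies : Set ℕ := {w : ℕ | ∃ s : ℕ, ∃ _ : s ∈ S ∧ 0 < s ∧ s ≤ h,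
    s + (out S y x (h - s)).2 = best ∧ w = (out S y x (h - s)).1}
  (best, match x with
    | F => sSup replies
    | A => sInf replies)
termination_by h
decreasing_by all_goals omega

/-- Certificate for a value of `out` when there is a move. -/
theorem out_eq_of (S : Finset ℕ) (x y : Conv) (h : ℕ) (v : ℕ × ℕ)
    (h1 : ∀ s ∈ S, 0 < s → s ≤ h → s + (out S y x (h - s)).2 ≤ v.1)
    (h2 : ∃ s ∈ S, 0 < s ∧ s ≤ h ∧ s + (out S y x (h - s)).2 = v.1 ∧ (out S y x (h - s)).1 = v.2)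
    (hF : x = F → ∀ s ∈ S, 0 < s → s ≤ h → s + (out S y x (h - s)).2 = v.1 →
      (out S y x (h - s)).1 ≤ v.2)
    (hA : x = A → ∀ s ∈ S, 0 < s → s ≤ h → s + (out S y x (h - s)).2 = v.1 →
      v.2 ≤ (out S y x (h - s)).1) :
    out S x y h = v := by
  obtain ⟨s0, hs0, hp0, hle0, e1, e2⟩ := h2
  have hb : IsGreatest {v : ℕ | ∃ s : ℕ, ∃ _ : s ∈ S ∧ 0 < s ∧ s ≤ h,
      v = s + (out S y x (h - s)).2} v.1 := by
    refine ⟨⟨s0, ⟨hs0, hp0, hle0⟩, e1.symm⟩, ?_⟩
    rintro w ⟨s, ⟨a, b, c⟩, rfl⟩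
    exact h1 s a b c
  rw [out.eq_def]
  simp only
  rw [hb.csSup_eq]
  ext
  · rfl
  · cases x with
    | F =>
      simp only
      apply IsGreatest.csSup_eq
      refine ⟨⟨s0, ⟨hs0, hp0, hle0⟩, e1, e2.symm⟩, ?_⟩
      rintro w ⟨s, ⟨a, b, c⟩, d, rfl⟩
      exact hF rfl s a b c d
    | A =>
      simp only
      apply IsLeast.csInf_eq
      refine ⟨⟨s0, ⟨hs0, hp0, hle0⟩, e1, e2.symm⟩, ?_⟩
      rintro w ⟨s, ⟨a, b, c⟩, d, rfl⟩
      exact hA rfl s a b c d

/-- Without a move the outcome is `(0,0)`. -/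
theorem out_zero (S : Finset ℕ) (x y : Conv) (h : ℕ) (hno : ∀ s ∈ S, 0 < s → ¬ s ≤ h) :
    out S x y h = (0, 0) := by
  have e1 : {v : ℕ | ∃ s : ℕ, ∃ _ : s ∈ S ∧ 0 < s ∧ s ≤ h,
      v = s + (out S y x (h - s)).2} = ∅ := by
    rw [Set.eq_empty_iff_forall_notMem]
    rintro w ⟨s, ⟨a, b, c⟩, -⟩
    exact hno s a b c
  have e2 : ∀ b : ℕ, {w : ℕ | ∃ s : ℕ, ∃ _ : s ∈ S ∧ 0 < s ∧ s ≤ h,
      s + (out S y x (h - s)).2 = b ∧ w = (out S y x (h - s)).1} = ∅ := by
    intro b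
    rw [Set.eq_empty_iff_forall_notMem]
    rintro w ⟨s, ⟨a, b, c⟩, -⟩
    exact hno s a b c
  rw [out.eq_def]
  simp only [e1, e2]
  cases x <;> simp

/-- If there is a move, some move attains both components of the outcome. -/
theorem out_attained (S : Finset ℕ) (x y : Conv) (h : ℕ) (s0 : ℕ) (hs0 : s0 ∈ S) (hp0 : 0 < s0)
    (hle0 : s0 ≤ h) :
    (∀ s ∈ S, 0 < s → s ≤ h → s + (out S y x (h - s)).2 ≤ (out S x y h).1) ∧
    ∃ s ∈ S, 0 < s ∧ s ≤ h ∧ s + (out S y x (h - s)).2 = (out S x y h).1 ∧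
      (out S y x (h - s)).1 = (out S x y h).2 := by
  set V : Set ℕ := {v : ℕ | ∃ s : ℕ, ∃ _ : s ∈ S ∧ 0 < s ∧ s ≤ h,
      v = s + (out S y x (h - s)).2} with hV
  have hVfin : V.Finite := by
    have : V ⊆ (fun s => s + (out S y x (h - s)).2) '' (S : Set ℕ) := by
      rintro v ⟨s, ⟨a, b, c⟩, rfl⟩
      exact ⟨s, a, rfl⟩
    exact (S.finite_toSet.image _).subset this
  have hVne : V.Nonempty := ⟨_, s0, ⟨hs0, hp0, hle0⟩, rfl⟩
  have hVmem : sSup V ∈ V := Nat.sSup_mem hVne hVfin.bddAbove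
  have hVle : ∀ v ∈ V, v ≤ sSup V := fun v hv => le_csSup hVfin.bddAbove hv
  have e1 : (out S x y h).1 = sSup V := by
    rw [out.eq_def]
  set W : Set ℕ := {w : ℕ | ∃ s : ℕ, ∃ _ : s ∈ S ∧ 0 < s ∧ s ≤ h,
    s + (out S y x (h - s)).2 = sSup V ∧ w = (out S y x (h - s)).1} with hW
  have hWfin : W.Finite := by
    have : W ⊆ (fun s => (out S y x (h - s)).1) '' (S : Set ℕ) := by
      rintro v ⟨s, ⟨a, b, c⟩, -, rfl⟩
      exact ⟨s, a, rfl⟩
    exact (S.finite_toSet.image _).subset this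
  have hWne : W.Nonempty := by
    obtain ⟨s, hs, he⟩ := hVmem
    exact ⟨_, s, hs, he.symm, rfl⟩
  have e2 : (out S x y h).2 ∈ W := by
    rw [out.eq_def]
    cases x with
    | F => exact Nat.sSup_mem hWne hWfin.bddAbove
    | A => exact Nat.sInf_mem hWne
  refine ⟨?_, ?_⟩
  · intro s hs h0 hle
    rw [e1]
    exact hVle _ ⟨s, ⟨hs, h0, hle⟩, rfl⟩
  · obtain ⟨s, ⟨a, b, c⟩, d, e⟩ := e2
    exact ⟨s, a, b, c, by rw [e1]; exact d, e.symm⟩

end Q135.Ties
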